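import Pool.Agent.Helper37.SD.Defs

/-!
# Definitions: normal and Cohen-Macaulay rings, traces of vector fields on truncations
-/

set_option autoImplicit false

namespace Pool.Agent.Helper20.TS

open Module Pool.Agent.Helper37.SD

variable {K : Type} [Field K] [Algebra ℂ K]

/-- `R` is integrally closed in its fraction field `K`. -/
def Normal (R : Subalgebra ℂ K) : Prop := ∀ x : K, IsIntegral R x → x ∈ R

/-- `R` (of dimension `d`) is Cohen-Macaulay: it is a free module, with a finite basis `e`, over
every polynomial subalgebra `ℂ[z 0, …, z (d - 1)]` over which it is integral. -/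
def CM (d : ℕ) (R : Subalgebra ℂ K) : Prop := ∀ z : Fin d → K, (∀ i, z i ∈ R) →
  AlgebraicIndependent ℂ z → (∀ x ∈ R, IsIntegral (Algebra.adjoin ℂ (Set.range z)) x) →
    ∃ (r : ℕ) (e : Fin r → K), (∀ l, e l ∈ R) ∧
      ∀ x ∈ R, ∃! p : Fin r → MvPolynomial (Fin d) ℂ, x = ∑ l, MvPolynomial.aeval z (p l) * e l

open Classical in
/-- The trace of the endomorphism of `R / {v ≥ m}` induced by `Y` (and `0` if there is none). -/
noncomputable def qTr (R : Subalgebra ℂ K) (v : RVal K) (Y : Derivation ℂ K K) (m : ℝ) : ℂ :=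
  if h : ∃ T : (R ⧸ idl R v m) →ₗ[ℂ] (R ⧸ idl R v m), ∀ x y : R, (y : K) = Y (x : K) →
      T (Submodule.Quotient.mk x) = Submodule.Quotient.mk y
    then LinearMap.trace ℂ (R ⧸ idl R v m) h.choose else 0

end Pool.Agent.Helper20.TS
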