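import Pool.Agent.Helper37.SD.Main
import Pool.Agent.Helper20.TS.Defs

/-!
# Project TS (MP_e1889a_ag): traces of vector fields on cones, definitions

`R` is the ring of a cone with Reeb field `ξ` inside its function field `K`.  The target is
`trace_identity` in `Main.lean`: if `J` is an endomorphism of the derivations of `R` of degree `0`
with constant trace `t`, then the traces of `J ξ` and of `ξ` on `R / {v ≥ m}` have the asymptotic
ratio `t / d`, where `d` is the dimension of the cone.
-/

set_option autoImplicit false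

namespace Pool.Agent.Helper20.TS

open Module Filter Topology Pool.Agent.Helper37.SD

variable {K : Type} [Field K] [Algebra ℂ K]

open Classical in
/-- The trace of `Y` on the elements of `R` of degree `c` (and `0` if `Y` does not act there). -/
noncomputable def dTr (R : Subalgebra ℂ K) (ξ Y : Derivation ℂ K K) (c : ℝ) : ℂ :=
  if h : ∃ T : eigR R ξ c →ₗ[ℂ] eigR R ξ c, ∀ x, ((T x : eigR R ξ c) : K) = Y (x : K)
    then LinearMap.trace ℂ (eigR R ξ c) h.choose else 0

/-- The degrees of the elements of `R`. -/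
def Deg (R : Subalgebra ℂ K) (ξ : Derivation ℂ K K) : Set ℝ := {c | eigR R ξ c ≠ ⊥}

/-- A cone whose degrees are natural numbers. -/
structure NCone (R : Subalgebra ℂ K) (ζ : Derivation ℂ K K) : Prop extends IsCone R ζ where
  int : ∀ x ∈ R, x ≠ 0 → ∀ c : ℝ, ζ x = (c : ℂ) • x → ∃ m : ℕ, c = m

/-- Homogeneous parameters `z` of the same degree `N`, and a homogeneous basis `e` of `R` over
`ℂ[z]`, of degrees `ε`. -/
structure NB (R : Subalgebra ℂ K) (ζ : Derivation ℂ K K) (d N r : ℕ) (z : Fin d → K)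
    (e : Fin r → K) (ε : Fin r → ℕ) : Prop where
  pos : 0 < N
  zR : ∀ i, z i ∈ R
  zdeg : ∀ i, ζ (z i) = (((N : ℝ)) : ℂ) • z i
  ind : AlgebraicIndependent ℂ z
  int : ∀ x ∈ R, IsIntegral (Algebra.adjoin ℂ (Set.range z)) x
  eR : ∀ l, e l ∈ R
  edeg : ∀ l, ζ (e l) = (((ε l : ℝ)) : ℂ) • e l
  basis : ∀ x ∈ R, ∃! p : Fin r → MvPolynomial (Fin d) ℂ,
    x = ∑ l, MvPolynomial.aeval z (p l) * e l

/-- The field `ℂ(z)`. -/
noncomputable abbrev Fz {d : ℕ} (z : Fin d → K) : IntermediateField ℂ K :=
  IntermediateField.adjoin ℂ (Set.range z)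

/-- The trace of `K` over `ℂ(z)`, as an element of `K`. -/
noncomputable def trz {d : ℕ} (z : Fin d → K) (x : K) : K :=
  ((Algebra.trace (Fz z) K x : Fz z) : K)

/-- The number of `α : Fin d → ℕ` with `∑ α < k`. -/
def Cn (d k : ℕ) : ℕ := ∑ j ∈ Finset.range k, (Finset.Nat.antidiagonalTuple d j).card

/-- The sum of `∑ α` over the `α : Fin d → ℕ` with `∑ α < k`. -/
def Sg (d k : ℕ) : ℕ := ∑ j ∈ Finset.range k, j * (Finset.Nat.antidiagonalTuple d j).card

end Pool.Agent.Helper20.TS
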