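import Pool.Agent.Helper20.TS.Df

/-!
# TS-N1: Noether normalization by linear combinations of elements of the same degree

`exists_lin`: induction on `r`.  If `y` is algebraically independent take `z = y`.  Otherwise there
is a polynomial `G ≠ 0` with `G(y) = 0`; the component of `G(y)` of degree `j N` is `G_j(y)`
(`G_j` the homogeneous component of degree `j`; eigenvectors of `ζ` with different eigenvalues are
independent, `eig_indep`), so we may take `G` homogeneous of degree `D`.  Then `D > 0` and there are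
`c i` with `c r = 1` (last index) and `G(c) ≠ 0` (`ℂ` is infinite, `G` homogeneous).  With
`y' i = y i - c i y_last` for the other indices, `0 = G(y' + c y_last)` is a polynomial in `y_last`
with leading coefficient `G(c)` and coefficients in `ℂ[y']`, so `y_last` and all `y i` are integral
over `ℂ[y']`.  Apply the induction hypothesis to `y'` and use transitivity of integrality.

`exists_noether`: take homogeneous generators `T` of `R` of positive degrees (`IsCone.exists_gens`,
`NCone.int`), `N` the product of the degrees, `y t = t ^ (N / deg t)`.  `R` is integral over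
`ℂ[y]`.
-/

set_option autoImplicit false

namespace Pool.Agent.Helper20.TS

open Module Pool.Agent.Helper37.SD

variable {K : Type} [Field K] [Algebra ℂ K]

namespace N1

theorem eig_pw {ζ : Derivation ℂ K K} {c : ℝ} {x : K} (hx : ζ x = (c : ℂ) • x) (n : ℕ) :
    ζ (x ^ n) = (((n * c : ℝ)) : ℂ) • x ^ n := by
  induction n with
  | zero => rw [pow_zero, Nat.cast_zero, zero_mul]; exact eig_one
  | succ n ih =>
    rw [pow_succ]
    have h1 := eig_mul ih hx
    rw [h1]
    congr 2
    push_cast
    ring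

theorem hom_aeval {ζ : Derivation ℂ K K} {r N j : ℕ} {y : Fin r → K}
    (hy : ∀ i, ζ (y i) = (((N : ℝ)) : ℂ) • y i) {G : MvPolynomial (Fin r) ℂ}
    (hG : G.IsHomogeneous j) :
    ζ (MvPolynomial.aeval y G) = (((j * N : ℝ)) : ℂ) • MvPolynomial.aeval y G := by
  rw [MvPolynomial.aeval_def, MvPolynomial.eval₂_eq, map_sum, Finset.smul_sum]
  refine Finset.sum_congr rfl fun d hd => ?_
  have hdeg : Finsupp.degree d = j := by
    by_contra hne
    exact (MvPolynomial.mem_support_iff.mp hd) (hG.coeff_eq_zero hne)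
  have h1 := eig_prod (ξ := ζ) d.support (fun i => (d i * N : ℝ)) (fun i => y i ^ d i)
    (fun i _ => eig_pw (hy i) (d i))
  have h2 : ∑ i ∈ d.support, ((d i : ℝ) * (N : ℝ)) = (j : ℝ) * N := by
    rw [← Finset.sum_mul, ← hdeg, Finsupp.degree_apply]
    push_cast
    rfl
  rw [← Algebra.smul_def, Derivation.map_smul, h1, h2, smul_comm]

theorem exists_hom {ζ : Derivation ℂ K K} {r N : ℕ} (hN : 0 < N) {y : Fin r → K}
    (hy : ∀ i, ζ (y i) = (((N : ℝ)) : ℂ) • y i) (hna : ¬ AlgebraicIndependent ℂ y) :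
    ∃ (D : ℕ) (G : MvPolynomial (Fin r) ℂ), G ≠ 0 ∧ G.IsHomogeneous D ∧
      MvPolynomial.aeval y G = 0 := by
  classical
  rw [algebraicIndependent_iff] at hna
  push Not at hna
  obtain ⟨G, hG, hG0⟩ := hna
  obtain ⟨D, hD, hne⟩ : ∃ D ∈ Finset.range (G.totalDegree + 1),
      MvPolynomial.homogeneousComponent D G ≠ 0 := by
    by_contra hcon
    push Not at hcon
    exact hG0 (by rw [← MvPolynomial.sum_homogeneousComponent G]; exact Finset.sum_eq_zero hcon)
  refine ⟨D, MvPolynomial.homogeneousComponent D G, hne,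
    MvPolynomial.homogeneousComponent_isHomogeneous D G, ?_⟩
  have hNR : (0 : ℝ) < (N : ℝ) := by exact_mod_cast hN
  have hinj : Set.InjOn (fun j : ℕ => ((j : ℝ) * (N : ℝ)))
      (Finset.range (G.totalDegree + 1) : Set ℕ) := by
    intro a _ b _ hab
    have h2 : (a : ℝ) = b := mul_right_cancel₀ hNR.ne' hab
    exact_mod_cast h2
  have hval : ∀ j : ℕ, ⌊((j : ℝ) * (N : ℝ)) / N⌋₊ = j := fun j => by
    rw [mul_div_cancel_right₀ _ hNR.ne', Nat.floor_natCast]
  have h3 := eig_indep (ζ : K →ₗ[ℂ] K)
    ((Finset.range (G.totalDegree + 1)).image (fun j : ℕ => ((j : ℝ) * (N : ℝ))))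
    (fun c => MvPolynomial.aeval y (MvPolynomial.homogeneousComponent ⌊c / N⌋₊ G)) ?_ ?_
    ((D : ℝ) * N) (Finset.mem_image.mpr ⟨D, hD, rfl⟩)
  · simpa only [hval] using h3
  · intro c hc
    obtain ⟨j, _, rfl⟩ := Finset.mem_image.mp hc
    simp only [hval]
    exact hom_aeval hy (MvPolynomial.homogeneousComponent_isHomogeneous j G)
  · rw [Finset.sum_image hinj]
    simp only [hval]
    rw [← map_sum, MvPolynomial.sum_homogeneousComponent]
    exact hG

theorem prod_pow_coeff {A : Type} [CommRing A] {r : ℕ} (a c : Fin r → A) (d : Fin r →₀ ℕ)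
    (s : Finset (Fin r)) :
    (∏ i ∈ s, (Polynomial.C (a i) + Polynomial.C (c i) * Polynomial.X) ^ d i).natDegree ≤
        ∑ i ∈ s, d i ∧
      (∏ i ∈ s, (Polynomial.C (a i) + Polynomial.C (c i) * Polynomial.X) ^ d i).coeff
        (∑ i ∈ s, d i) = ∏ i ∈ s, c i ^ d i := by
  classical
  have h0 : ∀ i, (Polynomial.C (a i) + Polynomial.C (c i) * Polynomial.X).natDegree ≤ 1 := by
    intro i
    rw [add_comm]
    exact Polynomial.natDegree_linear_le
  have h1 : ∀ i, (Polynomial.C (a i) + Polynomial.C (c i) * Polynomial.X).coeff 1 = c i := by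
    intro i
    simp
  have h2 : ∀ i (n : ℕ), ((Polynomial.C (a i) + Polynomial.C (c i) * Polynomial.X) ^ n).natDegree
      ≤ n := fun i n => by
    have := Polynomial.natDegree_pow_le_of_le n (h0 i)
    simpa using this
  have h3 : ∀ i (n : ℕ), ((Polynomial.C (a i) + Polynomial.C (c i) * Polynomial.X) ^ n).coeff n
      = c i ^ n := fun i n => by
    have := Polynomial.coeff_pow_of_natDegree_le (h0 i) (m := n)
    rw [mul_one, h1] at this
    exact this
  induction s using Finset.induction_on with
  | empty => simp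
  | insert b s hb ih =>
    rw [Finset.prod_insert hb, Finset.sum_insert hb, Finset.prod_insert hb]
    refine ⟨(Polynomial.natDegree_mul_le_of_le (h2 b _) ih.1), ?_⟩
    rw [Polynomial.coeff_mul_add_eq_of_natDegree_le (h2 b _) ih.1, h3, ih.2]

theorem hom_coeff {A : Type} [CommRing A] [Algebra ℂ A] {r D : ℕ} (a : Fin r → A)
    (c : Fin r → ℂ) {G : MvPolynomial (Fin r) ℂ} (hG : G.IsHomogeneous D) :
    (MvPolynomial.aeval (fun i => Polynomial.C (a i) +
        Polynomial.C (algebraMap ℂ A (c i)) * Polynomial.X) G : Polynomial A).natDegree ≤ D ∧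
      (MvPolynomial.aeval (fun i => Polynomial.C (a i) +
        Polynomial.C (algebraMap ℂ A (c i)) * Polynomial.X) G : Polynomial A).coeff D =
        algebraMap ℂ A (MvPolynomial.eval c G) := by
  classical
  have hdeg : ∀ d ∈ G.support, ∑ i ∈ d.support, d i = D := by
    intro d hd
    rw [← Finsupp.degree_apply]
    by_contra hne
    exact (MvPolynomial.mem_support_iff.mp hd) (hG.coeff_eq_zero hne)
  rw [MvPolynomial.aeval_def, MvPolynomial.eval₂_eq]
  constructor
  · refine Polynomial.natDegree_sum_le_of_forall_le _ _ fun d hd => ?_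
    have h1 := (prod_pow_coeff a (fun i => algebraMap ℂ A (c i)) d d.support).1
    rw [hdeg d hd] at h1
    rw [Polynomial.algebraMap_apply]
    exact (Polynomial.natDegree_C_mul_le _ _).trans h1
  · rw [Polynomial.finsetSum_coeff, MvPolynomial.eval_eq, map_sum]
    refine Finset.sum_congr rfl fun d hd => ?_
    have h1 := (prod_pow_coeff a (fun i => algebraMap ℂ A (c i)) d d.support).2
    rw [hdeg d hd] at h1
    rw [Polynomial.algebraMap_apply, Polynomial.coeff_C_mul, h1, map_mul, map_prod]
    congr 1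
    exact Finset.prod_congr rfl fun i _ => (map_pow _ _ _).symm

theorem integral_step {A : Type} [CommRing A] [Algebra ℂ A] [Algebra A K]
    [IsScalarTower ℂ A K] {r D : ℕ} (a : Fin r → A)
    (c : Fin r → ℂ) {G : MvPolynomial (Fin r) ℂ} (hG : G.IsHomogeneous D)
    (hc : MvPolynomial.eval c G ≠ 0) (t : K)
    (h0 : MvPolynomial.aeval (fun i => algebraMap A K (a i) + algebraMap ℂ K (c i) * t) G = 0) :
    IsIntegral A t := by
  set P : Polynomial A := MvPolynomial.aeval (fun i => Polynomial.C (a i) +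
        Polynomial.C (algebraMap ℂ A (c i)) * Polynomial.X) G with hP
  obtain ⟨h1, h2⟩ := hom_coeff a c hG
  rw [← hP] at h1 h2
  refine ⟨Polynomial.C (algebraMap ℂ A (MvPolynomial.eval c G)⁻¹) * P,
    Polynomial.monic_of_natDegree_le_of_coeff_eq_one D
      ((Polynomial.natDegree_C_mul_le _ _).trans h1) ?_, ?_⟩
  · rw [Polynomial.coeff_C_mul, h2, ← map_mul, inv_mul_cancel₀ hc, map_one]
  · have h3 : Polynomial.aeval t P = 0 := by
      have h4 := MvPolynomial.comp_aeval_apply (fun i => Polynomial.C (a i) +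
        Polynomial.C (algebraMap ℂ A (c i)) * Polynomial.X)
        ((Polynomial.aeval t : Polynomial A →ₐ[A] K).restrictScalars ℂ) G
      have h5 : Polynomial.aeval t P = MvPolynomial.aeval (fun i => Polynomial.aeval t
        (Polynomial.C (a i) + Polynomial.C (algebraMap ℂ A (c i)) * Polynomial.X)) G := h4
      rw [h5]
      rw [← h0]
      congr 2
      funext i
      rw [map_add, map_mul, Polynomial.aeval_C, Polynomial.aeval_C, Polynomial.aeval_X,
        ← IsScalarTower.algebraMap_apply]
    rw [← Polynomial.aeval_def, map_mul, h3, mul_zero]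

end N1

theorem exists_lin {R : Subalgebra ℂ K} {ζ : Derivation ℂ K K} (h : NCone R ζ) {N : ℕ}
    (hN : 0 < N) (r : ℕ) : ∀ y : Fin r → K,
      (∀ i, y i ∈ R ∧ ζ (y i) = (((N : ℝ)) : ℂ) • y i) →
      ∃ (d : ℕ) (z : Fin d → K), (∀ i, z i ∈ Submodule.span ℂ (Set.range y)) ∧
        AlgebraicIndependent ℂ z ∧ ∀ i, IsIntegral (Algebra.adjoin ℂ (Set.range z)) (y i) := by
  classical
  induction r with
  | zero =>
    intro y _
    refine ⟨0, y, fun i => i.elim0, ?_, fun i => i.elim0⟩
    rw [algebraicIndependent_empty_type_iff]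
    exact (algebraMap ℂ K).injective
  | succ r ih =>
    intro y hy
    by_cases hA : AlgebraicIndependent ℂ y
    · refine ⟨r + 1, y, fun i => Submodule.subset_span ⟨i, rfl⟩, hA, fun i => ?_⟩
      exact isIntegral_algebraMap (R := Algebra.adjoin ℂ (Set.range y))
        (x := ⟨y i, Algebra.subset_adjoin ⟨i, rfl⟩⟩)
    obtain ⟨D, G, hG0, hG, hGy⟩ := N1.exists_hom hN (fun i => (hy i).2) hA
    obtain ⟨c, hc⟩ : ∃ c, MvPolynomial.eval c G ≠ 0 := by
      by_contra hcon
      push Not at hcon
      exact hG0 (MvPolynomial.funext (fun x => by rw [hcon, map_zero]))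
    obtain ⟨k, hk⟩ : ∃ k, c k ≠ 0 := by
      by_contra hcon
      push Not at hcon
      have hc0 : c = 0 := funext hcon
      rw [hc0, MvPolynomial.eval_zero, MvPolynomial.constantCoeff_eq] at hc
      have h2 : D = 0 := by
        by_contra hD
        refine hc (hG.coeff_eq_zero (d := 0) ?_)
        rw [map_zero]
        exact fun h => hD h.symm
      rw [h2] at hG
      have h3 : G = MvPolynomial.C (MvPolynomial.coeff 0 G) :=
        MvPolynomial.totalDegree_eq_zero_iff_eq_C.mp (by
          have := hG.totalDegree hG0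
          exact this)
      rw [h3, MvPolynomial.aeval_C] at hGy
      exact hc ((map_eq_zero _).mp hGy)
    set t : K := (c k)⁻¹ • y k with ht
    have htk : c k • t = y k := by rw [ht, smul_inv_smul₀ hk]
    set y' : Fin r → K := fun i => y (k.succAbove i) - c (k.succAbove i) • t with hy'
    have htR : t ∈ R := R.smul_mem (hy k).1 _
    have htζ : ζ t = (((N : ℝ)) : ℂ) • t := by
      rw [ht, Derivation.map_smul, (hy k).2, smul_comm]
    obtain ⟨d, z, hz, hzi, hint⟩ := ih y' (fun i => ⟨R.sub_mem (hy _).1 (R.smul_mem htR _), by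
      rw [hy']
      simp only
      rw [map_sub, Derivation.map_smul, (hy _).2, htζ, smul_sub, smul_comm]⟩)
    have hts : t ∈ Submodule.span ℂ (Set.range y) :=
      Submodule.smul_mem _ _ (Submodule.subset_span ⟨k, rfl⟩)
    have hsp : Submodule.span ℂ (Set.range y') ≤ Submodule.span ℂ (Set.range y) := by
      rw [Submodule.span_le]
      rintro _ ⟨i, rfl⟩
      exact Submodule.sub_mem _ (Submodule.subset_span ⟨_, rfl⟩) (Submodule.smul_mem _ _ hts)
    refine ⟨d, z, fun i => hsp (hz i), hzi, ?_⟩
    have hyA : ∀ i : Fin (r + 1),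
        IsIntegral (Algebra.adjoin ℂ (Set.range z)) (y i - c i • t) := by
      intro i
      by_cases hik : i = k
      · rw [hik, htk, sub_self]
        exact isIntegral_zero
      · obtain ⟨j, rfl⟩ := Fin.exists_succAbove_eq hik
        exact hint j
    have ht1 : IsIntegral (integralClosure (Algebra.adjoin ℂ (Set.range z)) K) t := by
      refine N1.integral_step (A := integralClosure (Algebra.adjoin ℂ (Set.range z)) K)
        (fun i => ⟨y i - c i • t, hyA i⟩) c hG hc t ?_
      rw [← hGy]
      congr 2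
      funext i
      change (y i - c i • t) + algebraMap ℂ K (c i) * t = y i
      rw [← Algebra.smul_def, sub_add_cancel]
    have ht2 : IsIntegral (Algebra.adjoin ℂ (Set.range z)) t := isIntegral_trans t ht1
    intro i
    have h5 : y i = (y i - c i • t) + algebraMap (Algebra.adjoin ℂ (Set.range z)) K
        (algebraMap ℂ _ (c i)) * t := by
      rw [← IsScalarTower.algebraMap_apply, ← Algebra.smul_def, sub_add_cancel]
    rw [h5]
    exact (hyA i).add (isIntegral_algebraMap.mul ht2)

theorem exists_noether {R : Subalgebra ℂ K} {ζ : Derivation ℂ K K} (h : NCone R ζ) :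
    ∃ (d N : ℕ) (z : Fin d → K), 0 < N ∧
      (∀ i, z i ∈ R ∧ ζ (z i) = (((N : ℝ)) : ℂ) • z i) ∧ AlgebraicIndependent ℂ z ∧
        ∀ x ∈ R, IsIntegral (Algebra.adjoin ℂ (Set.range z)) x := by
  classical
  obtain ⟨T, δ, hδ, hT, hR⟩ := h.toIsCone.exists_gens
  have hm : ∀ t : T, ∃ m : ℕ, 0 < m ∧ ζ (t : K) = (((m : ℝ)) : ℂ) • (t : K) := by
    intro t
    obtain ⟨h1, h2, c, h3, h4⟩ := hT t t.2
    obtain ⟨m, hm⟩ := h.int t h1 h2 c h4
    refine ⟨m, ?_, by rw [h4, hm]⟩
    have : (0 : ℝ) < m := by rw [← hm]; linarith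
    exact_mod_cast this
  choose m hm0 hm1 using hm
  set N : ℕ := ∏ t : T, m t with hNdef
  have hN : 0 < N := Finset.prod_pos fun t _ => hm0 t
  have hdiv : ∀ t : T, m t ∣ N := fun t => Finset.dvd_prod_of_mem _ (Finset.mem_univ t)
  have hq : ∀ t : T, 0 < N / m t := fun t => Nat.div_pos (Nat.le_of_dvd hN (hdiv t)) (hm0 t)
  set e := Fintype.equivFin T with he
  set y : Fin (Fintype.card T) → K := fun i => ((e.symm i : T) : K) ^ (N / m (e.symm i))
    with hydef
  have hy : ∀ i, y i ∈ R ∧ ζ (y i) = (((N : ℝ)) : ℂ) • y i := by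
    intro i
    refine ⟨R.pow_mem (hT _ (e.symm i).2).1 _, ?_⟩
    have h1 := N1.eig_pw (hm1 (e.symm i)) (N / m (e.symm i))
    rw [hydef]
    simp only
    rw [h1]
    congr 2
    have h2 : (N / m (e.symm i)) * m (e.symm i) = N := Nat.div_mul_cancel (hdiv _)
    exact_mod_cast h2
  obtain ⟨d, z, hz, hzi, hint⟩ := exists_lin h hN _ y hy
  have hzR : ∀ x ∈ Submodule.span ℂ (Set.range y), x ∈ R ∧ ζ x = (((N : ℝ)) : ℂ) • x := by
    intro x hx
    induction hx using Submodule.span_induction with
    | mem x hx => obtain ⟨i, rfl⟩ := hx; exact hy i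
    | zero => exact ⟨R.zero_mem, by rw [map_zero, smul_zero]⟩
    | add a b _ _ ha hb => exact ⟨R.add_mem ha.1 hb.1, by rw [map_add, ha.2, hb.2, smul_add]⟩
    | smul c a _ ha => exact ⟨R.smul_mem ha.1 c, by rw [Derivation.map_smul, ha.2, smul_comm]⟩
  refine ⟨d, N, z, hN, fun i => hzR _ (hz i), hzi, ?_⟩
  have hTi : ∀ t ∈ T, IsIntegral (Algebra.adjoin ℂ (Set.range z)) (t : K) := by
    intro t ht
    have h1 := hint (e ⟨t, ht⟩)
    rw [hydef] at h1
    simp only [Equiv.symm_apply_apply] at h1
    exact IsIntegral.of_pow (hq _) h1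
  intro x hx
  rw [← hR] at hx
  have hle : Algebra.adjoin ℂ (T : Set K) ≤
      (integralClosure (Algebra.adjoin ℂ (Set.range z)) K).restrictScalars ℂ :=
    Algebra.adjoin_le fun t ht => hTi t ht
  exact hle hx

end Pool.Agent.Helper20.TS
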