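import Pool.Agent.Helper20.TS.L4

/-!
# TS-L5: traces of regular 1-forms are regular (for `R` over `ℂ[z]`)

Plan: apply `tr_int` with `A = Algebra.adjoin ℂ (Set.range z)` (factorial and Noetherian, being
isomorphic to a polynomial ring, AlgebraicIndependent.aevalEquiv) and
`F = IntermediateField.adjoin ℂ (Set.range z)` (scoped instance
IntermediateField.algebraAdjoinAdjoin... in FieldTheory/IntermediateField/Adjoin/Algebra).
`x ∈ R` if and only if `x` is integral over `A` (`Normal R`, `hint`, `A ≤ R`).  `K` is finite over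
`F`: it is generated by the finitely many generators of `R`, which are integral over `A`.
-/

set_option autoImplicit false

namespace Pool.Agent.Helper20.TS

open Module Pool.Agent.Helper37.SD

variable {K : Type} [Field K] [Algebra ℂ K]

theorem isIntegral_mono_sub {A B : Subalgebra ℂ K} (h : A ≤ B) {x : K} (hx : IsIntegral A x) :
    IsIntegral B x := by
  have h1 := IsIntegral.map_of_comp_eq (Subalgebra.inclusion h).toRingHom (RingHom.id K)
    (by ext; rfl) hx
  simpa using h1

open scoped IntermediateField.algebraAdjoinAdjoin in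
theorem finite_Fz {d : ℕ} {R : Subalgebra ℂ K} (hfrac : IsFrac R) (hfg : R.FG) (z : Fin d → K)
    (hint : ∀ x ∈ R, IsIntegral (Algebra.adjoin ℂ (Set.range z)) x) :
    FiniteDimensional (Fz z) K := by
  obtain ⟨S, hS⟩ := hfg
  have hSR : ∀ s ∈ S, s ∈ R := fun s hs => hS ▸ Algebra.subset_adjoin (by exact_mod_cast hs)
  have hint' : ∀ x ∈ (S : Set K), IsIntegral (Fz z) x := fun x hx =>
    (hint x (hSR x (by exact_mod_cast hx))).tower_top
  have h1 : FiniteDimensional (Fz z) (IntermediateField.adjoin (Fz z) (S : Set K)) :=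
    IntermediateField.finiteDimensional_adjoin hint'
  have h2 : IntermediateField.adjoin (Fz z) (S : Set K) = ⊤ := by
    rw [eq_top_iff]
    intro x _
    have h3 : ∀ y ∈ R, y ∈ IntermediateField.adjoin (Fz z) (S : Set K) := by
      intro y hy
      have h4 : R ≤ ((IntermediateField.adjoin (Fz z) (S : Set K)).toSubalgebra).restrictScalars
          ℂ := by
        rw [← hS]
        exact Algebra.adjoin_le (IntermediateField.subset_adjoin (Fz z) (S : Set K))
      exact h4 hy
    obtain ⟨a, ha, b, hb, _, rfl⟩ := hfrac x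
    exact div_mem (h3 a ha) (h3 b hb)
  rw [h2] at h1
  exact Module.Finite.equiv (IntermediateField.topEquiv (F := Fz z) (E := K)).toLinearEquiv

open scoped IntermediateField.algebraAdjoinAdjoin in
theorem trz_reg {d : ℕ} {R : Subalgebra ℂ K} (hfrac : IsFrac R) (hfg : R.FG) (hnorm : Normal R)
    (z : Fin d → K) (hz : ∀ i, z i ∈ R) (hind : AlgebraicIndependent ℂ z)
    (hint : ∀ x ∈ R, IsIntegral (Algebra.adjoin ℂ (Set.range z)) x) (D : Derivation ℂ K K)
    (hD : ∀ p ∈ Algebra.adjoin ℂ (Set.range z), D p ∈ Algebra.adjoin ℂ (Set.range z))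
    (α : Derivation ℂ K K →ₗ[K] K) (hα : ∀ E, Pres R E → α E ∈ R) :
    trz z (α D) ∈ Algebra.adjoin ℂ (Set.range z) := by
  haveI := finite_Fz hfrac hfg z hint
  haveI : UniqueFactorizationMonoid (Algebra.adjoin ℂ (Set.range z)) :=
    hind.aevalEquiv.toMulEquiv.uniqueFactorizationMonoid inferInstance
  haveI : IsNoetherianRing (Algebra.adjoin ℂ (Set.range z)) :=
    isNoetherianRing_of_ringEquiv (MvPolynomial (Fin d) ℂ) hind.aevalEquiv.toRingEquiv
  have hAR : Algebra.adjoin ℂ (Set.range z) ≤ R := by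
    refine Algebra.adjoin_le ?_
    rintro _ ⟨i, rfl⟩
    exact hz i
  have hiff : ∀ x : K, IsIntegral (Algebra.adjoin ℂ (Set.range z)) x ↔ x ∈ R := fun x =>
    ⟨fun hx => hnorm x (isIntegral_mono_sub hAR hx), hint x⟩
  obtain ⟨a, ha⟩ := tr_int (A := Algebra.adjoin ℂ (Set.range z)) (F := Fz z) (K := K) D
    (fun a => ⟨⟨D (a : K), hD _ a.2⟩, rfl⟩) α
    (fun E hE => (hiff _).mpr (hα E fun x hx => (hiff _).mp (hE x ((hiff _).mpr hx))))
  rw [trz, ha]
  exact a.2

end Pool.Agent.Helper20.TS
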