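import Pool.Agent.Helper20.TS.Df

/-!
# TS-NB1: the basis `e` of `K` over `ℂ(z)`
-/

set_option autoImplicit false

namespace Pool.Agent.Helper20.TS

open Module Pool.Agent.Helper37.SD

variable {K : Type} [Field K] [Algebra ℂ K] {R : Subalgebra ℂ K} {ζ : Derivation ℂ K K}
  {d N r : ℕ} {z : Fin d → K} {e : Fin r → K} {ε : Fin r → ℕ}

lemma aeval_mem_Fz (z : Fin d → K) (p : MvPolynomial (Fin d) ℂ) : MvPolynomial.aeval z p ∈ Fz z := by
  have h1 : MvPolynomial.aeval z p ∈ Algebra.adjoin ℂ (Set.range z) := by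
    rw [Algebra.adjoin_range_eq_range_aeval]
    exact ⟨p, rfl⟩
  exact IntermediateField.algebra_adjoin_le_adjoin ℂ _ h1

lemma exists_den (z : Fin d → K) (g : Fz z) :
    ∃ s ∈ Algebra.adjoin ℂ (Set.range z), s ≠ 0 ∧ s * (g : K) ∈ Algebra.adjoin ℂ (Set.range z) := by
  obtain ⟨a, ha, b, hb, h⟩ := (IntermediateField.mem_adjoin_iff_div).1 g.2
  by_cases hb0 : b = 0
  · refine ⟨1, one_mem _, one_ne_zero, ?_⟩
    rw [h, hb0, div_zero, mul_zero]
    exact zero_mem _
  · refine ⟨b, hb, hb0, ?_⟩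
    rw [h, mul_div_cancel₀ _ hb0]
    exact ha

lemma NB.linInd (hb : NB R ζ d N r z e ε) : LinearIndependent (Fz z) e := by
  classical
  rw [Fintype.linearIndependent_iff]
  intro g hg
  choose s hs hs0 hsg using fun l => exists_den z (g l)
  set P : K := ∏ l, s l with hP
  have hP0 : P ≠ 0 := Finset.prod_ne_zero_iff.2 fun l _ => hs0 l
  have h1 : ∀ l, P * (g l : K) ∈ Algebra.adjoin ℂ (Set.range z) := by
    intro l
    have h2 : P = (∏ m ∈ Finset.univ.erase l, s m) * s l := by
      rw [hP]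
      exact (Finset.prod_erase_mul _ _ (Finset.mem_univ l)).symm
    rw [h2, mul_assoc]
    exact mul_mem (Subalgebra.prod_mem _ fun m _ => hs m) (hsg l)
  have h3 : ∀ l, ∃ p : MvPolynomial (Fin d) ℂ, MvPolynomial.aeval z p = P * (g l : K) := by
    intro l
    have h4 := h1 l
    rw [Algebra.adjoin_range_eq_range_aeval] at h4
    exact h4
  choose p hp using h3
  have h5 : (0 : K) = ∑ l, MvPolynomial.aeval z (p l) * e l := by
    have h6 : ∑ l, MvPolynomial.aeval z (p l) * e l = P * ∑ l, g l • e l := by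
      rw [Finset.mul_sum]
      refine Finset.sum_congr rfl fun l _ => ?_
      rw [hp, IntermediateField.smul_def, smul_eq_mul, mul_assoc]
    rw [h6, hg, mul_zero]
  have h7 : (0 : K) = ∑ l, MvPolynomial.aeval z ((0 : Fin r → MvPolynomial (Fin d) ℂ) l) * e l := by
    simp
  obtain ⟨q, _, hq⟩ := hb.basis 0 (zero_mem _)
  have h8 : p = 0 := (hq p h5).trans (hq 0 h7).symm
  intro l
  have h9 : P * (g l : K) = 0 := by
    rw [← hp, h8]
    simp
  have h10 : (g l : K) = 0 := (mul_eq_zero.1 h9).resolve_left hP0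
  exact Subtype.ext h10

lemma NB.span (hb : NB R ζ d N r z e ε) (hfrac : IsFrac R) :
    Submodule.span (Fz z) (Set.range e) = ⊤ := by
  have hR : ∀ x ∈ R, x ∈ Submodule.span (Fz z) (Set.range e) := by
    intro x hx
    obtain ⟨p, hp, _⟩ := hb.basis x hx
    rw [hp]
    refine Submodule.sum_mem _ fun l _ => ?_
    have h1 : MvPolynomial.aeval z (p l) * e l = (⟨_, aeval_mem_Fz z (p l)⟩ : Fz z) • e l := by
      rw [IntermediateField.smul_def, smul_eq_mul]
    rw [h1]
    exact Submodule.smul_mem _ _ (Submodule.subset_span ⟨l, rfl⟩)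
  set W : Subalgebra (Fz z) K := Algebra.adjoin (Fz z) (R : Set K) with hW
  have hWle : Subalgebra.toSubmodule W ≤ Submodule.span (Fz z) (Set.range e) := by
    rw [hW, Algebra.adjoin_eq_span, Submodule.span_le]
    have hcl : (Submonoid.closure (R : Set K) : Set K) = R := by
      have : Submonoid.closure ((R.toSubmonoid : Submonoid K) : Set K) = R.toSubmonoid :=
        Submonoid.closure_eq _
      exact congrArg (fun S : Submonoid K => (S : Set K)) this
    rw [hcl]
    exact fun x hx => hR x hx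
  have hfinS : FiniteDimensional (Fz z) (Submodule.span (Fz z) (Set.range e)) :=
    FiniteDimensional.span_of_finite _ (Set.finite_range e)
  have hfinW : FiniteDimensional (Fz z) W :=
    Submodule.finiteDimensional_of_le (S₁ := Subalgebra.toSubmodule W) hWle
  rw [eq_top_iff]
  intro x _
  obtain ⟨a, ha, b, hb', hb0, hx⟩ := hfrac x
  have haW : a ∈ W := Algebra.subset_adjoin ha
  have hbW : b ∈ W := Algebra.subset_adjoin hb'
  have halg : IsAlgebraic (Fz z) b := by
    have h2 : IsIntegral (Fz z) (⟨b, hbW⟩ : W) := Algebra.IsIntegral.isIntegral _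
    have h3 : IsIntegral (Fz z) b := (isIntegral_algHom_iff W.val Subtype.val_injective).2 h2
    exact h3.isAlgebraic
  have hinv : b⁻¹ ∈ W := Subalgebra.inv_mem_of_algebraic W (x := ⟨b, hbW⟩) halg
  rw [hx, div_eq_mul_inv]
  exact hWle (W.mul_mem haW hinv)

/-- `e` as a basis of `K` over `ℂ(z)` -/
noncomputable def NB.bas (hb : NB R ζ d N r z e ε) (hfrac : IsFrac R) : Basis (Fin r) (Fz z) K :=
  Basis.mk hb.linInd (hb.span hfrac).ge

lemma NB.bas_apply (hb : NB R ζ d N r z e ε) (hfrac : IsFrac R) (l : Fin r) : hb.bas hfrac l = e l := by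
  unfold NB.bas
  rw [Basis.mk_apply]

theorem NB.rank (hb : NB R ζ d N r z e ε) (hfrac : IsFrac R) (_hfg : R.FG) :
    FiniteDimensional (Fz z) K ∧ finrank (Fz z) K = r := by
  refine ⟨(hb.bas hfrac).finiteDimensional_of_finite, ?_⟩
  rw [finrank_eq_card_basis (hb.bas hfrac), Fintype.card_fin]

theorem NB.trz_eq (hb : NB R ζ d N r z e ε) (hfrac : IsFrac R) (_hfg : R.FG) (x : K)
    (p : Fin r → Fin r → MvPolynomial (Fin d) ℂ)
    (hp : ∀ l, x * e l = ∑ k, MvPolynomial.aeval z (p l k) * e k) :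
    trz z x = ∑ l, MvPolynomial.aeval z (p l l) := by
  classical
  unfold trz
  rw [Algebra.trace_eq_matrix_trace (hb.bas hfrac), Matrix.trace]
  have h1 : ∀ l, (Algebra.leftMulMatrix (hb.bas hfrac) x).diag l =
      (⟨_, aeval_mem_Fz z (p l l)⟩ : Fz z) := by
    intro l
    rw [Matrix.diag_apply, Algebra.leftMulMatrix_eq_repr_mul, hb.bas_apply hfrac, hp]
    have h2 : ∑ k, MvPolynomial.aeval z (p l k) * e k =
        ∑ k, (⟨_, aeval_mem_Fz z (p l k)⟩ : Fz z) • hb.bas hfrac k := by
      refine Finset.sum_congr rfl fun k _ => ?_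
      rw [hb.bas_apply hfrac, IntermediateField.smul_def, smul_eq_mul]
    rw [h2, Basis.repr_sum_self]
  rw [Finset.sum_congr rfl fun l _ => h1 l]
  rw [IntermediateField.coe_sum]

end Pool.Agent.Helper20.TS
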