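import Pool.Agent.Helper20.TS.Fr
import Pool.Agent.Helper20.TS.L5
import Pool.Agent.Helper20.TS.Nb1

/-!
# TS-NB: the trace of `K` over `ℂ(z)` in the basis `e`; constants

`NB.rank`: `e` is a basis of `K` over `Fz z` (`K = Frac R`, every element of `K` is `x / p` with
`x ∈ R`, `p ∈ ℂ[z]`).

`exists_const`: write `D i = z i ∂ i` for the frame.  `ζ = N ∑ j, D j` (same values at the `z i`),
`(J ζ) (z i) = N ∑ j, z j * ((∂ j) ↦ J)(z i)`, that is `∑ j, N z j * J_ij` with
`J_ij = (J ((z j)⁻¹ • D j)) (z i) = α_i (∂ j)`, `α_i E = (J E) (z i)` regular.  `trz_reg` gives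
`trz (J_ij) ∈ ℂ[z] ⊆ R`; `ζ (J_ij) = 0` (`J` commutes with `ζ`, `∂ j` has degree `-N`, `z i` has
degree `N`), so `ζ (trz J_ij) = 0` by `trz_der` and `trz J_ij` is a constant `t_ij`
(`IsCone.const`).  Take `c i j = N t_ij`; `∑ t_ii = trz (∑ J_ii) = trz t = r t` by `trace_frame`
and `NB.rank`.
-/

set_option autoImplicit false

namespace Pool.Agent.Helper20.TS

open Module Pool.Agent.Helper37.SD

variable {K : Type} [Field K] [Algebra ℂ K] {R : Subalgebra ℂ K} {ζ : Derivation ℂ K K}
  {d N r : ℕ} {z : Fin d → K} {e : Fin r → K} {ε : Fin r → ℕ}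

private theorem ec_inv (D : Derivation ℂ K K) {x : K} (hx : x ≠ 0) :
    D x⁻¹ = -(x⁻¹ * x⁻¹ * D x) := by
  have h := der_div D 1 x hx
  rw [one_div, Derivation.map_one_eq_zero, mul_zero, one_mul, zero_sub] at h
  rw [h]
  field_simp

private theorem ec_field (D : Derivation ℂ K K) (S : Set K)
    (hS : ∀ x ∈ S, D x ∈ IntermediateField.adjoin ℂ S) (x : K)
    (hx : x ∈ IntermediateField.adjoin ℂ S) : D x ∈ IntermediateField.adjoin ℂ S := by
  induction hx using IntermediateField.adjoin_induction with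
  | mem y hy => exact hS y hy
  | algebraMap c =>
    rw [Derivation.map_algebraMap]
    exact zero_mem _
  | add x y _ _ hx hy =>
    rw [map_add]
    exact add_mem hx hy
  | inv x hx' hx =>
    by_cases h0 : x = 0
    · rw [h0, inv_zero, map_zero]
      exact zero_mem _
    · rw [ec_inv D h0]
      exact neg_mem (mul_mem (mul_mem (inv_mem hx') (inv_mem hx')) hx)
  | mul x y hx' hy' hx hy =>
    rw [Derivation.leibniz, smul_eq_mul, smul_eq_mul]
    exact add_mem (mul_mem hx' hy) (mul_mem hy' hx)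

private theorem ec_alg (D : Derivation ℂ K K) (S : Set K)
    (hS : ∀ x ∈ S, D x ∈ Algebra.adjoin ℂ S) (x : K)
    (hx : x ∈ Algebra.adjoin ℂ S) : D x ∈ Algebra.adjoin ℂ S := by
  induction hx using Algebra.adjoin_induction with
  | mem y hy => exact hS y hy
  | algebraMap c =>
    rw [Derivation.map_algebraMap]
    exact zero_mem _
  | add x y _ _ hx hy =>
    rw [map_add]
    exact add_mem hx hy
  | mul x y hx' hy' hx hy =>
    rw [Derivation.leibniz, smul_eq_mul, smul_eq_mul]
    exact add_mem (mul_mem hx' hy) (mul_mem hy' hx)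

private theorem ec_trz_sum {ι : Type} (s : Finset ι) (f : ι → K) :
    trz z (∑ i ∈ s, f i) = ∑ i ∈ s, trz z (f i) := by
  rw [trz, map_sum]
  exact map_sum (Fz z).val _ _

private theorem ec_trz_mul (a x : K) (ha : a ∈ Fz z) : trz z (a * x) = a * trz z x := by
  have h1 : a * x = (⟨a, ha⟩ : Fz z) • x := rfl
  rw [trz, h1, map_smul, smul_eq_mul]
  rfl

private theorem ec_trz_const (hr : finrank (Fz z) K = r) (c : ℂ) :
    trz z (algebraMap ℂ K c) = algebraMap ℂ K ((r : ℂ) * c) := by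
  have h1 : algebraMap ℂ K c = algebraMap (Fz z) K (algebraMap ℂ (Fz z) c) := rfl
  rw [trz, h1, Algebra.trace_algebraMap, hr, map_mul, map_natCast, nsmul_eq_mul]
  rfl

theorem exists_const (h : NCone R ζ) (hnorm : Normal R) (hb : NB R ζ d N r z e ε)
    {D : Fin d → Derivation ℂ K K} (hD : IsFrame D z)
    (J : Derivation ℂ K K →ₗ[K] Derivation ℂ K K) (hJ : ∀ E, Pres R E → Pres R (J E))
    (hJζ : ∀ E, ⁅ζ, J E⁆ = J ⁅ζ, E⁆) {t : ℂ}
    (ht : LinearMap.trace K (Derivation ℂ K K) J = algebraMap ℂ K t) :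
    ∃ c : Fin d → Fin d → ℂ, (∀ i, trz z ((J ζ) (z i)) = ∑ j, c i j • z j) ∧
      ∑ i, c i i = N * r * t := by
  classical
  obtain ⟨hfin, hr⟩ := hb.rank h.frac h.fg
  have hzdeg : ∀ i, ζ (z i) = (N : K) * z i := by
    intro i
    rw [hb.zdeg i, Algebra.smul_def]
    congr 1
    simp
  have hzmem : ∀ i, z i ∈ Fz z := fun i => IntermediateField.subset_adjoin _ _ ⟨i, rfl⟩
  have hζF : ∀ x ∈ Fz z, ζ x ∈ Fz z := by
    refine ec_field ζ _ ?_
    rintro _ ⟨i, rfl⟩
    rw [hzdeg i]
    exact mul_mem (natCast_mem _ N) (hzmem i)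
  -- the fields `∂ j`
  obtain ⟨P, hPd⟩ : ∃ P : Fin d → Derivation ℂ K K, ∀ j, P j = (z j)⁻¹ • D j := ⟨_, fun j => rfl⟩
  have hPz : ∀ i j, P j (z i) = if j = i then 1 else 0 := by
    intro i j
    rw [hPd, Derivation.smul_apply, hD.apply, smul_eq_mul]
    by_cases hij : j = i
    · rw [if_pos hij, if_pos hij, hij, inv_mul_cancel₀ (hD.ne i)]
    · rw [if_neg hij, if_neg hij, mul_zero]
  have hDP : ∀ j, D j = z j • P j := by
    intro j
    rw [hPd, smul_smul, mul_inv_cancel₀ (hD.ne j), one_smul]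
  have hPA : ∀ j, ∀ p ∈ Algebra.adjoin ℂ (Set.range z), P j p ∈ Algebra.adjoin ℂ (Set.range z) := by
    intro j
    refine ec_alg (P j) _ ?_
    rintro _ ⟨i, rfl⟩
    rw [hPz]
    split_ifs
    · exact one_mem _
    · exact zero_mem _
  -- commutators
  have hcomm : ∀ j, ⁅ζ, P j⁆ = (-(N : K)) • P j := by
    intro j
    refine hD.ext fun i => ?_
    rw [Derivation.commutator_apply, hzdeg i, Derivation.smul_apply, Derivation.leibniz, hPz]
    have h1 : ζ (if j = i then (1 : K) else 0) = 0 := by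
      split_ifs
      · exact Derivation.map_one_eq_zero _
      · exact map_zero _
    rw [h1, Derivation.map_natCast, smul_zero, add_zero, zero_sub, smul_eq_mul, neg_smul,
      smul_eq_mul]
  have hJz : ∀ i j, ζ ((J (P j)) (z i)) = 0 := by
    intro i j
    have h1 : ⁅ζ, J (P j)⁆ (z i) = ζ ((J (P j)) (z i)) - (J (P j)) (ζ (z i)) :=
      Derivation.commutator_apply _
    rw [hJζ, hcomm, map_smul, Derivation.smul_apply, hzdeg i, Derivation.leibniz,
      Derivation.map_natCast] at h1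
    simp only [smul_eq_mul, mul_zero, add_zero] at h1
    have h2 := h1
    linear_combination -h2
  -- the constants
  have hconst : ∀ i j, ∃ c : ℂ, trz z ((J (P j)) (z i)) = algebraMap ℂ K c := by
    intro i j
    have h1 : trz z ((J (P j)) (z i)) ∈ Algebra.adjoin ℂ (Set.range z) :=
      trz_reg h.frac h.fg hnorm z hb.zR hb.ind hb.int (P j) (hPA j)
        ((evd (z i)).comp J) (fun E hE => hJ E hE (z i) (hb.zR i))
    have h2 : trz z ((J (P j)) (z i)) ∈ R := by
      refine (Algebra.adjoin_le ?_ : Algebra.adjoin ℂ (Set.range z) ≤ R) h1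
      rintro _ ⟨k, rfl⟩
      exact hb.zR k
    refine h.const _ h2 ?_
    rw [← trz_der hfin ζ hζF, hJz]
    rw [trz, map_zero]
    rfl
  choose c hc using hconst
  refine ⟨fun i j => (N : ℂ) * c i j, fun i => ?_, ?_⟩
  · have hζ : ζ = ∑ j, (N : K) • D j := by
      conv_lhs => rw [hD.complete ζ]
      refine Finset.sum_congr rfl fun j _ => ?_
      rw [hzdeg j, mul_div_assoc, div_self (hD.ne j), mul_one]
    have h1 : (J ζ) (z i) = ∑ j, ((N : K) * z j) * (J (P j)) (z i) := by
      conv_lhs => rw [hζ]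
      rw [map_sum, der_sum_apply]
      refine Finset.sum_congr rfl fun j _ => ?_
      rw [hDP j, smul_smul, map_smul, Derivation.smul_apply, smul_eq_mul]
    rw [h1, ec_trz_sum]
    refine Finset.sum_congr rfl fun j _ => ?_
    rw [ec_trz_mul _ _ (mul_mem (natCast_mem _ N) (hzmem j)), hc, Algebra.smul_def, map_mul,
      map_natCast]
    ring
  · have h1 : ∑ i, (J (P i)) (z i) = algebraMap ℂ K t := by
      rw [← ht, trace_frame hD J]
      refine Finset.sum_congr rfl fun i _ => ?_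
      rw [hPd, map_smul, Derivation.smul_apply, smul_eq_mul, div_eq_inv_mul]
    have h2 : algebraMap ℂ K (∑ i, c i i) = algebraMap ℂ K ((r : ℂ) * t) := by
      rw [← ec_trz_const hr, ← h1, ec_trz_sum, map_sum]
      exact Finset.sum_congr rfl fun i _ => (hc i i).symm
    have h3 : ∑ i, c i i = (r : ℂ) * t := (algebraMap ℂ K).injective h2
    show ∑ i, (N : ℂ) * c i i = N * r * t
    rw [← Finset.mul_sum, h3, mul_assoc]

end Pool.Agent.Helper20.TS
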