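import Pool.Agent.Helper20.TS.A1a

/-!
# TS-A1: the exact trace formula on a cone with integral degrees

`exists_qbasis`: the classes of the `z ^ α e_l` with `N |α| + ε_l < m` form a basis of
`R / {w ≥ m}`, with coordinate functions the coefficients.  (`{w ≥ m}` is spanned by the
`z ^ α e_l` with `N |α| + ε_l ≥ m`: `IsWt`, uniqueness of homogeneous components
`IsDec.unique`.)  `a i` and `l i` are the exponent and the index of the `i`-th basis vector.

`finrank_eq`, `qTr_eq`: the number of `i` with `l i = l` and `|a i| = j` is the number of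
`α : Fin d → ℕ` of sum `j`.  Diagonal entry of `Y` at `z ^ α e_l`: write
`Y (z i) e_l = ∑ k, aeval z (q i l k) e_k` and `Y (e_l) = ∑ k, aeval z (b l k) e_k` with
homogeneous `q i l l` of degree `1` (weight `N`) and constant `b l l`.  From
`Y (z ^ α e_l) = ∑ i, α_i z ^ (α - 1_i) Y (z i) e_l + z ^ α Y (e_l)` the diagonal entry is
`∑ i, α_i q i l l [z i] + b l l`.  Put `s l = ∑ i, q i l l [z i]`, `y l = b l l`; by symmetry
`∑ α, α_i = (1 / d) ∑ α, |α|`.  `∑ l, q i l l [z i] = c i i` by `NB.trz_eq`.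
-/

set_option autoImplicit false

namespace Pool.Agent.Helper20.TS

open Module Pool.Agent.Helper37.SD

variable {K : Type} [Field K] [Algebra ℂ K] {R : Subalgebra ℂ K} {ζ : Derivation ℂ K K}
  {d N r : ℕ} {z : Fin d → K} {e : Fin r → K} {ε : Fin r → ℕ}

/-- the exponents of sum `< k` -/
private def A1_S (d k : ℕ) : Finset (Fin d → ℕ) :=
  (Finset.range k).biUnion fun j => Finset.Nat.antidiagonalTuple d j

private theorem A1_mem {d k : ℕ} {α : Fin d → ℕ} : α ∈ A1_S d k ↔ ∑ i, α i < k := by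
  unfold A1_S
  rw [Finset.mem_biUnion]
  constructor
  · rintro ⟨j, hj, h⟩
    rw [Finset.Nat.mem_antidiagonalTuple] at h
    rw [h]
    exact Finset.mem_range.mp hj
  · intro h
    exact ⟨_, Finset.mem_range.mpr h, Finset.Nat.mem_antidiagonalTuple.mpr rfl⟩

private theorem A1_sum {M : Type} [AddCommMonoid M] (d k : ℕ) (f : (Fin d → ℕ) → M) :
    ∑ α ∈ A1_S d k, f α = ∑ j ∈ Finset.range k, ∑ α ∈ Finset.Nat.antidiagonalTuple d j, f α := by
  unfold A1_S
  rw [Finset.sum_biUnion]
  intro j _ j' _ hjj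
  rw [Function.onFun, Finset.disjoint_left]
  intro α h1 h2
  rw [Finset.Nat.mem_antidiagonalTuple] at h1 h2
  exact hjj (h1.symm.trans h2)

private theorem A1_card (d k : ℕ) : (A1_S d k).card = Cn d k := by
  rw [Finset.card_eq_sum_ones, A1_sum, Cn]
  exact Finset.sum_congr rfl fun j _ => (Finset.card_eq_sum_ones _).symm

private theorem A1_symm (d j : ℕ) (i i' : Fin d) :
    ∑ α ∈ Finset.Nat.antidiagonalTuple d j, (α i : ℂ) =
      ∑ α ∈ Finset.Nat.antidiagonalTuple d j, (α i' : ℂ) := by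
  refine Finset.sum_nbij' (fun α => α ∘ Equiv.swap i i') (fun α => α ∘ Equiv.swap i i')
    ?_ ?_ ?_ ?_ ?_
  · intro α hα
    rw [Finset.Nat.mem_antidiagonalTuple] at hα ⊢
    rw [← hα]
    exact Equiv.sum_comp (Equiv.swap i i') α
  · intro α hα
    rw [Finset.Nat.mem_antidiagonalTuple] at hα ⊢
    rw [← hα]
    exact Equiv.sum_comp (Equiv.swap i i') α
  · intro α _
    funext x
    simp
  · intro α _
    funext x
    simp
  · intro α _
    simp

private theorem A1_sumi {d : ℕ} (hd : 0 < d) (k : ℕ) (i : Fin d) :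
    ∑ α ∈ A1_S d k, (α i : ℂ) = (Sg d k : ℂ) / d := by
  have hd0 : (d : ℂ) ≠ 0 := Nat.cast_ne_zero.mpr hd.ne'
  rw [A1_sum, eq_div_iff hd0, Finset.sum_mul, Sg, Nat.cast_sum]
  refine Finset.sum_congr rfl fun j _ => ?_
  have h1 : ∑ i' : Fin d, ∑ α ∈ Finset.Nat.antidiagonalTuple d j, (α i' : ℂ) =
      (∑ α ∈ Finset.Nat.antidiagonalTuple d j, (α i : ℂ)) * d := by
    rw [Finset.sum_congr rfl fun i' _ => A1_symm d j i' i, Finset.sum_const, Finset.card_univ,
      Fintype.card_fin, nsmul_eq_mul, mul_comm]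
  rw [← h1, Finset.sum_comm]
  have h2 : ∀ α ∈ Finset.Nat.antidiagonalTuple d j, ∑ i' : Fin d, (α i' : ℂ) = (j : ℂ) := by
    intro α hα
    rw [Finset.Nat.mem_antidiagonalTuple] at hα
    rw [← hα, Nat.cast_sum]
  rw [Finset.sum_congr rfl h2, Finset.sum_const, nsmul_eq_mul, mul_comm]
  push_cast
  rfl

/-- sums over the index set of the basis -/
private theorem A1_index {d r N : ℕ} (hN : 0 < N) {ε : Fin r → ℕ} {m : ℝ} {ι : Type} [Fintype ι]
    (a : ι → (Fin d →₀ ℕ)) (l : ι → Fin r) (h1 : ∀ i j, a i = a j → l i = l j → i = j)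
    (h2 : ∀ (α : Fin d →₀ ℕ) (k : Fin r), (∃ i, a i = α ∧ l i = k) ↔
        (N : ℝ) * (α.degree : ℝ) + ε k < m) {M : Type} [AddCommMonoid M]
    (F : (Fin d → ℕ) → Fin r → M) :
    ∑ i, F (⇑(a i)) (l i) = ∑ k, ∑ α ∈ A1_S d ⌈(m - ε k) / N⌉₊, F α k := by
  have hN' : (0 : ℝ) < N := Nat.cast_pos.mpr hN
  have hdeg : ∀ α : Fin d →₀ ℕ, α.degree = ∑ i, α i := by
    intro α
    rw [Finsupp.degree_eq_sum]
  have h3 : ∀ (α : Fin d →₀ ℕ) (k : Fin r), ((N : ℝ) * (α.degree : ℝ) + ε k < m ↔
      (⇑α : Fin d → ℕ) ∈ A1_S d ⌈(m - ε k) / N⌉₊) := by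
    intro α k
    rw [A1_mem, ← hdeg, Nat.lt_ceil, lt_div_iff₀ hN', lt_sub_iff_add_lt, mul_comm]
  have e : ∑ k, ∑ α ∈ A1_S d ⌈(m - ε k) / N⌉₊, F α k =
      ∑ x ∈ Finset.univ.sigma (fun k => A1_S d ⌈(m - ε k) / N⌉₊), F x.2 x.1 := by
    rw [Finset.sum_sigma]
  rw [e]
  refine Finset.sum_bij (fun i _ => (⟨l i, ⇑(a i)⟩ : Σ _ : Fin r, (Fin d → ℕ))) ?_ ?_ ?_ ?_
  · intro i _
    rw [Finset.mem_sigma]
    exact ⟨Finset.mem_univ _, (h3 _ _).mp ((h2 _ _).mp ⟨i, rfl, rfl⟩)⟩
  · intro i _ j _ hij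
    rw [Sigma.mk.injEq] at hij
    exact h1 i j (DFunLike.coe_injective (eq_of_heq hij.2)) hij.1
  · rintro ⟨k, α⟩ hx
    rw [Finset.mem_sigma] at hx
    have h4 := (h2 (Finsupp.equivFunOnFinite.symm α) k).mpr ((h3 _ _).mpr (by
      simpa using hx.2))
    obtain ⟨i, hi1, hi2⟩ := h4
    refine ⟨i, Finset.mem_univ _, ?_⟩
    rw [hi1, hi2]
    simp
  · intro i _
    rfl

/-- `Y` acts on the truncations -/
private theorem A1_exT {w : RVal K} (hw : IsWt R ζ w) {Y : Derivation ℂ K K}
    (hY : Pres R Y) (hY0 : ⁅ζ, Y⁆ = 0) (m : ℝ) :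
    ∃ T : (R ⧸ idl R w m) →ₗ[ℂ] (R ⧸ idl R w m), ∀ x y : R, (y : K) = Y (x : K) →
      T (Submodule.Quotient.mk x) = Submodule.Quotient.mk y := by
  let YR : R →ₗ[ℂ] R :=
    { toFun := fun x => ⟨Y (x : K), hY x x.2⟩
      map_add' := fun x y => Subtype.ext (map_add Y (x : K) (y : K))
      map_smul' := fun z x => Subtype.ext (Derivation.map_smul Y z (x : K)) }
  have hcomm : ∀ x : K, ζ (Y x) = Y (ζ x) := by
    intro x
    have h1 := congrArg (fun D : Derivation ℂ K K => D x) hY0
    simp only [Derivation.commutator_apply, Derivation.coe_zero, Pi.zero_apply] at h1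
    exact sub_eq_zero.mp h1
  have hRH : ∀ x ∈ RH R ζ (fun b => m ≤ b), Y x ∈ RH R ζ (fun b => m ≤ b) := by
    intro x hx
    have h1 : RH R ζ (fun b => m ≤ b) ≤
        (RH R ζ (fun b => m ≤ b)).comap (Y : K →ₗ[ℂ] K) := by
      refine Submodule.span_le.mpr ?_
      rintro y ⟨hyR, c, hc, hyc⟩
      refine mem_hsp (hY y hyR) hc ?_
      show ζ (Y y) = (c : ℂ) • Y y
      have h2 : ζ y = (c : ℂ) • y := hyc
      rw [hcomm, h2, Derivation.map_smul]
    exact h1 hx
  have hle : idl R w m ≤ (idl R w m).comap YR := by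
    intro x hx
    show w.Ge m (Y (x : K))
    by_cases hy0 : Y (x : K) = 0
    · exact Or.inl hy0
    · refine Or.inr ((hw _ (hY _ x.2) hy0 m).mpr (hRH _ ?_))
      have hx0 : (x : K) ≠ 0 := by
        intro h0
        rw [h0, map_zero] at hy0
        exact hy0 rfl
      have h3 : w.Ge m (x : K) := hx
      exact (hw _ x.2 hx0 m).mp (h3.resolve_left hx0)
  refine ⟨Submodule.mapQ _ _ YR hle, fun x y hxy => ?_⟩
  have e : y = YR x := Subtype.ext hxy
  rw [e, Submodule.mapQ_apply]

theorem finrank_eq (h : NCone R ζ) {w : RVal K} (hw : IsWt R ζ w) (hb : NB R ζ d N r z e ε)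
    (m : ℝ) : finrank ℂ (R ⧸ idl R w m) = ∑ l, Cn d ⌈(m - ε l) / N⌉₊ := by
  obtain ⟨ι, hι, a, l, b, h1, h2, _⟩ := exists_qbasis h hw hb m
  rw [finrank_eq_card_basis b, Fintype.card_eq_sum_ones]
  have h3 := A1_index hb.pos a l h1 h2 (fun _ _ => (1 : ℕ))
  rw [h3]
  refine Finset.sum_congr rfl fun k _ => ?_
  rw [← Finset.card_eq_sum_ones, A1_card]

theorem qTr_eq (h : NCone R ζ) {w : RVal K} (hw : IsWt R ζ w) (hb : NB R ζ d N r z e ε)
    (hd : 0 < d) {Y : Derivation ℂ K K} (hY : Pres R Y) (hY0 : ⁅ζ, Y⁆ = 0)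
    {c : Fin d → Fin d → ℂ} (hc : ∀ i, trz z (Y (z i)) = ∑ j, c i j • z j) :
    ∃ s y : Fin r → ℂ, ∑ l, s l = ∑ i, c i i ∧ ∀ m : ℝ,
      qTr R w Y m = ∑ l, (s l / d * (Sg d ⌈(m - ε l) / N⌉₊ : ℂ) +
        y l * (Cn d ⌈(m - ε l) / N⌉₊ : ℂ)) := by
  classical
  have hq : ∀ i l, ∃ p : Fin r → MvPolynomial (Fin d) ℂ,
      Y (z i) * e l = ∑ k, MvPolynomial.aeval z (p k) * e k := fun i l =>
    (hb.basis _ (R.mul_mem (hY _ (hb.zR i)) (hb.eR l))).exists
  choose q hq using hq
  have hbb : ∀ l, ∃ p : Fin r → MvPolynomial (Fin d) ℂ,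
      Y (e l) = ∑ k, MvPolynomial.aeval z (p k) * e k := fun l =>
    (hb.basis _ (hY _ (hb.eR l))).exists
  choose β hβ using hbb
  refine ⟨fun l => ∑ i, MvPolynomial.coeff (Finsupp.single i 1) (q i l l),
    fun l => MvPolynomial.coeff 0 (β l l), ?_, fun m => ?_⟩
  · rw [Finset.sum_comm]
    refine Finset.sum_congr rfl fun i _ => ?_
    have h1 := hb.trz_eq h.frac h.fg (Y (z i)) (q i) (hq i)
    rw [hc i] at h1
    have h2 : MvPolynomial.aeval z (∑ l, q i l l) =
        MvPolynomial.aeval z (∑ j, MvPolynomial.C (c i j) * MvPolynomial.X j) := by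
      rw [map_sum, ← h1, map_sum]
      refine Finset.sum_congr rfl fun j _ => ?_
      rw [map_mul, MvPolynomial.aeval_C, MvPolynomial.aeval_X, Algebra.smul_def]
    have h3 := hb.ind h2
    have h4 := congrArg (MvPolynomial.coeff (Finsupp.single i 1)) h3
    rw [MvPolynomial.coeff_sum, MvPolynomial.coeff_sum] at h4
    rw [h4, Finset.sum_eq_single i]
    · rw [MvPolynomial.coeff_C_mul, MvPolynomial.coeff_X, if_pos rfl, mul_one]
    · intro j _ hji
      rw [MvPolynomial.coeff_C_mul, MvPolynomial.coeff_X, if_neg, mul_zero]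
      intro h5
      exact hji ((Finsupp.single_left_injective one_ne_zero) h5)
    · intro h5
      exact absurd (Finset.mem_univ i) h5
  · obtain ⟨ι, hι, a, l, b, h1, h2, h3⟩ := exists_qbasis h hw hb m
    have hex := A1_exT hw hY hY0 m
    -- products of the parameters
    have hmR : ∀ α : Fin d →₀ ℕ, MvPolynomial.aeval z (MvPolynomial.monomial α (1 : ℂ)) ∈ R := by
      intro α
      rw [MvPolynomial.aeval_monomial, map_one, one_mul]
      exact R.prod_mem fun i _ => R.pow_mem (hb.zR i) _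
    let B : ι → R := fun i => ⟨MvPolynomial.aeval z (MvPolynomial.monomial (a i) (1 : ℂ)) * e (l i),
      R.mul_mem (hmR _) (hb.eR _)⟩
    have hB : ∀ i, b i = Submodule.Quotient.mk (B i) := by
      intro i
      apply b.repr.injective
      rw [Basis.repr_self]
      ext j
      have h4 := h3 (B i) (Pi.single (l i) (MvPolynomial.monomial (a i) (1 : ℂ))) (by
        show MvPolynomial.aeval z (MvPolynomial.monomial (a i) (1 : ℂ)) * e (l i) = _
        rw [Finset.sum_eq_single (l i)]
        · rw [Pi.single_eq_same]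
        · intro k _ hk
          rw [Pi.single_eq_of_ne hk, map_zero, zero_mul]
        · intro h5
          exact absurd (Finset.mem_univ _) h5) j
      rw [h4]
      by_cases hij : i = j
      · subst hij
        rw [Finsupp.single_eq_same, Pi.single_eq_same, MvPolynomial.coeff_monomial, if_pos rfl]
      · rw [Finsupp.single_eq_of_ne (Ne.symm hij)]
        by_cases hl : l j = l i
        · rw [hl, Pi.single_eq_same, MvPolynomial.coeff_monomial, if_neg]
          intro ha
          exact hij (h1 i j ha hl.symm)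
        · rw [Pi.single_eq_of_ne hl, MvPolynomial.coeff_zero]
    -- the image of a basis vector
    let P : ι → Fin r → MvPolynomial (Fin d) ℂ := fun i k =>
      MvPolynomial.monomial (a i) (1 : ℂ) * β (l i) k +
        ∑ j, MvPolynomial.pderiv j (MvPolynomial.monomial (a i) (1 : ℂ)) * q j (l i) k
    have hYz : ∀ p : MvPolynomial (Fin d) ℂ, Y (MvPolynomial.aeval z p) =
        ∑ j, MvPolynomial.aeval z (MvPolynomial.pderiv j p) * Y (z j) := by
      intro p
      induction p using MvPolynomial.induction_on with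
      | C x =>
        rw [MvPolynomial.aeval_C, Derivation.map_algebraMap]
        simp
      | add p p' hp hp' =>
        rw [map_add, map_add, hp, hp', ← Finset.sum_add_distrib]
        refine Finset.sum_congr rfl fun j _ => ?_
        rw [map_add, map_add, add_mul]
      | mul_X p i hp =>
        rw [map_mul, Derivation.leibniz, hp, MvPolynomial.aeval_X, smul_eq_mul, smul_eq_mul,
          Finset.mul_sum]
        have e1 : ∀ j, MvPolynomial.aeval z (MvPolynomial.pderiv j (p * MvPolynomial.X i)) *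
            Y (z j) = (if i = j then MvPolynomial.aeval z p * Y (z i) else 0) +
              z i * (MvPolynomial.aeval z (MvPolynomial.pderiv j p) * Y (z j)) := by
          intro j
          rw [Derivation.leibniz, MvPolynomial.pderiv_X, smul_eq_mul, smul_eq_mul, map_add, map_mul,
            map_mul, MvPolynomial.aeval_X, add_mul]
          congr 1
          · by_cases hij : i = j
            · subst hij
              rw [if_pos rfl, Pi.single_eq_same, map_one, mul_one]
            · rw [if_neg hij, Pi.single_eq_of_ne hij, map_zero, mul_zero, zero_mul]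
          · ring
        rw [Finset.sum_congr rfl fun j _ => e1 j, Finset.sum_add_distrib, Finset.sum_ite_eq,
          if_pos (Finset.mem_univ _)]
    have hP : ∀ i, Y ((B i : R) : K) = ∑ k, MvPolynomial.aeval z (P i k) * e k := by
      intro i
      show Y (MvPolynomial.aeval z (MvPolynomial.monomial (a i) (1 : ℂ)) * e (l i)) = _
      rw [Derivation.leibniz, hYz, hβ, smul_eq_mul, smul_eq_mul, Finset.mul_sum, Finset.mul_sum]
      have e1 : ∀ j, e (l i) * (MvPolynomial.aeval z (MvPolynomial.pderiv j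
          (MvPolynomial.monomial (a i) (1 : ℂ))) * Y (z j)) =
            ∑ k, MvPolynomial.aeval z (MvPolynomial.pderiv j
              (MvPolynomial.monomial (a i) (1 : ℂ)) * q j (l i) k) * e k := by
        intro j
        rw [mul_comm, mul_assoc, hq, Finset.mul_sum]
        refine Finset.sum_congr rfl fun k _ => ?_
        rw [map_mul, mul_assoc]
      rw [Finset.sum_congr rfl fun j _ => e1 j, Finset.sum_comm, ← Finset.sum_add_distrib]
      refine Finset.sum_congr rfl fun k _ => ?_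
      show _ = MvPolynomial.aeval z (MvPolynomial.monomial (a i) (1 : ℂ) * β (l i) k +
        ∑ j, MvPolynomial.pderiv j (MvPolynomial.monomial (a i) (1 : ℂ)) * q j (l i) k) * e k
      rw [map_add, map_mul, map_sum, add_mul, Finset.sum_mul, mul_assoc]
    have hdiag : ∀ i, b.repr (hex.choose (b i)) i =
        (∑ j, ((a i j : ℕ) : ℂ) * MvPolynomial.coeff (Finsupp.single j 1) (q j (l i) (l i))) +
          MvPolynomial.coeff 0 (β (l i) (l i)) := by
      intro i
      rw [hB i, hex.choose_spec (B i) ⟨Y (B i : K), hY _ (B i).2⟩ rfl,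
        h3 ⟨Y (B i : K), hY _ (B i).2⟩ (P i) (hP i) i]
      show MvPolynomial.coeff (a i) (MvPolynomial.monomial (a i) (1 : ℂ) * β (l i) (l i) +
        ∑ j, MvPolynomial.pderiv j (MvPolynomial.monomial (a i) (1 : ℂ)) * q j (l i) (l i)) = _
      rw [MvPolynomial.coeff_add, MvPolynomial.coeff_sum, add_comm]
      congr 1
      · refine Finset.sum_congr rfl fun j _ => ?_
        rw [MvPolynomial.pderiv_monomial, one_mul]
        by_cases hj : a i j = 0
        · rw [hj]
          simp
        · have e2 : (a i - Finsupp.single j 1) + Finsupp.single j 1 = a i := by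
            rw [tsub_add_cancel_of_le]
            rw [Finsupp.single_le_iff]
            omega
          have e3 := MvPolynomial.coeff_monomial_mul (Finsupp.single j 1)
            (a i - Finsupp.single j 1) ((a i j : ℕ) : ℂ) (q j (l i) (l i))
          rw [e2] at e3
          exact e3
      · have e3 := MvPolynomial.coeff_monomial_mul 0 (a i) (1 : ℂ) (β (l i) (l i))
        rw [add_zero, one_mul] at e3
        exact e3
    rw [qTr, dif_pos hex, LinearMap.trace_eq_matrix_trace ℂ b, Matrix.trace]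
    simp only [Matrix.diag_apply, LinearMap.toMatrix_apply]
    rw [Finset.sum_congr rfl fun i _ => hdiag i]
    have h5 := A1_index hb.pos a l h1 h2 (fun α k => (∑ j, ((α j : ℕ) : ℂ) *
      MvPolynomial.coeff (Finsupp.single j 1) (q j k k)) + MvPolynomial.coeff 0 (β k k))
    rw [h5]
    refine Finset.sum_congr rfl fun k _ => ?_
    rw [Finset.sum_add_distrib, Finset.sum_const, A1_card, Finset.sum_comm, nsmul_eq_mul,
      mul_comm (Cn d ⌈(m - ε k) / N⌉₊ : ℂ)]
    congr 1
    have h6 : ∀ j, ∑ α ∈ A1_S d ⌈(m - ε k) / N⌉₊, ((α j : ℕ) : ℂ) *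
        MvPolynomial.coeff (Finsupp.single j 1) (q j k k) =
          MvPolynomial.coeff (Finsupp.single j 1) (q j k k) *
            ((Sg d ⌈(m - ε k) / N⌉₊ : ℂ) / d) := by
      intro j
      rw [← Finset.sum_mul, A1_sumi hd, mul_comm]
    rw [Finset.sum_congr rfl fun j _ => h6 j, ← Finset.sum_mul]
    ring

end Pool.Agent.Helper20.TS
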