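import Pool.Agent.Helper20.TS.Nb

/-!
# TS-A1a: a basis of the truncations

`exists_qbasis`: the classes of the `z ^ α e_l` with `N |α| + ε_l < m` form a basis of
`R / {w ≥ m}`, with coordinate functions the coefficients.
-/

set_option autoImplicit false

namespace Pool.Agent.Helper20.TS

open Module Pool.Agent.Helper37.SD

variable {K : Type} [Field K] [Algebra ℂ K] {R : Subalgebra ℂ K} {ζ : Derivation ℂ K K}
  {d N r : ℕ} {z : Fin d → K} {e : Fin r → K} {ε : Fin r → ℕ}

private theorem A1a_pow {x : K} {a : ℝ} (hx : ζ x = (a : ℂ) • x) (n : ℕ) :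
    ζ (x ^ n) = ((a * n : ℝ) : ℂ) • (x ^ n) := by
  induction n with
  | zero =>
    rw [pow_zero, Nat.cast_zero, mul_zero]
    exact eig_one
  | succ n ih =>
    rw [pow_succ]
    have h1 := eig_mul ih hx
    rw [h1]
    congr 2
    push_cast
    ring

private theorem A1a_mon (hb : NB R ζ d N r z e ε) (α : Fin d →₀ ℕ) :
    ζ (MvPolynomial.aeval z (MvPolynomial.monomial α (1 : ℂ))) =
      (((N : ℝ) * (α.degree : ℝ) : ℝ) : ℂ) • MvPolynomial.aeval z (MvPolynomial.monomial α (1 : ℂ)) := by
  induction α using Finsupp.induction_linear with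
  | zero =>
    have h1 : MvPolynomial.aeval z (MvPolynomial.monomial (0 : Fin d →₀ ℕ) (1 : ℂ)) = 1 := by
      rw [← MvPolynomial.one_def, map_one]
    rw [h1, map_zero, Nat.cast_zero, mul_zero]
    exact eig_one
  | add α β hα hβ =>
    have h1 : MvPolynomial.monomial (α + β) (1 : ℂ) =
        MvPolynomial.monomial α 1 * MvPolynomial.monomial β 1 := by
      rw [MvPolynomial.monomial_mul, one_mul]
    rw [h1, map_mul, eig_mul hα hβ, map_add]
    congr 2
    push_cast
    ring
  | single i n =>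
    have h1 : MvPolynomial.monomial (Finsupp.single i n) (1 : ℂ) = MvPolynomial.X i ^ n := by
      rw [MvPolynomial.X_pow_eq_monomial]
    rw [h1, map_pow, MvPolynomial.aeval_X, A1a_pow (hb.zdeg i), Finsupp.degree_single]

private theorem A1a_eig (hb : NB R ζ d N r z e ε) (α : Fin d →₀ ℕ) (k : Fin r) :
    ζ (MvPolynomial.aeval z (MvPolynomial.monomial α (1 : ℂ)) * e k) =
      (((N : ℝ) * (α.degree : ℝ) + ε k : ℝ) : ℂ) •
        (MvPolynomial.aeval z (MvPolynomial.monomial α (1 : ℂ)) * e k) :=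
  eig_mul (A1a_mon hb α) (hb.edeg k)

private theorem A1a_mem (hb : NB R ζ d N r z e ε) (α : Fin d →₀ ℕ) (k : Fin r) :
    MvPolynomial.aeval z (MvPolynomial.monomial α (1 : ℂ)) * e k ∈ R := by
  refine R.mul_mem ?_ (hb.eR k)
  rw [MvPolynomial.aeval_monomial, map_one, one_mul]
  exact R.prod_mem fun i _ => R.pow_mem (hb.zR i) _

private theorem A1a_exp (p : MvPolynomial (Fin d) ℂ) (y : K) :
    MvPolynomial.aeval z p * y = ∑ α ∈ p.support, MvPolynomial.coeff α p •
      (MvPolynomial.aeval z (MvPolynomial.monomial α (1 : ℂ)) * y) := by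
  conv_lhs => rw [MvPolynomial.as_sum p]
  rw [map_sum, Finset.sum_mul]
  refine Finset.sum_congr rfl fun α _ => ?_
  have h1 : MvPolynomial.monomial α (MvPolynomial.coeff α p) =
      MvPolynomial.coeff α p • MvPolynomial.monomial α (1 : ℂ) := by
    rw [MvPolynomial.smul_monomial, smul_eq_mul, mul_one]
  rw [h1, map_smul, smul_mul_assoc]

/-- the coefficients of a homogeneous element -/
private theorem A1a_hom (hb : NB R ζ d N r z e ε) {x : K} (hx : x ∈ R) {c : ℝ}
    (hc : ζ x = (c : ℂ) • x) (p : Fin r → MvPolynomial (Fin d) ℂ)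
    (hp : x = ∑ k, MvPolynomial.aeval z (p k) * e k) (α : Fin d →₀ ℕ) (k : Fin r)
    (h : MvPolynomial.coeff α (p k) ≠ 0) : (N : ℝ) * (α.degree : ℝ) + ε k = c := by
  classical
  let q : Fin r → MvPolynomial (Fin d) ℂ := fun k => ∑ β ∈ (p k).support,
    MvPolynomial.monomial β ((((N : ℝ) * (β.degree : ℝ) + ε k : ℝ) : ℂ) *
      MvPolynomial.coeff β (p k))
  have hq : ∀ β k, MvPolynomial.coeff β (q k) = (((N : ℝ) * (β.degree : ℝ) + ε k : ℝ) : ℂ) *
      MvPolynomial.coeff β (p k) := by
    intro β k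
    show MvPolynomial.coeff β (∑ β ∈ (p k).support,
      MvPolynomial.monomial β ((((N : ℝ) * (β.degree : ℝ) + ε k : ℝ) : ℂ) *
        MvPolynomial.coeff β (p k))) = _
    rw [MvPolynomial.coeff_sum]
    simp only [MvPolynomial.coeff_monomial]
    rw [Finset.sum_ite_eq']
    split_ifs with h1
    · rfl
    · rw [MvPolynomial.notMem_support_iff.mp h1, mul_zero]
  have h1 : ζ x = ∑ k, MvPolynomial.aeval z (q k) * e k := by
    rw [hp, map_sum]
    refine Finset.sum_congr rfl fun k _ => ?_
    rw [A1a_exp, map_sum]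
    show _ = MvPolynomial.aeval z (∑ β ∈ (p k).support,
      MvPolynomial.monomial β ((((N : ℝ) * (β.degree : ℝ) + ε k : ℝ) : ℂ) *
        MvPolynomial.coeff β (p k))) * e k
    rw [map_sum, Finset.sum_mul]
    refine Finset.sum_congr rfl fun β _ => ?_
    rw [Derivation.map_smul, A1a_eig hb]
    have h2 : MvPolynomial.monomial β ((((N : ℝ) * (β.degree : ℝ) + ε k : ℝ) : ℂ) *
        MvPolynomial.coeff β (p k)) = MvPolynomial.coeff β (p k) •
          ((((N : ℝ) * (β.degree : ℝ) + ε k : ℝ) : ℂ) • MvPolynomial.monomial β (1 : ℂ)) := by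
      rw [MvPolynomial.smul_monomial, MvPolynomial.smul_monomial, smul_eq_mul, smul_eq_mul, mul_one,
        mul_comm]
    rw [h2, map_smul, map_smul, smul_mul_assoc, smul_mul_assoc]
  have h2 : ζ x = ∑ k, MvPolynomial.aeval z ((c : ℂ) • p k) * e k := by
    rw [hc]
    conv_lhs => rw [hp]
    rw [Finset.smul_sum]
    refine Finset.sum_congr rfl fun k _ => ?_
    rw [map_smul, smul_mul_assoc]
  have hζ : ζ x ∈ R := by
    rw [hc]
    exact R.smul_mem hx _
  have h3 : q = fun k => (c : ℂ) • p k := (hb.basis _ hζ).unique h1 h2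
  have h4 := congrArg (MvPolynomial.coeff α) (congrFun h3 k)
  rw [hq, MvPolynomial.coeff_smul, smul_eq_mul] at h4
  have h5 := mul_right_cancel₀ h h4
  exact_mod_cast h5

theorem exists_qbasis (_ : NCone R ζ) {w : RVal K} (hw : IsWt R ζ w) (hb : NB R ζ d N r z e ε)
    (m : ℝ) : ∃ (ι : Type) (_ : Fintype ι) (a : ι → (Fin d →₀ ℕ)) (l : ι → Fin r)
      (b : Basis ι ℂ (R ⧸ idl R w m)),
      (∀ i j, a i = a j → l i = l j → i = j) ∧
      (∀ (α : Fin d →₀ ℕ) (k : Fin r), (∃ i, a i = α ∧ l i = k) ↔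
        (N : ℝ) * (α.degree : ℝ) + ε k < m) ∧
      ∀ (x : R) (p : Fin r → MvPolynomial (Fin d) ℂ),
        (x : K) = ∑ k, MvPolynomial.aeval z (p k) * e k →
          ∀ i, b.repr (Submodule.Quotient.mk x) i = MvPolynomial.coeff (a i) (p (l i)) := by
  classical
  let ι : Type := {q : (Fin d →₀ ℕ) × Fin r // (N : ℝ) * (q.1.degree : ℝ) + ε q.2 < m}
  have hfin : Finite ι := by
    have h1 : {q : (Fin d →₀ ℕ) × Fin r | (N : ℝ) * (q.1.degree : ℝ) + ε q.2 < m} ⊆
        (Set.Icc (0 : Fin d →₀ ℕ) (Finsupp.equivFunOnFinite.symm fun _ => ⌈m⌉₊)) ×ˢ Set.univ := by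
      rintro ⟨α, k⟩ hq
      refine ⟨⟨zero_le, fun i => ?_⟩, Set.mem_univ _⟩
      have hq' : (N : ℝ) * (α.degree : ℝ) + ε k < m := hq
      have h2 : (1 : ℝ) ≤ N := by exact_mod_cast hb.pos
      have h3 : (0 : ℝ) ≤ (α.degree : ℝ) := Nat.cast_nonneg _
      have h4 : (0 : ℝ) ≤ (ε k : ℝ) := Nat.cast_nonneg _
      have h5 : (α.degree : ℝ) ≤ m := by nlinarith
      have h6 : α.degree ≤ ⌈m⌉₊ := by
        have := h5.trans (Nat.le_ceil m)
        exact_mod_cast this
      have h7 : α i ≤ α.degree := Finsupp.le_degree i α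
      show α i ≤ ⌈m⌉₊
      exact h7.trans h6
    exact ((Set.finite_Icc _ _).prod Set.finite_univ).subset h1
  have hι : Fintype ι := Fintype.ofFinite ι
  let a : ι → (Fin d →₀ ℕ) := fun i => i.1.1
  let l : ι → Fin r := fun i => i.1.2
  let P : R → Fin r → MvPolynomial (Fin d) ℂ := fun x => (hb.basis x x.2).choose
  have hP : ∀ x : R, (x : K) = ∑ k, MvPolynomial.aeval z (P x k) * e k := fun x =>
    (hb.basis x x.2).choose_spec.1
  have hPu : ∀ (x : R) (p : Fin r → MvPolynomial (Fin d) ℂ),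
      (x : K) = ∑ k, MvPolynomial.aeval z (p k) * e k → P x = p := fun x p hp =>
    (hb.basis x x.2).unique (hP x) hp
  let Φ : R →ₗ[ℂ] (ι → ℂ) :=
    { toFun := fun x i => MvPolynomial.coeff (a i) (P x (l i))
      map_add' := by
        intro x y
        have h1 : P (x + y) = fun k => P x k + P y k := by
          refine hPu _ _ ?_
          show (x : K) + (y : K) = _
          rw [hP x, hP y, ← Finset.sum_add_distrib]
          refine Finset.sum_congr rfl fun k _ => ?_
          rw [map_add, add_mul]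
        funext i
        rw [h1, MvPolynomial.coeff_add, Pi.add_apply]
      map_smul' := by
        intro c x
        have h1 : P (c • x) = fun k => c • P x k := by
          refine hPu _ _ ?_
          show c • (x : K) = _
          conv_lhs => rw [hP x]
          rw [Finset.smul_sum]
          refine Finset.sum_congr rfl fun k _ => ?_
          rw [map_smul, smul_mul_assoc]
        funext i
        rw [h1, MvPolynomial.coeff_smul, Pi.smul_apply, RingHom.id_apply] }
  have hΦ : ∀ x i, Φ x i = MvPolynomial.coeff (a i) (P x (l i)) := fun _ _ => rfl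
  -- the kernel
  have hRH : ∀ x ∈ RH R ζ (fun b => m ≤ b), ∀ hx : x ∈ R, Φ ⟨x, hx⟩ = 0 := by
    intro x hx
    induction hx using Submodule.span_induction with
    | mem y hy =>
      obtain ⟨_, c, hc, hyc⟩ := hy
      intro hx
      funext i
      rw [hΦ, Pi.zero_apply]
      by_contra h1
      have h2 := A1a_hom hb hx hyc _ (hP ⟨y, hx⟩) _ _ h1
      have h3 : (N : ℝ) * ((a i).degree : ℝ) + ε (l i) < m := i.2
      rw [h2] at h3
      exact absurd hc (not_le.mpr h3)
    | zero =>
      intro hx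
      exact map_zero Φ
    | add x y hx1 hy1 hx hy =>
      intro hxy
      have hxR : x ∈ R := hsp_le hx1
      have hyR : y ∈ R := hsp_le hy1
      have h1 : (⟨x + y, hxy⟩ : R) = ⟨x, hxR⟩ + ⟨y, hyR⟩ := rfl
      rw [h1, map_add, hx hxR, hy hyR, add_zero]
    | smul c x hx1 hx =>
      intro hcx
      have hxR : x ∈ R := hsp_le hx1
      have h1 : (⟨c • x, hcx⟩ : R) = c • ⟨x, hxR⟩ := rfl
      rw [h1, map_smul, hx hxR, smul_zero]
  have hker : LinearMap.ker Φ = idl R w m := by
    ext x
    rw [LinearMap.mem_ker]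
    constructor
    · intro hx
      show w.Ge m (x : K)
      by_cases h0 : (x : K) = 0
      · exact Or.inl h0
      · refine Or.inr ((hw _ x.2 h0 m).mpr ?_)
        rw [hP x]
        refine Submodule.sum_mem _ fun k _ => ?_
        rw [A1a_exp]
        refine Submodule.sum_mem _ fun α hα => Submodule.smul_mem _ _ ?_
        refine mem_hsp (A1a_mem hb α k) ?_ (A1a_eig hb α k)
        by_contra h1
        have h2 := congrFun hx (⟨(α, k), not_le.mp h1⟩ : ι)
        rw [hΦ] at h2
        exact (MvPolynomial.mem_support_iff.mp hα) h2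
    · intro hx
      have h1 : w.Ge m (x : K) := hx
      by_cases h0 : (x : K) = 0
      · have h2 : x = 0 := Subtype.ext h0
        rw [h2, map_zero]
      · exact hRH _ ((hw _ x.2 h0 m).mp (h1.resolve_left h0)) x.2
  -- surjectivity
  let B : ι → R := fun i => ⟨MvPolynomial.aeval z (MvPolynomial.monomial (a i) (1 : ℂ)) * e (l i),
    A1a_mem hb _ _⟩
  have hB : ∀ i, Φ (B i) = Pi.single i 1 := by
    intro i
    have h1 : P (B i) = Pi.single (l i) (MvPolynomial.monomial (a i) (1 : ℂ)) := by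
      refine hPu _ _ ?_
      show MvPolynomial.aeval z (MvPolynomial.monomial (a i) (1 : ℂ)) * e (l i) = _
      rw [Finset.sum_eq_single (l i)]
      · rw [Pi.single_eq_same]
      · intro k _ hk
        rw [Pi.single_eq_of_ne hk, map_zero, zero_mul]
      · intro h5
        exact absurd (Finset.mem_univ _) h5
    funext j
    rw [hΦ, h1]
    by_cases hij : j = i
    · subst hij
      rw [Pi.single_eq_same, Pi.single_eq_same, MvPolynomial.coeff_monomial, if_pos rfl]
    · rw [Pi.single_eq_of_ne hij]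
      by_cases hl : l j = l i
      · rw [hl, Pi.single_eq_same, MvPolynomial.coeff_monomial, if_neg]
        intro ha
        exact hij (Subtype.ext (Prod.ext ha.symm hl))
      · rw [Pi.single_eq_of_ne hl, MvPolynomial.coeff_zero]
  have hsurj : Function.Surjective Φ := by
    intro g
    refine ⟨∑ i, g i • B i, ?_⟩
    rw [map_sum]
    funext j
    rw [Finset.sum_apply, Finset.sum_eq_single j]
    · rw [map_smul, hB, Pi.smul_apply, Pi.single_eq_same, smul_eq_mul, mul_one]
    · intro i _ hij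
      rw [map_smul, hB, Pi.smul_apply, Pi.single_eq_of_ne (Ne.symm hij), smul_zero]
    · intro h5
      exact absurd (Finset.mem_univ _) h5
  let E : (R ⧸ idl R w m) ≃ₗ[ℂ] (ι → ℂ) :=
    (Submodule.quotEquivOfEq _ _ hker.symm).trans (Φ.quotKerEquivOfSurjective hsurj)
  refine ⟨ι, hι, a, l, Basis.ofEquivFun E, ?_, ?_, ?_⟩
  · intro i j h1 h2
    exact Subtype.ext (Prod.ext h1 h2)
  · intro α k
    constructor
    · rintro ⟨i, rfl, rfl⟩
      exact i.2
    · intro h1
      exact ⟨⟨(α, k), h1⟩, rfl, rfl⟩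
  · intro x p hp i
    rw [Basis.ofEquivFun_repr_apply]
    show Φ.quotKerEquivOfSurjective hsurj (Submodule.quotEquivOfEq _ _ hker.symm
      (Submodule.Quotient.mk x)) i = _
    rw [Submodule.quotEquivOfEq_mk, LinearMap.quotKerEquivOfSurjective_apply_mk, hΦ, hPu x p hp]

end Pool.Agent.Helper20.TS
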