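import Pool.Agent.Helper20.TS.Df

/-!
# TS-A2: growth of `Cn` and `Sg`

The number of `α : Fin d → ℕ` of sum `j` is `(j + d - 1).choose (d - 1)`
(Finset.Nat.card_antidiagonalTuple or a recursion), a polynomial in `j` with leading term
`j ^ (d - 1) / (d - 1)!`.  So `Cn d k ~ k ^ d / d!` and `Sg d k ~ k ^ (d + 1) / ((d + 1) (d - 1)!)`
(for instance by induction on `d` or with explicit formulas: `Cn d k = (k + d - 1).choose d`,
`Sg d k = d * (k + d - 1).choose (d + 1)`), and `⌈(x - a) / N⌉₊ / x → 1 / N`.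
-/

set_option autoImplicit false

namespace Pool.Agent.Helper20.TS

open Filter Topology

private lemma A2_card (e : ℕ) : ∀ n, (Finset.Nat.antidiagonalTuple (e + 1) n).card = (n + e).choose e := by
  induction e with
  | zero =>
    intro n
    simp
  | succ e ih =>
    intro n
    have h1 : (Finset.Nat.antidiagonalTuple (e + 1 + 1) n).card =
        ∑ p ∈ Finset.HasAntidiagonal.antidiagonal n,
          (Finset.Nat.antidiagonalTuple (e + 1) p.2).card := by
      change (List.Nat.antidiagonalTuple (e + 1 + 1) n).length = _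
      rw [show List.Nat.antidiagonalTuple (e + 1 + 1) n =
        (List.Nat.antidiagonal n).flatMap fun ni =>
          (List.Nat.antidiagonalTuple (e + 1) ni.2).map fun x => Fin.cons ni.1 x from rfl]
      rw [List.length_flatMap]
      simp only [List.length_map]
      rfl
    rw [h1]
    simp only [ih]
    have h2 : ∑ p ∈ Finset.HasAntidiagonal.antidiagonal n, (p.2 + e).choose e =
        ∑ i ∈ Finset.range (n + 1), (i + e).choose e := by
      rw [Finset.Nat.sum_antidiagonal_eq_sum_range_succ_mk,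
        ← Finset.sum_range_reflect (fun i => (i + e).choose e) (n + 1)]
      refine Finset.sum_congr rfl fun i hi => ?_
      have := Finset.mem_range.mp hi
      rw [Nat.add_sub_cancel]
    rw [h2, Nat.sum_range_add_choose]
    rfl

private lemma A2_Cn (e k : ℕ) : Cn (e + 1) k = (k + e).choose (e + 1) := by
  unfold Cn
  simp only [A2_card]
  induction k with
  | zero => simp
  | succ k ih =>
    rw [Finset.sum_range_succ, ih, show k + 1 + e = (k + e) + 1 by ring, Nat.choose_succ_succ]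
    ring

private lemma A2_Sg (e k : ℕ) : Sg (e + 1) k = (e + 1) * (k + e).choose (e + 2) := by
  unfold Sg
  simp only [A2_card]
  induction k with
  | zero => simp [Nat.choose_eq_zero_of_lt (show e < e + 2 by omega)]
  | succ k ih =>
    rw [Finset.sum_range_succ, ih, show k + 1 + e = (k + e) + 1 by ring, Nat.choose_succ_succ]
    have h : k * (k + e).choose e = (e + 1) * (k + e).choose (e + 1) := by
      have h1 := Nat.choose_succ_right_eq (k + e) e
      rw [Nat.add_sub_cancel] at h1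
      linarith
    rw [h]
    ring

private lemma A2_ceil (N : ℕ) (hN : 0 < N) (a : ℝ) :
    Tendsto (fun x : ℝ => (⌈(x - a) / N⌉₊ : ℝ) / x) atTop (𝓝 (1 / (N : ℝ))) := by
  have hN' : (0 : ℝ) < N := by exact_mod_cast hN
  have h1 : Tendsto (fun x : ℝ => (x - a) / N) atTop atTop :=
    (tendsto_atTop_add_const_right _ (-a) tendsto_id).atTop_div_const hN'
  have h2 := (tendsto_nat_ceil_div_atTop (R := ℝ)).comp h1
  have h3 : Tendsto (fun x : ℝ => ((x - a) / N) / x) atTop (𝓝 (1 / (N : ℝ))) := by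
    have h4 : Tendsto (fun x : ℝ => 1 / (N : ℝ) - (a / N) * x⁻¹) atTop (𝓝 (1 / (N : ℝ) - (a / N) * 0)) :=
      tendsto_const_nhds.sub (tendsto_const_nhds.mul tendsto_inv_atTop_zero)
    rw [mul_zero, sub_zero] at h4
    refine h4.congr' ?_
    filter_upwards [eventually_gt_atTop 0] with x hx
    field_simp
  have h5 := h2.mul h3
  rw [one_mul] at h5
  refine h5.congr' ?_
  filter_upwards [eventually_gt_atTop 0, eventually_gt_atTop a] with x hx hxa
  have h6 : (x - a) / N ≠ 0 := (div_pos (by linarith) hN').ne'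
  simp only [Function.comp]
  field_simp

private lemma A2_ceil_top (N : ℕ) (hN : 0 < N) (a : ℝ) :
    Tendsto (fun x : ℝ => ⌈(x - a) / N⌉₊) atTop atTop := by
  have hN' : (0 : ℝ) < N := by exact_mod_cast hN
  have h1 : Tendsto (fun x : ℝ => (x - a) / N) atTop atTop :=
    (tendsto_atTop_add_const_right _ (-a) tendsto_id).atTop_div_const hN'
  exact tendsto_nat_ceil_atTop.comp h1

private lemma A2_choose (s r : ℕ) :
    Tendsto (fun k : ℕ => ((k + s).choose r : ℝ) / (k : ℝ) ^ r) atTop (𝓝 (1 / (r.factorial : ℝ))) := by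
  have h1 := isEquivalent_choose r
  have h2 : Tendsto (fun n : ℕ => ((n.choose r : ℝ)) / ((n : ℝ) ^ r / (r.factorial : ℝ))) atTop (𝓝 1) := by
    have h3 := (Asymptotics.isEquivalent_iff_tendsto_one (by
      filter_upwards [eventually_gt_atTop 0] with n hn
      have : (0 : ℝ) < n := by exact_mod_cast hn
      positivity)).mp h1
    exact h3
  have h3 : Tendsto (fun k : ℕ => k + s) atTop atTop := tendsto_add_atTop_nat s
  have h4 := h2.comp h3
  have h5 : Tendsto (fun k : ℕ => (((k + s : ℕ) : ℝ) / (k : ℝ)) ^ r) atTop (𝓝 (1 ^ r)) := by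
    refine Tendsto.pow ?_ r
    have h6 : Tendsto (fun k : ℕ => 1 + (s : ℝ) * (k : ℝ)⁻¹) atTop (𝓝 (1 + (s : ℝ) * 0)) :=
      tendsto_const_nhds.add (tendsto_const_nhds.mul (tendsto_inv_atTop_zero.comp tendsto_natCast_atTop_atTop))
    rw [mul_zero, add_zero] at h6
    refine h6.congr' ?_
    filter_upwards [eventually_gt_atTop 0] with k hk
    have : (0 : ℝ) < k := by exact_mod_cast hk
    push_cast
    field_simp
  have h7 := (h4.mul h5).div_const (r.factorial : ℝ)
  rw [one_pow, one_mul] at h7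
  refine h7.congr' ?_
  filter_upwards [eventually_gt_atTop 0] with k hk
  have hk' : (0 : ℝ) < k := by exact_mod_cast hk
  have hks : (0 : ℝ) < ((k + s : ℕ) : ℝ) := by exact_mod_cast (by omega : 0 < k + s)
  simp only [Function.comp]
  rw [div_pow]
  have hf : (0 : ℝ) < (r.factorial : ℝ) := by exact_mod_cast r.factorial_pos
  field_simp

private lemma A2_lim (s r N : ℕ) (hN : 0 < N) (a : ℝ) :
    Tendsto (fun x : ℝ => ((⌈(x - a) / N⌉₊ + s).choose r : ℝ) / x ^ r) atTop
      (𝓝 ((1 / (N : ℝ)) ^ r / (r.factorial : ℝ))) := by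
  have h1 := (A2_choose s r).comp (A2_ceil_top N hN a)
  have h2 := (A2_ceil N hN a).pow r
  have h3 := h1.mul h2
  have h4 : 1 / (r.factorial : ℝ) * (1 / (N : ℝ)) ^ r = (1 / (N : ℝ)) ^ r / (r.factorial : ℝ) := by ring
  rw [h4] at h3
  refine h3.congr' ?_
  filter_upwards [eventually_gt_atTop 0, (A2_ceil_top N hN a).eventually_gt_atTop 0] with x hx hk
  have hk' : (0 : ℝ) < (⌈(x - a) / N⌉₊ : ℝ) := by exact_mod_cast hk
  simp only [Function.comp]
  rw [div_pow]
  field_simp

theorem Cn_lim (d N : ℕ) (hd : 0 < d) (hN : 0 < N) (a : ℝ) :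
    Tendsto (fun x : ℝ => (Cn d ⌈(x - a) / N⌉₊ : ℝ) / x ^ d) atTop
      (𝓝 ((1 / (N : ℝ)) ^ d / (d.factorial : ℝ))) := by
  obtain ⟨e, rfl⟩ : ∃ e, d = e + 1 := ⟨d - 1, by omega⟩
  simp only [A2_Cn]
  exact A2_lim e (e + 1) N hN a

theorem Sg_lim (d N : ℕ) (hd : 0 < d) (hN : 0 < N) (a : ℝ) :
    Tendsto (fun x : ℝ => (Sg d ⌈(x - a) / N⌉₊ : ℝ) / x ^ (d + 1)) atTop
      (𝓝 ((1 / (N : ℝ)) ^ (d + 1) / ((d + 1) * ((d - 1).factorial : ℝ)))) := by
  obtain ⟨e, rfl⟩ : ∃ e, d = e + 1 := ⟨d - 1, by omega⟩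
  simp only [A2_Sg]
  have h1 := (A2_lim e (e + 2) N hN a).const_mul ((e + 1 : ℕ) : ℝ)
  have h2 : ((e + 1 : ℕ) : ℝ) * ((1 / (N : ℝ)) ^ (e + 2) / ((e + 2).factorial : ℝ)) =
      (1 / (N : ℝ)) ^ (e + 1 + 1) / ((((e + 1 : ℕ) : ℝ) + 1) * ((e + 1 - 1).factorial : ℝ)) := by
    rw [Nat.add_sub_cancel, Nat.factorial_succ, Nat.factorial_succ]
    have hf : (0 : ℝ) < (e.factorial : ℝ) := by exact_mod_cast e.factorial_pos
    push_cast
    have he : (0 : ℝ) < (e : ℝ) + 1 := by positivity
    have hN' : (0 : ℝ) < N := by exact_mod_cast hN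
    field_simp
  rw [h2] at h1
  refine h1.congr fun x => ?_
  push_cast
  ring

end Pool.Agent.Helper20.TS
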