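import Pool.Agent.Helper20.TS.Df

/-!
# TS-N2: a homogeneous basis

`CM d R` gives a basis `e'` (with `r` elements) of `R` over `P = ℂ[z]`.  Let `I` be the span over
`ℂ` of all `z i * x`, `x ∈ R`.  Then `R / I` has dimension `r` over `ℂ` (basis: the classes of `e'`;
the map `x ↦` constant coefficients of the `p l` is a linear surjection `R → ℂ ^ r` with kernel
`I`).  `R` is spanned by homogeneous elements, so there are homogeneous `e l ∈ R` whose classes are
a basis of `R / I`.  They generate `R` over `P` (graded Nakayama: induction on the degree of a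
homogeneous `x ∈ R`: `x = ∑ c l e l + ∑ z i x_i` with `c l ∈ ℂ`, `x_i ∈ R` homogeneous of smaller
degree; take components of the degree of `x`).  So the `P`-linear map `P ^ r → P ^ r` given by
`e` in the basis `e'` is surjective, hence bijective, and `e` is a basis.
-/

set_option autoImplicit false

namespace Pool.Agent.Helper20.TS

open Module Pool.Agent.Helper37.SD

variable {K : Type} [Field K] [Algebra ℂ K]

namespace N2

/-- The combination of the `e l` with coefficients `p l`. -/
noncomputable def cb {d r : ℕ} (z : Fin d → K) (e : Fin r → K)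
    (p : Fin r → MvPolynomial (Fin d) ℂ) : K := ∑ l, MvPolynomial.aeval z (p l) * e l

/-- The constant coefficients. -/
noncomputable def cc {d r : ℕ} (p : Fin r → MvPolynomial (Fin d) ℂ) : Fin r → ℂ :=
  fun l => MvPolynomial.constantCoeff (p l)

variable {d r : ℕ} {z : Fin d → K} {e : Fin r → K}

theorem cb_add (p q : Fin r → MvPolynomial (Fin d) ℂ) :
    cb z e (p + q) = cb z e p + cb z e q := by
  unfold cb
  rw [← Finset.sum_add_distrib]
  refine Finset.sum_congr rfl fun l _ => ?_
  rw [Pi.add_apply, map_add, add_mul]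

theorem cb_zero : cb z e (0 : Fin r → MvPolynomial (Fin d) ℂ) = 0 := by
  unfold cb
  refine Finset.sum_eq_zero fun l _ => ?_
  rw [Pi.zero_apply, map_zero, zero_mul]

theorem cb_smul (a : ℂ) (p : Fin r → MvPolynomial (Fin d) ℂ) :
    cb z e (a • p) = a • cb z e p := by
  unfold cb
  rw [Finset.smul_sum]
  refine Finset.sum_congr rfl fun l _ => ?_
  rw [Pi.smul_apply, map_smul, smul_mul_assoc]

theorem cb_mul (g : MvPolynomial (Fin d) ℂ) (p : Fin r → MvPolynomial (Fin d) ℂ) :
    cb z e (fun l => g * p l) = MvPolynomial.aeval z g * cb z e p := by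
  unfold cb
  rw [Finset.mul_sum]
  refine Finset.sum_congr rfl fun l _ => ?_
  rw [map_mul, mul_assoc]

theorem cb_sum {ι : Type} (s : Finset ι) (p : ι → Fin r → MvPolynomial (Fin d) ℂ) :
    cb z e (∑ i ∈ s, p i) = ∑ i ∈ s, cb z e (p i) := by
  classical
  induction s using Finset.induction_on with
  | empty => rw [Finset.sum_empty, Finset.sum_empty, cb_zero]
  | insert a s ha ih => rw [Finset.sum_insert ha, Finset.sum_insert ha, cb_add, ih]

theorem aeval_mem {R : Subalgebra ℂ K} (hz : ∀ i, z i ∈ R) (p : MvPolynomial (Fin d) ℂ) :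
    MvPolynomial.aeval z p ∈ R := by
  induction p using MvPolynomial.induction_on with
  | C a => rw [MvPolynomial.aeval_C]; exact R.algebraMap_mem a
  | add p q hp hq => rw [map_add]; exact R.add_mem hp hq
  | mul_X p i hp => rw [map_mul, MvPolynomial.aeval_X]; exact R.mul_mem hp (hz i)

theorem cb_mem {R : Subalgebra ℂ K} (hz : ∀ i, z i ∈ R) (he : ∀ l, e l ∈ R)
    (p : Fin r → MvPolynomial (Fin d) ℂ) : cb z e p ∈ R :=
  R.sum_mem fun l _ => R.mul_mem (aeval_mem hz _) (he l)

theorem exists_parts (p : MvPolynomial (Fin d) ℂ) : ∃ g : Fin d → MvPolynomial (Fin d) ℂ,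
    p = MvPolynomial.C (MvPolynomial.constantCoeff p) + ∑ i, MvPolynomial.X i * g i := by
  classical
  induction p using MvPolynomial.induction_on with
  | C a => exact ⟨0, by simp⟩
  | add p q hp hq =>
    obtain ⟨g, hg⟩ := hp
    obtain ⟨g', hg'⟩ := hq
    refine ⟨g + g', ?_⟩
    have h1 : ∑ i, MvPolynomial.X i * (g + g') i =
        ∑ i, MvPolynomial.X i * g i + ∑ i, MvPolynomial.X i * g' i := by
      rw [← Finset.sum_add_distrib]
      refine Finset.sum_congr rfl fun i _ => ?_
      rw [Pi.add_apply, mul_add]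
    rw [h1, map_add, map_add]
    calc p + q = (MvPolynomial.C (MvPolynomial.constantCoeff p) +
          ∑ i, MvPolynomial.X i * g i) + (MvPolynomial.C (MvPolynomial.constantCoeff q) +
          ∑ i, MvPolynomial.X i * g' i) := by rw [← hg, ← hg']
      _ = _ := by ring
  | mul_X p i hp =>
    refine ⟨fun j => if j = i then p else 0, ?_⟩
    have h1 : ∑ j, MvPolynomial.X j * (if j = i then p else 0) = MvPolynomial.X i * p := by
      rw [Finset.sum_eq_single i]
      · rw [if_pos rfl]
      · intro j _ hj
        rw [if_neg hj, mul_zero]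
      · intro h
        exact absurd (Finset.mem_univ i) h
    rw [h1, map_mul, MvPolynomial.constantCoeff_X, mul_zero, map_zero, zero_add, mul_comm]

theorem exists_span {S : Set (Fin r → ℂ)} (h : Submodule.span ℂ S = ⊤) :
    ∃ f : Fin r → (Fin r → ℂ), (∀ i, f i ∈ S) ∧ Submodule.span ℂ (Set.range f) = ⊤ := by
  obtain ⟨f, hf1, hf2, -⟩ := Submodule.exists_fun_fin_finrank_span_eq ℂ S
  have hr : finrank ℂ (Submodule.span ℂ S) = r := by
    rw [h, finrank_top, finrank_fin_fun]
  refine ⟨fun i => f (Fin.cast hr.symm i), fun i => hf1 _, ?_⟩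
  have h1 : Set.range (fun i => f (Fin.cast hr.symm i)) = Set.range f := by
    ext v
    constructor
    · rintro ⟨i, rfl⟩
      exact ⟨_, rfl⟩
    · rintro ⟨i, rfl⟩
      exact ⟨Fin.cast hr i, rfl⟩
  rw [h1, hf2, h]

/-- The component of a given degree. -/
theorem exists_comp {R : Subalgebra ℂ K} {ζ : Derivation ℂ K K} (h : IsCone R ζ) (c : ℝ) {y : K}
    (hy : y ∈ R) : ∃ a ∈ R, ζ a = (c : ℂ) • a ∧ y - a ∈ RH R ζ (fun b => b ≠ c) := by
  have h1 := h.span y hy
  induction h1 using Submodule.span_induction with
  | mem x hx =>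
    obtain ⟨hxR, b, -, hb⟩ := hx
    by_cases hbc : b = c
    · subst hbc
      exact ⟨x, hxR, hb, by rw [sub_self]; exact Submodule.zero_mem _⟩
    · refine ⟨0, R.zero_mem, by rw [map_zero, smul_zero], ?_⟩
      rw [sub_zero]
      exact mem_hsp hxR hbc hb
  | zero => exact ⟨0, R.zero_mem, by rw [map_zero, smul_zero], by
      rw [sub_zero]; exact Submodule.zero_mem _⟩
  | add x y hx0 hy0 hx' hy' =>
    obtain ⟨a, ha, ha1, ha2⟩ := hx' (hsp_le hx0)
    obtain ⟨b, hb, hb1, hb2⟩ := hy' (hsp_le hy0)
    refine ⟨a + b, R.add_mem ha hb, by rw [map_add, ha1, hb1, smul_add], ?_⟩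
    rw [add_sub_add_comm]
    exact Submodule.add_mem _ ha2 hb2
  | smul t x hx0 hx' =>
    obtain ⟨a, ha, ha1, ha2⟩ := hx' (hsp_le hx0)
    refine ⟨t • a, R.smul_mem ha t, by rw [Derivation.map_smul, ha1, smul_comm], ?_⟩
    rw [← smul_sub]
    exact Submodule.smul_mem _ t ha2

theorem mul_comp {R : Subalgebra ℂ K} {ζ : Derivation ℂ K K} {c n : ℝ} {w : K} (hw : w ∈ R)
    (hn : ζ w = (n : ℂ) • w) {b : K} (hb : b ∈ RH R ζ (fun b => b ≠ c)) :
    w * b ∈ RH R ζ (fun b => b ≠ c + n) := by
  induction hb using Submodule.span_induction with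
  | mem x hx =>
    obtain ⟨hxR, b, hbc, hb⟩ := hx
    refine mem_hsp (c := b + n) (R.mul_mem hw hxR) (fun h => hbc (add_right_cancel h)) ?_
    have h1 : ζ (w * x) = w • ζ x + x • ζ w := ζ.leibniz w x
    have h2 : (ζ : K →ₗ[ℂ] K) (w * x) = ζ (w * x) := rfl
    have h3 : ζ x = (b : ℂ) • x := hb
    rw [h2, h1, h3, hn, Complex.ofReal_add, add_smul, smul_eq_mul, smul_eq_mul,
      mul_smul_comm, mul_smul_comm, mul_comm x w]
  | zero => rw [mul_zero]; exact Submodule.zero_mem _
  | add x y _ _ hx hy => rw [mul_add]; exact Submodule.add_mem _ hx hy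
  | smul t x _ hx => rw [mul_smul_comm]; exact Submodule.smul_mem _ t hx

end N2

open N2 in
theorem exists_hbasis {R : Subalgebra ℂ K} {ζ : Derivation ℂ K K} (h : NCone R ζ) {d N : ℕ}
    {z : Fin d → K} (hN : 0 < N) (hz : ∀ i, z i ∈ R ∧ ζ (z i) = (((N : ℝ)) : ℂ) • z i)
    (hind : AlgebraicIndependent ℂ z)
    (hint : ∀ x ∈ R, IsIntegral (Algebra.adjoin ℂ (Set.range z)) x) (hCM : CM d R) :
    ∃ (r : ℕ) (e : Fin r → K) (ε : Fin r → ℕ), NB R ζ d N r z e ε := by
  classical
  have hzR : ∀ i, z i ∈ R := fun i => (hz i).1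
  obtain ⟨r, e', he'R, he'⟩ := hCM z hzR hind hint
  have hinj : ∀ p q : Fin r → MvPolynomial (Fin d) ℂ, cb z e' p = cb z e' q → p = q := by
    intro p q hpq
    exact (he' (cb z e' p) (cb_mem hzR he'R p)).unique rfl hpq
  have hsurj : ∀ x ∈ R, ∃ p : Fin r → MvPolynomial (Fin d) ℂ, cb z e' p = x := by
    intro x hx
    obtain ⟨p, hp, -⟩ := he' x hx
    exact ⟨p, hp.symm⟩
  -- homogeneous elements whose classes span
  set S : Set (Fin r → ℂ) := {v | ∃ p : Fin r → MvPolynomial (Fin d) ℂ,
    (∃ c : ℝ, ζ (cb z e' p) = (c : ℂ) • cb z e' p) ∧ v = cc p} with hS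
  have hSspan : Submodule.span ℂ S = ⊤ := by
    rw [eq_top_iff]
    rintro v -
    have key : ∀ y ∈ RH R ζ (fun c => 0 ≤ c), ∃ p : Fin r → MvPolynomial (Fin d) ℂ,
        cb z e' p = y ∧ cc p ∈ Submodule.span ℂ S := by
      intro y hy
      induction hy using Submodule.span_induction with
      | mem x hx =>
        obtain ⟨hxR, c, -, hc⟩ := hx
        obtain ⟨p, rfl⟩ := hsurj x hxR
        exact ⟨p, rfl, Submodule.subset_span ⟨p, ⟨c, hc⟩, rfl⟩⟩
      | zero =>
        refine ⟨0, cb_zero, ?_⟩
        have h0 : cc (0 : Fin r → MvPolynomial (Fin d) ℂ) = 0 := by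
          funext l
          exact map_zero _
        rw [h0]
        exact Submodule.zero_mem _
      | add x y _ _ hx hy =>
        obtain ⟨p, hp, hp'⟩ := hx
        obtain ⟨q, hq, hq'⟩ := hy
        refine ⟨p + q, by rw [cb_add, hp, hq], ?_⟩
        have h0 : cc (p + q) = cc p + cc q := by
          funext l
          exact map_add _ _ _
        rw [h0]
        exact Submodule.add_mem _ hp' hq'
      | smul t x _ hx =>
        obtain ⟨p, hp, hp'⟩ := hx
        refine ⟨t • p, by rw [cb_smul, hp], ?_⟩
        have h0 : cc (t • p) = t • cc p := by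
          funext l
          show MvPolynomial.constantCoeff (t • p l) = t • MvPolynomial.constantCoeff (p l)
          rw [MvPolynomial.smul_eq_C_mul, map_mul, MvPolynomial.constantCoeff_C, smul_eq_mul]
        rw [h0]
        exact Submodule.smul_mem _ t hp'
    obtain ⟨p, hp, hp'⟩ := key _ (h.span _ (cb_mem hzR he'R (fun l => MvPolynomial.C (v l))))
    have h1 := hinj _ _ hp
    have h2 : cc p = v := by
      rw [h1]
      funext l
      exact MvPolynomial.constantCoeff_C _ _
    rw [← h2]
    exact hp'
  obtain ⟨f, hfS, hf⟩ := exists_span hSspan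
  choose q hq hqf using hfS
  choose ε' hε' using hq
  set e : Fin r → K := fun l => cb z e' (q l) with he
  have heR : ∀ l, e l ∈ R := fun l => cb_mem hzR he'R (q l)
  have hdeg : ∀ l, ∃ m : ℕ, ζ (e l) = (((m : ℝ)) : ℂ) • e l := by
    intro l
    by_cases h0 : e l = 0
    · exact ⟨0, by rw [h0, map_zero, smul_zero]⟩
    · obtain ⟨m, hm⟩ := h.int (e l) (heR l) h0 (ε' l) (hε' l)
      refine ⟨m, ?_⟩
      have h1 := hε' l
      rw [hm] at h1
      exact h1
  choose ε hε using hdeg
  -- they generate
  have hgen1 : ∀ m : ℕ, ∀ x ∈ R, ζ x = (((m : ℝ)) : ℂ) • x →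
      ∃ p : Fin r → MvPolynomial (Fin d) ℂ, cb z e p = x := by
    intro m
    induction m using Nat.strong_induction_on with
    | _ m ih =>
      intro x hxR hx
      obtain ⟨p, hp⟩ := hsurj x hxR
      have h1 : cc p ∈ Submodule.span ℂ (Set.range f) := by
        rw [hf]
        exact Submodule.mem_top
      obtain ⟨c, hc⟩ := (Submodule.mem_span_range_iff_exists_fun ℂ).1 h1
      -- the rest
      have h2 : ∀ l, ∃ g : Fin d → MvPolynomial (Fin d) ℂ,
          (p - ∑ j, c j • q j) l = ∑ i, MvPolynomial.X i * g i := by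
        intro l
        obtain ⟨g, hg⟩ := exists_parts ((p - ∑ j, c j • q j) l)
        refine ⟨g, ?_⟩
        have h3 : MvPolynomial.constantCoeff ((p - ∑ j, c j • q j) l) = 0 := by
          have h4 : MvPolynomial.constantCoeff (p l) = ∑ j, c j * f j l := by
            have h5 := congrFun hc l
            rw [Finset.sum_apply] at h5
            exact h5.symm
          rw [Pi.sub_apply, map_sub, h4, Finset.sum_apply, map_sum, sub_eq_zero]
          refine Finset.sum_congr rfl fun j _ => ?_
          rw [Pi.smul_apply, MvPolynomial.smul_eq_C_mul, map_mul, MvPolynomial.constantCoeff_C,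
            hqf j]
          rfl
        rw [h3, map_zero, zero_add] at hg
        exact hg
      choose g hg using h2
      have h3 : x = ∑ j, c j • e j + ∑ i, z i * cb z e' (fun l => g l i) := by
        have h4 : x - ∑ j, c j • e j = cb z e' (p - ∑ j, c j • q j) := by
          have h5 : p = (p - ∑ j, c j • q j) + ∑ j, c j • q j := by abel
          rw [← hp]
          nth_rw 1 [h5]
          rw [cb_add, cb_sum]
          have h6 : ∑ j, cb z e' (c j • q j) = ∑ j, c j • e j :=
            Finset.sum_congr rfl fun j _ => cb_smul _ _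
          rw [h6]
          abel
        have h5 : cb z e' (p - ∑ j, c j • q j) = ∑ i, z i * cb z e' (fun l => g l i) := by
          have h6 : (p - ∑ j, c j • q j) = ∑ i, (fun l => MvPolynomial.X i * g l i) := by
            funext l
            rw [hg l, Finset.sum_apply]
          rw [h6, cb_sum]
          refine Finset.sum_congr rfl fun i _ => ?_
          rw [cb_mul, MvPolynomial.aeval_X]
        rw [← h5, ← h4]
        abel
      -- components
      have hyR : ∀ i, cb z e' (fun l => g l i) ∈ R := fun i => cb_mem hzR he'R _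
      choose a haR ha1 ha2 using fun i =>
        exists_comp h.toIsCone ((m : ℝ) - N) (hyR i)
      have h4 : ∀ i, ∃ p : Fin r → MvPolynomial (Fin d) ℂ, cb z e p = a i := by
        intro i
        by_cases h0 : a i = 0
        · exact ⟨0, by rw [cb_zero, h0]⟩
        · obtain ⟨m', hm'⟩ := h.int (a i) (haR i) h0 _ (ha1 i)
          refine ih m' ?_ (a i) (haR i) ?_
          · have h5 : (m' : ℝ) < m := by
              rw [← hm']
              have : (0 : ℝ) < N := by exact_mod_cast hN
              linarith
            exact_mod_cast h5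
          · rw [← hm']
            exact ha1 i
      choose pa hpa using h4
      have h5 : x = ∑ j, (if ε j = m then c j else 0) • e j + ∑ i, z i * a i := by
        have h6 : x - (∑ j, (if ε j = m then c j else 0) • e j + ∑ i, z i * a i) ∈
            RH R ζ (fun b => b ≠ (m : ℝ)) := by
          have h7 : x - (∑ j, (if ε j = m then c j else 0) • e j + ∑ i, z i * a i) =
              ∑ j, (c j - if ε j = m then c j else 0) • e j +
              ∑ i, z i * (cb z e' (fun l => g l i) - a i) := by
            have h8 : ∑ j, (c j - if ε j = m then c j else 0) • e j =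
                ∑ j, c j • e j - ∑ j, (if ε j = m then c j else 0) • e j := by
              rw [← Finset.sum_sub_distrib]
              exact Finset.sum_congr rfl fun j _ => sub_smul _ _ _
            have h9 : ∑ i, z i * (cb z e' (fun l => g l i) - a i) =
                ∑ i, z i * cb z e' (fun l => g l i) - ∑ i, z i * a i := by
              rw [← Finset.sum_sub_distrib]
              exact Finset.sum_congr rfl fun i _ => mul_sub _ _ _
            rw [h8, h9]
            nth_rw 1 [h3]
            abel
          rw [h7]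
          refine Submodule.add_mem _ (Submodule.sum_mem _ fun j _ => ?_)
            (Submodule.sum_mem _ fun i _ => ?_)
          · by_cases hj : ε j = m
            · rw [if_pos hj, sub_self, zero_smul]
              exact Submodule.zero_mem _
            · refine Submodule.smul_mem _ _ (mem_hsp (c := ((ε j : ℕ) : ℝ)) (heR j) ?_ (hε j))
              intro hc'
              exact hj (by exact_mod_cast hc')
          · have h10 := mul_comp (hzR i) (hz i).2 (ha2 i)
            have h11 : (m : ℝ) - N + N = m := by ring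
            rw [h11] at h10
            exact h10
        have h7 : ζ (x - (∑ j, (if ε j = m then c j else 0) • e j + ∑ i, z i * a i)) =
            (((m : ℝ)) : ℂ) •
              (x - (∑ j, (if ε j = m then c j else 0) • e j + ∑ i, z i * a i)) := by
          have h8 : ∀ j, ζ ((if ε j = m then c j else 0) • e j) =
              (((m : ℝ)) : ℂ) • ((if ε j = m then c j else 0) • e j) := by
            intro j
            by_cases hj : ε j = m
            · rw [if_pos hj, Derivation.map_smul, hε j, hj, smul_comm]
            · rw [if_neg hj, zero_smul, map_zero, smul_zero]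
          have h9 : ∀ i, ζ (z i * a i) = (((m : ℝ)) : ℂ) • (z i * a i) := by
            intro i
            have h10 : ζ (z i * a i) = z i • ζ (a i) + a i • ζ (z i) := ζ.leibniz _ _
            rw [h10, ha1 i, (hz i).2, smul_eq_mul, smul_eq_mul, mul_smul_comm, mul_smul_comm,
              mul_comm (a i) (z i), ← add_smul, ← Complex.ofReal_add]
            congr 2
            ring
          rw [map_sub, map_add, map_sum, map_sum, hx, smul_sub, smul_add, Finset.smul_sum,
            Finset.smul_sum]
          congr 1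
          congr 1
          · exact Finset.sum_congr rfl fun j _ => h8 j
          · exact Finset.sum_congr rfl fun i _ => h9 i
        by_contra hne
        exact prop_of_mem_hsp (sub_ne_zero.mpr hne) h7 h6 rfl
      refine ⟨(fun l => MvPolynomial.C (if ε l = m then c l else 0)) +
        ∑ i, (fun l => MvPolynomial.X i * pa i l), ?_⟩
      rw [cb_add, cb_sum, h5]
      congr 1
      · unfold cb
        refine Finset.sum_congr rfl fun l _ => ?_
        rw [MvPolynomial.aeval_C, Algebra.smul_def]
      · refine Finset.sum_congr rfl fun i _ => ?_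
        rw [cb_mul, MvPolynomial.aeval_X, hpa i]
  have hgen : ∀ x ∈ R, ∃ p : Fin r → MvPolynomial (Fin d) ℂ, cb z e p = x := by
    intro x hx
    have h1 := h.span x hx
    induction h1 using Submodule.span_induction with
    | mem y hy =>
      obtain ⟨hyR, c, -, hc⟩ := hy
      by_cases h0 : y = 0
      · exact ⟨0, by rw [cb_zero, h0]⟩
      · obtain ⟨m, hm⟩ := h.int y hyR h0 c hc
        refine hgen1 m y hyR ?_
        rw [← hm]
        exact hc
    | zero => exact ⟨0, cb_zero⟩
    | add x y hx0 hy0 hx' hy' =>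
      obtain ⟨p, hp⟩ := hx' (hsp_le hx0)
      obtain ⟨q, hq⟩ := hy' (hsp_le hy0)
      exact ⟨p + q, by rw [cb_add, hp, hq]⟩
    | smul t x hx0 hx' =>
      obtain ⟨p, hp⟩ := hx' (hsp_le hx0)
      exact ⟨t • p, by rw [cb_smul, hp]⟩
  -- the change of basis
  set Ψ : (Fin r → MvPolynomial (Fin d) ℂ) →ₗ[MvPolynomial (Fin d) ℂ]
      (Fin r → MvPolynomial (Fin d) ℂ) := Matrix.vecMulLinear (Matrix.of q) with hΨ
  have hΨ1 : ∀ p, cb z e' (Ψ p) = cb z e p := by
    intro p
    have h1 : Ψ p = ∑ l, (fun k => p l * q l k) := by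
      funext k
      rw [hΨ, Matrix.vecMulLinear_apply, Finset.sum_apply]
      rfl
    rw [h1, cb_sum]
    unfold cb
    refine Finset.sum_congr rfl fun l _ => ?_
    exact cb_mul (e := e') (p l) (q l)
  have hΨs : Function.Surjective Ψ := by
    intro p
    obtain ⟨p', hp'⟩ := hgen _ (cb_mem hzR he'R p)
    refine ⟨p', hinj _ _ ?_⟩
    rw [hΨ1, hp']
  have hΨi : Function.Injective Ψ := OrzechProperty.injective_of_surjective_endomorphism Ψ hΨs
  refine ⟨r, e, ε, hN, hzR, fun i => (hz i).2, hind, hint, heR, hε, fun x hx => ?_⟩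
  obtain ⟨p, hp⟩ := hgen x hx
  refine ⟨p, hp.symm, fun p' hp' => ?_⟩
  apply hΨi
  apply hinj
  rw [hΨ1, hΨ1, hp]
  exact hp'.symm

end Pool.Agent.Helper20.TS
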