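import Pool.Agent.Helper20.TS.A1
import Pool.Agent.Helper20.TS.A2
import Pool.Agent.Helper20.TS.N1
import Pool.Agent.Helper20.TS.N2

/-!
# TS-A3: the limits for a cone with integral degrees

Plan: `exists_noether` gives `d'`, `N`, `z`; `finite_Fz`, `exists_zframe`, `frame_rank` give
`d' = d`; `exists_hbasis` gives `e`, `r` (`r > 0` since `K ≠ 0`, by `NB.rank`).  Put
`κ = N r (1 / N) ^ (d + 1) / ((d + 1) (d - 1)!)` and `κ' = r (1 / N) ^ d / d!`.  Use `finrank_eq`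
and `Cn_lim` for the last limit.  Use `qTr_eq`, `Sg_lim`, `Cn_lim` for `Y = J ζ` with the constants
of `exists_const` (`J ζ` is a derivation of `R` commuting with `ζ`), and for `Y = ζ` with
`exists_const` for `J = 1` (`t = d`).
-/

set_option autoImplicit false

namespace Pool.Agent.Helper20.TS

open Module Filter Topology Pool.Agent.Helper37.SD

variable {K : Type} [Field K] [Algebra ℂ K]

private theorem A3_lim {R : Subalgebra ℂ K} {ζ : Derivation ℂ K K} (h : NCone R ζ) {w : RVal K}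
    (hw : IsWt R ζ w) {d N r : ℕ} {z : Fin d → K} {e : Fin r → K} {ε : Fin r → ℕ}
    (hb : NB R ζ d N r z e ε) (hd : 0 < d) {Y : Derivation ℂ K K} (hY : Pres R Y)
    (hY0 : ⁅ζ, Y⁆ = 0) {c : Fin d → Fin d → ℂ} (hc : ∀ i, trz z (Y (z i)) = ∑ j, c i j • z j) :
    Tendsto (fun m : ℝ => qTr R w Y m / ((m : ℂ)) ^ (d + 1)) atTop
      (𝓝 ((∑ i, c i i) / d *
        (((1 / (N : ℝ)) ^ (d + 1) / ((d + 1) * ((d - 1).factorial : ℝ)) : ℝ) : ℂ))) := by
  obtain ⟨s, y, hs, hq⟩ := qTr_eq h hw hb hd hY hY0 hc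
  set A : ℝ := (1 / (N : ℝ)) ^ (d + 1) / ((d + 1) * ((d - 1).factorial : ℝ)) with hA
  set B : ℝ := (1 / (N : ℝ)) ^ d / (d.factorial : ℝ) with hB
  have h1 : ∀ l : Fin r, Tendsto (fun m : ℝ =>
      s l / d * (((Sg d ⌈(m - ε l) / N⌉₊ : ℝ) / m ^ (d + 1) : ℝ) : ℂ) +
        y l * ((((Cn d ⌈(m - ε l) / N⌉₊ : ℝ) / m ^ d) * m⁻¹ : ℝ) : ℂ)) atTop
      (𝓝 (s l / d * ((A : ℝ) : ℂ) + y l * ((B * 0 : ℝ) : ℂ))) := by
    intro l
    refine Tendsto.add (Tendsto.const_mul _ ?_) (Tendsto.const_mul _ ?_)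
    · exact (Complex.continuous_ofReal.tendsto _).comp (Sg_lim d N hd hb.pos (ε l))
    · exact (Complex.continuous_ofReal.tendsto _).comp
        ((Cn_lim d N hd hb.pos (ε l)).mul tendsto_inv_atTop_zero)
  have h2 := tendsto_finsetSum (Finset.univ : Finset (Fin r)) fun l _ => h1 l
  have h3 : ∑ l, (s l / d * ((A : ℝ) : ℂ) + y l * ((B * 0 : ℝ) : ℂ)) =
      (∑ i, c i i) / d * ((A : ℝ) : ℂ) := by
    rw [← hs, Finset.sum_div, Finset.sum_mul]
    refine Finset.sum_congr rfl fun l _ => ?_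
    rw [mul_zero, Complex.ofReal_zero, mul_zero, add_zero]
  rw [h3] at h2
  refine h2.congr fun m => ?_
  rw [hq m, Finset.sum_div]
  refine Finset.sum_congr rfl fun l _ => ?_
  push_cast
  rw [add_div, pow_succ, mul_div_assoc, mul_div_assoc, div_mul_eq_div_div _ _ (m : ℂ),
    div_mul_eq_div_div _ _ (m : ℂ), div_eq_mul_inv ((Cn d ⌈(m - ε l) / N⌉₊ : ℂ) / (m : ℂ) ^ d)]

theorem ncone_lim {R : Subalgebra ℂ K} {ζ : Derivation ℂ K K} (h : NCone R ζ) {w : RVal K}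
    (hw : IsWt R ζ w) (hnorm : Normal R) {d : ℕ} (hd : 0 < d) (hCM : CM d R)
    (hrk : finrank K (Derivation ℂ K K) = d)
    (J : Derivation ℂ K K →ₗ[K] Derivation ℂ K K) (hJ : ∀ E, Pres R E → Pres R (J E))
    (hJζ : ∀ E, ⁅ζ, J E⁆ = J ⁅ζ, E⁆) {t : ℂ}
    (ht : LinearMap.trace K (Derivation ℂ K K) J = algebraMap ℂ K t) :
    ∃ κ κ' : ℝ, 0 < κ ∧ 0 < κ' ∧
      Tendsto (fun m : ℝ => qTr R w ζ m / ((m : ℂ)) ^ (d + 1)) atTop (𝓝 ((κ : ℝ) : ℂ)) ∧
      Tendsto (fun m : ℝ => qTr R w (J ζ) m / ((m : ℂ)) ^ (d + 1)) atTop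
        (𝓝 (((κ : ℝ) : ℂ) * t / d)) ∧
      Tendsto (fun m : ℝ => (finrank ℂ (R ⧸ idl R w m) : ℝ) / m ^ d) atTop (𝓝 κ') := by
  classical
  obtain ⟨d', N, z, hN, hz, hind, hint⟩ := exists_noether h
  have hfin := finite_Fz h.frac h.fg z hint
  obtain ⟨D, hD⟩ := exists_zframe hind hfin
  obtain ⟨hfinD, hrk'⟩ := frame_rank hD
  obtain rfl : d' = d := hrk'.symm.trans hrk
  obtain ⟨r, e, ε, hb⟩ := exists_hbasis h hN hz hind hint hCM
  obtain ⟨-, hr⟩ := hb.rank h.frac h.fg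
  have hr0 : 0 < r := by
    rw [← hr]
    exact finrank_pos
  have hN0 : (0 : ℝ) < N := by exact_mod_cast hN
  have hrR : (0 : ℝ) < r := by exact_mod_cast hr0
  have hdC : ((d' : ℕ) : ℂ) ≠ 0 := by exact_mod_cast hd.ne'
  set A : ℝ := (1 / (N : ℝ)) ^ (d' + 1) / ((d' + 1) * ((d' - 1).factorial : ℝ)) with hA
  set B : ℝ := (1 / (N : ℝ)) ^ d' / (d'.factorial : ℝ) with hB
  have hA0 : 0 < A := by positivity
  have hB0 : 0 < B := by positivity
  refine ⟨N * r * A, r * B, by positivity, by positivity, ?_, ?_, ?_⟩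
  · obtain ⟨c, hc, hcs⟩ := exists_const h hnorm hb hD LinearMap.id (fun E hE => hE) (fun E => rfl)
      (t := (d' : ℂ)) (by rw [LinearMap.trace_id, hrk, map_natCast])
    have h1 := A3_lim h hw hb hd h.toIsCone.pres (lie_self ζ) (c := c) hc
    rw [hcs, ← hA] at h1
    have h2 : (N : ℂ) * r * (d' : ℂ) / (d' : ℂ) * (A : ℂ) = (((N * r * A : ℝ)) : ℂ) := by
      push_cast
      rw [mul_div_assoc, div_self hdC, mul_one]
    rwa [h2] at h1
  · obtain ⟨c, hc, hcs⟩ := exists_const h hnorm hb hD J hJ hJζ ht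
    have h0 : ⁅ζ, J ζ⁆ = 0 := by rw [hJζ, lie_self, map_zero]
    have h1 := A3_lim h hw hb hd (hJ ζ h.toIsCone.pres) h0 (c := c) hc
    rw [hcs, ← hA] at h1
    have h2 : (N : ℂ) * r * t / (d' : ℂ) * (A : ℂ) = (((N * r * A : ℝ)) : ℂ) * t / d' := by
      push_cast
      ring
    rwa [h2] at h1
  · have h1 : Tendsto (fun m : ℝ => ∑ l : Fin r, (Cn d' ⌈(m - ε l) / N⌉₊ : ℝ) / m ^ d') atTop
        (𝓝 (∑ _l : Fin r, B)) :=
      tendsto_finsetSum _ fun l _ => Cn_lim d' N hd hN (ε l)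
    rw [Finset.sum_const, Finset.card_univ, Fintype.card_fin, nsmul_eq_mul] at h1
    refine h1.congr fun m => ?_
    rw [finrank_eq h hw hb m, Nat.cast_sum, Finset.sum_div]

end Pool.Agent.Helper20.TS
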