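import Pool.Agent.Helper20.TS.Df

/-!
# TS-AN: passage from rational to real weights

Pure analysis.  Write `φ c = ∑ k, q k * lam k c`, `H m = ∑ c ∈ s m, h c`,
`G c = ∑ k, e k T k c - (t / d) c h c` and `G_q c = ∑ k, q k T k c - (t / d) φ c h c`.
For `|q k - e k| ≤ δ ≤ δ₀` and `ε = r C δ ≤ 1 / 4` we have on `S`: `|φ c - c| ≤ ε c`,
`‖G c - G_q c‖ ≤ C₁ δ c h c`, `‖G_q c‖ ≤ C₂ c h c` with constants independent of `q`, `δ`.
(1) `∑ c ∈ sq m, G_q c = o(m ^ (d + 1))` by the two limits of `hq`.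
(2) The symmetric difference of `s m` and `sq m` lies in `(1 - 2 ε) m ≤ c < (1 + 2 ε) m`, so the
sums of `G_q` over `s m` and `sq m` differ by at most
`C₂ (1 + 2 ε) m (H ((1 + 2 ε) m) - H ((1 - 2 ε) m))`, and `H x / x ^ d → V` also for real `x`
(monotone).
(3) So `limsup ‖∑ c ∈ s m, G c‖ / m ^ (d + 1) ≤ C₃ δ + C₃ ((1 + 2 ε) ^ d - (1 - 2 ε) ^ d)` for
every `δ`, that is `∑ c ∈ s m, G c = o(m ^ (d + 1))`.
(4) `V > 0`: `H ((1 + 2 ε) m) ≥ ∑ c ∈ sq m, h c ~ κ' m ^ d`.  So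
`∑ c ∈ s m, c h c ≥ (m / 2) (H m - H (m / 2)) ≥ κ'' m ^ (d + 1)` with `κ'' > 0` for large `m`
(`d ≥ 1`).
(5) the quotient is `t / d + (∑ c ∈ s m, G c) / (∑ c ∈ s m, c h c)`.
-/

set_option autoImplicit false

namespace Pool.Agent.Helper20.TS

open Filter Topology

private theorem An_real {f : ℝ → ℝ} (hf : Monotone f) {d : ℕ} {V : ℝ}
    (hV : Tendsto (fun m : ℕ => f m / (m : ℝ) ^ d) atTop (𝓝 V)) :
    Tendsto (fun x : ℝ => f x / x ^ d) atTop (𝓝 V) := by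
  have h1 : Tendsto (fun x : ℝ => f (⌊x⌋₊ : ℕ) / x ^ d) atTop (𝓝 V) := by
    have h2 : Tendsto (fun x : ℝ => f (⌊x⌋₊ : ℕ) / ((⌊x⌋₊ : ℕ) : ℝ) ^ d *
        (((⌊x⌋₊ : ℕ) : ℝ) / x) ^ d) atTop (𝓝 (V * 1 ^ d)) :=
      (hV.comp tendsto_nat_floor_atTop).mul ((tendsto_nat_floor_div_atTop (R := ℝ)).pow d)
    rw [one_pow, mul_one] at h2
    refine h2.congr' ?_
    filter_upwards [eventually_ge_atTop (1 : ℝ)] with x hx
    have h3 : ((⌊x⌋₊ : ℕ) : ℝ) ≠ 0 := by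
      have := Nat.floor_pos.2 hx
      positivity
    have h4 : x ≠ 0 := by positivity
    rw [div_pow]
    field_simp
  have h1' : Tendsto (fun x : ℝ => f (⌈x⌉₊ : ℕ) / x ^ d) atTop (𝓝 V) := by
    have h2 : Tendsto (fun x : ℝ => f (⌈x⌉₊ : ℕ) / ((⌈x⌉₊ : ℕ) : ℝ) ^ d *
        (((⌈x⌉₊ : ℕ) : ℝ) / x) ^ d) atTop (𝓝 (V * 1 ^ d)) :=
      (hV.comp tendsto_nat_ceil_atTop).mul ((tendsto_nat_ceil_div_atTop (R := ℝ)).pow d)
    rw [one_pow, mul_one] at h2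
    refine h2.congr' ?_
    filter_upwards [eventually_ge_atTop (1 : ℝ)] with x hx
    have h3 : ((⌈x⌉₊ : ℕ) : ℝ) ≠ 0 := by
      have := Nat.ceil_pos.2 (lt_of_lt_of_le one_pos hx)
      positivity
    have h4 : x ≠ 0 := by positivity
    rw [div_pow]
    field_simp
  refine tendsto_of_tendsto_of_tendsto_of_le_of_le' h1 h1' ?_ ?_
  · filter_upwards [eventually_ge_atTop (1 : ℝ)] with x hx
    exact div_le_div_of_nonneg_right (hf (Nat.floor_le (by linarith))) (by positivity)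
  · filter_upwards [eventually_ge_atTop (1 : ℝ)] with x hx
    exact div_le_div_of_nonneg_right (hf (Nat.le_ceil x)) (by positivity)

private theorem An_scale {f : ℝ → ℝ} {d : ℕ} {V a : ℝ} (ha : 0 < a)
    (hV : Tendsto (fun x : ℝ => f x / x ^ d) atTop (𝓝 V)) :
    Tendsto (fun x : ℝ => f (a * x) / x ^ d) atTop (𝓝 (V * a ^ d)) := by
  have h1 : Tendsto (fun x : ℝ => f (a * x) / (a * x) ^ d) atTop (𝓝 V) :=
    hV.comp (tendsto_id.const_mul_atTop ha)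
  refine (h1.mul_const (a ^ d)).congr' ?_
  filter_upwards [eventually_ge_atTop (1 : ℝ)] with x hx
  have h4 : x ≠ 0 := by positivity
  rw [mul_pow]
  field_simp

section

variable {r d : ℕ} {S : Set ℝ} {h : ℝ → ℕ} {T : Fin r → ℝ → ℂ} {e : Fin r → ℝ}
  {lam : Fin r → ℝ → ℝ} {C : ℝ}

private theorem An_phi (he : ∀ c ∈ S, c = ∑ k, e k * lam k c)
    (hlam : ∀ k, ∀ c ∈ S, |lam k c| ≤ C * c) {δ : ℝ} (hδ : 0 ≤ δ) (q : Fin r → ℝ)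
    (hq : ∀ k, |q k - e k| ≤ δ) {c : ℝ} (hc : c ∈ S) :
    |(∑ k, q k * lam k c) - c| ≤ (r * C * δ) * c := by
  have h1 : (∑ k, q k * lam k c) - c = ∑ k, (q k - e k) * lam k c := by
    have h2 : ∑ k, (q k - e k) * lam k c = (∑ k, q k * lam k c) - ∑ k, e k * lam k c := by
      rw [← Finset.sum_sub_distrib]
      exact Finset.sum_congr rfl fun k _ => by ring
    rw [h2, ← he c hc]
  rw [h1]
  calc |∑ k, (q k - e k) * lam k c| ≤ ∑ k, |(q k - e k) * lam k c| :=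
        Finset.abs_sum_le_sum_abs _ _
    _ ≤ ∑ _k : Fin r, δ * (C * c) := by
        refine Finset.sum_le_sum fun k _ => ?_
        rw [abs_mul]
        exact mul_le_mul (hq k) (hlam k c hc) (abs_nonneg _) hδ
    _ = (r * C * δ) * c := by
        rw [Finset.sum_const, Finset.card_univ, Fintype.card_fin, nsmul_eq_mul]
        ring

private theorem An_G (hS : ∀ c ∈ S, 0 ≤ c) (he : ∀ c ∈ S, c = ∑ k, e k * lam k c)
    (hlam : ∀ k, ∀ c ∈ S, |lam k c| ≤ C * c)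
    (hT : ∀ k, ∀ c ∈ S, ‖T k c‖ ≤ C * c * (h c : ℝ)) {δ : ℝ} (hδ : 0 ≤ δ) (q : Fin r → ℝ)
    (hq : ∀ k, |q k - e k| ≤ δ) (t : ℂ) {c : ℝ} (hc : c ∈ S) :
    ‖((∑ k, ((e k : ℝ) : ℂ) * T k c) - t * ((c : ℝ) : ℂ) * (h c : ℂ)) -
      ((∑ k, ((q k : ℝ) : ℂ) * T k c) - t * ((∑ k, q k * lam k c : ℝ) : ℂ) * (h c : ℂ))‖ ≤
      (r * C * δ) * (1 + ‖t‖) * (c * h c) := by
  have h0 := hS c hc
  have h1 : ((∑ k, ((e k : ℝ) : ℂ) * T k c) - t * ((c : ℝ) : ℂ) * (h c : ℂ)) -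
      ((∑ k, ((q k : ℝ) : ℂ) * T k c) - t * ((∑ k, q k * lam k c : ℝ) : ℂ) * (h c : ℂ)) =
      (∑ k, ((e k - q k : ℝ) : ℂ) * T k c) +
        t * (((∑ k, q k * lam k c) - c : ℝ) : ℂ) * (h c : ℂ) := by
    have h2 : (∑ k, ((e k - q k : ℝ) : ℂ) * T k c) =
        (∑ k, ((e k : ℝ) : ℂ) * T k c) - ∑ k, ((q k : ℝ) : ℂ) * T k c := by
      rw [← Finset.sum_sub_distrib]
      exact Finset.sum_congr rfl fun k _ => by push_cast; ring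
    rw [h2, Complex.ofReal_sub (∑ k, q k * lam k c) c]
    ring
  rw [h1]
  have h3 : ‖∑ k, ((e k - q k : ℝ) : ℂ) * T k c‖ ≤ (r * C * δ) * (c * h c) := by
    calc ‖∑ k, ((e k - q k : ℝ) : ℂ) * T k c‖ ≤ ∑ k, ‖((e k - q k : ℝ) : ℂ) * T k c‖ :=
          norm_sum_le _ _
      _ ≤ ∑ _k : Fin r, δ * (C * c * (h c : ℝ)) := by
          refine Finset.sum_le_sum fun k _ => ?_
          rw [norm_mul, Complex.norm_real, Real.norm_eq_abs, abs_sub_comm]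
          exact mul_le_mul (hq k) (hT k c hc) (norm_nonneg _) hδ
      _ = (r * C * δ) * (c * h c) := by
          rw [Finset.sum_const, Finset.card_univ, Fintype.card_fin, nsmul_eq_mul]
          ring
  have h4 : ‖t * (((∑ k, q k * lam k c) - c : ℝ) : ℂ) * (h c : ℂ)‖ ≤
      (r * C * δ) * ‖t‖ * (c * h c) := by
    rw [norm_mul, norm_mul, Complex.norm_real, Complex.norm_natCast, Real.norm_eq_abs]
    have h5 := An_phi he hlam hδ q hq hc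
    calc ‖t‖ * |(∑ k, q k * lam k c) - c| * (h c : ℝ) ≤ ‖t‖ * ((r * C * δ) * c) * (h c : ℝ) := by
          gcongr
      _ = _ := by ring
  calc _ ≤ _ := norm_add_le _ _
    _ ≤ (r * C * δ) * (c * h c) + (r * C * δ) * ‖t‖ * (c * h c) := add_le_add h3 h4
    _ = _ := by ring

private theorem An_Gq (hS : ∀ c ∈ S, 0 ≤ c) (he : ∀ c ∈ S, c = ∑ k, e k * lam k c)
    (hlam : ∀ k, ∀ c ∈ S, |lam k c| ≤ C * c)
    (hT : ∀ k, ∀ c ∈ S, ‖T k c‖ ≤ C * c * (h c : ℝ)) {δ : ℝ} (hδ : 0 ≤ δ) (hδ1 : r * C * δ ≤ 1 / 4)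
    {δ₀ : ℝ} (hδ0 : δ ≤ δ₀) (q : Fin r → ℝ)
    (hq : ∀ k, |q k - e k| ≤ δ) (t : ℂ) {c : ℝ} (hc : c ∈ S) :
    ‖(∑ k, ((q k : ℝ) : ℂ) * T k c) - t * ((∑ k, q k * lam k c : ℝ) : ℂ) * (h c : ℂ)‖ ≤
      ((∑ k, (|e k| + δ₀)) * C + 2 * ‖t‖) * (c * h c) := by
  have h0 := hS c hc
  have h3 : ‖∑ k, ((q k : ℝ) : ℂ) * T k c‖ ≤ ((∑ k, (|e k| + δ₀)) * C) * (c * h c) := by
    calc ‖∑ k, ((q k : ℝ) : ℂ) * T k c‖ ≤ ∑ k, ‖((q k : ℝ) : ℂ) * T k c‖ :=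
          norm_sum_le _ _
      _ ≤ ∑ k, (|e k| + δ₀) * (C * c * (h c : ℝ)) := by
          refine Finset.sum_le_sum fun k _ => ?_
          rw [norm_mul, Complex.norm_real, Real.norm_eq_abs]
          have h6 : |q k| ≤ |e k| + δ₀ := by
            have h7 : |q k| ≤ |e k| + |q k - e k| := by
              have := abs_add_le (e k) (q k - e k)
              rwa [add_sub_cancel] at this
            linarith [hq k]
          exact mul_le_mul h6 (hT k c hc) (norm_nonneg _) ((abs_nonneg _).trans h6)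
      _ = _ := by
          rw [← Finset.sum_mul]
          ring
  have h4 : ‖t * ((∑ k, q k * lam k c : ℝ) : ℂ) * (h c : ℂ)‖ ≤ 2 * ‖t‖ * (c * h c) := by
    rw [norm_mul, norm_mul, Complex.norm_real, Complex.norm_natCast, Real.norm_eq_abs]
    have h5 := An_phi he hlam hδ q hq hc
    have h6 : |∑ k, q k * lam k c| ≤ 2 * c := by
      have h7 : |∑ k, q k * lam k c| ≤ |c| + |(∑ k, q k * lam k c) - c| := by
        have := abs_add_le c ((∑ k, q k * lam k c) - c)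
        rwa [add_sub_cancel] at this
      rw [abs_of_nonneg h0] at h7
      have h8 : (r * C * δ) * c ≤ 1 / 4 * c := mul_le_mul_of_nonneg_right hδ1 h0
      linarith
    calc ‖t‖ * |∑ k, q k * lam k c| * (h c : ℝ) ≤ ‖t‖ * (2 * c) * (h c : ℝ) := by
          gcongr
      _ = _ := by ring
  calc _ ≤ _ := norm_sub_le _ _
    _ ≤ ((∑ k, (|e k| + δ₀)) * C) * (c * h c) + 2 * ‖t‖ * (c * h c) := add_le_add h3 h4
    _ = _ := by ring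

end

section

variable {S : Set ℝ} {h : ℝ → ℕ} {s sq : ℝ → Finset ℝ}

private theorem An_sub (hs : ∀ m c, c ∈ s m ↔ c ∈ S ∧ c < m) {a b : ℝ} (hab : a ≤ b) :
    s a ⊆ s b := by
  intro c hc
  rw [hs] at hc ⊢
  exact ⟨hc.1, hc.2.trans_le hab⟩

private theorem An_diff (hs : ∀ m c, c ∈ s m ↔ c ∈ S ∧ c < m) {a b : ℝ} (hab : a ≤ b) :
    ∑ c ∈ s b \ s a, (h c : ℝ) = (∑ c ∈ s b, (h c : ℝ)) - ∑ c ∈ s a, (h c : ℝ) :=
  Finset.sum_sdiff_eq_sub (An_sub hs hab)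

private theorem An_part {A B : Finset ℝ} (hAB : A ⊆ B)
    {y : ℝ} (hy : 0 ≤ y) (hA : ∀ c ∈ A, c ∈ S ∧ c ≤ y) (Gq : ℝ → ℂ) {C₂ : ℝ} (hC₂ : 0 ≤ C₂)
    (hGq : ∀ c ∈ S, ‖Gq c‖ ≤ C₂ * (c * h c)) :
    ‖∑ c ∈ A, Gq c‖ ≤ C₂ * y * ∑ c ∈ B, (h c : ℝ) := by
  calc ‖∑ c ∈ A, Gq c‖ ≤ ∑ c ∈ A, ‖Gq c‖ := norm_sum_le _ _
    _ ≤ ∑ c ∈ A, C₂ * y * (h c : ℝ) := by
        refine Finset.sum_le_sum fun c hc => ?_
        obtain ⟨h1, h2⟩ := hA c hc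
        refine (hGq c h1).trans ?_
        rw [mul_assoc]
        gcongr
    _ = C₂ * y * ∑ c ∈ A, (h c : ℝ) := by rw [Finset.mul_sum]
    _ ≤ _ := by
        refine mul_le_mul_of_nonneg_left ?_ (by positivity)
        exact Finset.sum_le_sum_of_subset_of_nonneg hAB fun _ _ _ => Nat.cast_nonneg _

private theorem An_bound (hS : ∀ c ∈ S, 0 ≤ c) (hs : ∀ m c, c ∈ s m ↔ c ∈ S ∧ c < m)
    {φ : ℝ → ℝ} {ε : ℝ} (hε0 : 0 ≤ ε) (hε : ε ≤ 1 / 4) (hφ : ∀ c ∈ S, |φ c - c| ≤ ε * c)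
    (hsq : ∀ m c, c ∈ sq m ↔ c ∈ S ∧ φ c < m) (G Gq : ℝ → ℂ) {C₂ C₃ : ℝ} (hC₂ : 0 ≤ C₂)
    (hGq : ∀ c ∈ S, ‖Gq c‖ ≤ C₂ * (c * h c)) (hC₃ : 0 ≤ C₃)
    (hG : ∀ c ∈ S, ‖G c - Gq c‖ ≤ C₃ * (c * h c)) {x : ℝ} (hx : 0 < x) :
    ‖∑ c ∈ s x, G c‖ ≤ ‖∑ c ∈ sq x, Gq c‖ +
      C₂ * ((1 + 2 * ε) * x) * ((∑ c ∈ s ((1 + 2 * ε) * x), (h c : ℝ)) -
        ∑ c ∈ s ((1 - 2 * ε) * x), (h c : ℝ)) + C₃ * x * ∑ c ∈ s x, (h c : ℝ) := by
  have e1 : ∑ c ∈ s x, G c = ∑ c ∈ sq x, Gq c +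
      (∑ c ∈ s x \ sq x, Gq c - ∑ c ∈ sq x \ s x, Gq c) + ∑ c ∈ s x, (G c - Gq c) := by
    rw [Finset.sum_sdiff_sub_sum_sdiff, Finset.sum_sub_distrib]
    ring
  have hx0 := hx.le
  have hx1 : x ≤ (1 + 2 * ε) * x := by nlinarith
  have hx2 : (1 - 2 * ε) * x ≤ x := by nlinarith
  have e2 : ‖∑ c ∈ s x \ sq x, Gq c‖ ≤ C₂ * ((1 + 2 * ε) * x) *
      ∑ c ∈ s x \ s ((1 - 2 * ε) * x), (h c : ℝ) := by
    refine An_part ?_ (by positivity) ?_ Gq hC₂ hGq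
    · intro c hc
      rw [Finset.mem_sdiff, hs, hsq] at hc
      rw [Finset.mem_sdiff, hs, hs]
      refine ⟨hc.1, fun h1 => hc.2 ⟨hc.1.1, ?_⟩⟩
      have h2 := abs_le.1 (hφ c hc.1.1)
      have h3 := hS c hc.1.1
      have h4 : φ c ≤ (1 + ε) * c := by linarith [h2.2]
      have h5 : (1 + ε) * c < (1 + ε) * ((1 - 2 * ε) * x) := by
        have := h1.2
        exact mul_lt_mul_of_pos_left this (by positivity)
      have h6 : (1 + ε) * ((1 - 2 * ε) * x) ≤ x := by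
        have h7 : (1 + ε) * (1 - 2 * ε) ≤ 1 := by nlinarith
        calc (1 + ε) * ((1 - 2 * ε) * x) = ((1 + ε) * (1 - 2 * ε)) * x := by ring
          _ ≤ 1 * x := mul_le_mul_of_nonneg_right h7 hx0
          _ = x := one_mul x
      linarith
    · intro c hc
      rw [Finset.mem_sdiff, hs] at hc
      exact ⟨hc.1.1, hc.1.2.le.trans hx1⟩
  have e3 : ‖∑ c ∈ sq x \ s x, Gq c‖ ≤ C₂ * ((1 + 2 * ε) * x) *
      ∑ c ∈ s ((1 + 2 * ε) * x) \ s x, (h c : ℝ) := by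
    have h8 : ∀ c, c ∈ S → φ c < x → c < (1 + 2 * ε) * x := by
      intro c hc h1
      have h2 := abs_le.1 (hφ c hc)
      have h3 := hS c hc
      by_contra h4
      rw [not_lt] at h4
      have h5 : (1 - ε) * c ≤ φ c := by linarith [h2.1]
      have h6 : (1 - ε) * ((1 + 2 * ε) * x) ≤ (1 - ε) * c :=
        mul_le_mul_of_nonneg_left h4 (by linarith)
      have h7 : 1 ≤ (1 - ε) * (1 + 2 * ε) := by nlinarith
      have h9 : x ≤ (1 - ε) * ((1 + 2 * ε) * x) := by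
        calc x = 1 * x := (one_mul x).symm
          _ ≤ ((1 - ε) * (1 + 2 * ε)) * x := mul_le_mul_of_nonneg_right h7 hx0
          _ = _ := by ring
      linarith
    refine An_part ?_ (by positivity) ?_ Gq hC₂ hGq
    · intro c hc
      rw [Finset.mem_sdiff, hs, hsq] at hc
      rw [Finset.mem_sdiff, hs, hs]
      exact ⟨⟨hc.1.1, h8 c hc.1.1 hc.1.2⟩, hc.2⟩
    · intro c hc
      rw [Finset.mem_sdiff, hsq] at hc
      exact ⟨hc.1.1, (h8 c hc.1.1 hc.1.2).le⟩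
  have e4 : ‖∑ c ∈ s x, (G c - Gq c)‖ ≤ C₃ * x * ∑ c ∈ s x, (h c : ℝ) := by
    refine An_part (Finset.Subset.refl _) hx0 ?_ (fun c => G c - Gq c) hC₃ hG
    intro c hc
    rw [hs] at hc
    exact ⟨hc.1, hc.2.le⟩
  rw [An_diff hs hx2] at e2
  rw [An_diff hs hx1] at e3
  rw [e1]
  calc _ ≤ ‖∑ c ∈ sq x, Gq c + (∑ c ∈ s x \ sq x, Gq c - ∑ c ∈ sq x \ s x, Gq c)‖ +
        ‖∑ c ∈ s x, (G c - Gq c)‖ := norm_add_le _ _
    _ ≤ ‖∑ c ∈ sq x, Gq c‖ + ‖∑ c ∈ s x \ sq x, Gq c - ∑ c ∈ sq x \ s x, Gq c‖ +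
        ‖∑ c ∈ s x, (G c - Gq c)‖ := by
        gcongr
        exact norm_add_le _ _
    _ ≤ ‖∑ c ∈ sq x, Gq c‖ + (‖∑ c ∈ s x \ sq x, Gq c‖ + ‖∑ c ∈ sq x \ s x, Gq c‖) +
        ‖∑ c ∈ s x, (G c - Gq c)‖ := by
        gcongr
        exact norm_sub_le _ _
    _ ≤ _ := by linarith

/-- the denominator -/
private theorem An_den (hS : ∀ c ∈ S, 0 ≤ c) (hs : ∀ m c, c ∈ s m ↔ c ∈ S ∧ c < m) {d : ℕ}
    (hd : 0 < d) {V : ℝ} (hV0 : 0 < V)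
    (hV : Tendsto (fun x : ℝ => (∑ c ∈ s x, (h c : ℝ)) / x ^ d) atTop (𝓝 V)) :
    ∃ κ : ℝ, 0 < κ ∧ ∀ᶠ x : ℝ in atTop, κ * x ^ (d + 1) ≤ ∑ c ∈ s x, c * (h c : ℝ) := by
  have h1 : (1 / 2 : ℝ) ^ d < 1 := pow_lt_one₀ (by norm_num) (by norm_num) hd.ne'
  have h2 : 0 < V * (1 - (1 / 2 : ℝ) ^ d) := mul_pos hV0 (by linarith)
  refine ⟨V * (1 - (1 / 2 : ℝ) ^ d) / 4, by linarith, ?_⟩
  have h3 : Tendsto (fun x : ℝ => (∑ c ∈ s x, (h c : ℝ)) / x ^ d -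
      (∑ c ∈ s (1 / 2 * x), (h c : ℝ)) / x ^ d) atTop (𝓝 (V - V * (1 / 2 : ℝ) ^ d)) :=
    hV.sub (An_scale (by norm_num) hV)
  have h4 : V * (1 - (1 / 2 : ℝ) ^ d) / 2 < V - V * (1 / 2 : ℝ) ^ d := by linarith
  filter_upwards [h3.eventually (lt_mem_nhds h4), eventually_gt_atTop (0 : ℝ)] with x h5 hx
  have h6 : (∑ c ∈ s x \ s (1 / 2 * x), (1 / 2 * x) * (h c : ℝ)) ≤
      ∑ c ∈ s x, c * (h c : ℝ) := by
    calc _ ≤ ∑ c ∈ s x \ s (1 / 2 * x), c * (h c : ℝ) := by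
          refine Finset.sum_le_sum fun c hc => ?_
          rw [Finset.mem_sdiff, hs, hs] at hc
          refine mul_le_mul_of_nonneg_right ?_ (Nat.cast_nonneg _)
          by_contra h7
          rw [not_le] at h7
          exact hc.2 ⟨hc.1.1, h7⟩
      _ ≤ _ := Finset.sum_le_sum_of_subset_of_nonneg Finset.sdiff_subset fun c hc _ =>
          mul_nonneg (hS c ((hs _ _).1 hc).1) (Nat.cast_nonneg _)
  rw [← Finset.mul_sum, An_diff hs (by linarith)] at h6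
  refine le_trans ?_ h6
  have h8 : V * (1 - (1 / 2 : ℝ) ^ d) / 2 * x ^ d ≤
      (∑ c ∈ s x, (h c : ℝ)) - ∑ c ∈ s (1 / 2 * x), (h c : ℝ) := by
    rw [← sub_div, lt_div_iff₀ (by positivity)] at h5
    exact h5.le
  calc V * (1 - (1 / 2 : ℝ) ^ d) / 4 * x ^ (d + 1) =
      1 / 2 * x * (V * (1 - (1 / 2 : ℝ) ^ d) / 2 * x ^ d) := by ring
    _ ≤ _ := mul_le_mul_of_nonneg_left h8 (by positivity)

end

private theorem An_alg {x : ℝ} (hx : 0 < x) (d : ℕ) (a b c b' H1 H2 H0 : ℝ) :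
    a + b * (c * x) * (H1 - H2) + b' * x * H0 =
      (a / x ^ (d + 1) + b * c * (H1 / x ^ d - H2 / x ^ d) + b' * (H0 / x ^ d)) *
        x ^ (d + 1) := by
  have h1 : a / x ^ (d + 1) * x ^ (d + 1) = a := div_mul_cancel₀ _ (by positivity)
  have h2 : ∀ y : ℝ, y / x ^ d * x ^ (d + 1) = y * x := by
    intro y
    rw [pow_succ, ← mul_assoc, div_mul_cancel₀ _ (by positivity)]
  have h3 : (a / x ^ (d + 1) + b * c * (H1 / x ^ d - H2 / x ^ d) + b' * (H0 / x ^ d)) *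
      x ^ (d + 1) = a / x ^ (d + 1) * x ^ (d + 1) + b * c * (H1 / x ^ d * x ^ (d + 1) -
        H2 / x ^ d * x ^ (d + 1)) + b' * (H0 / x ^ d * x ^ (d + 1)) := by ring
  rw [h3, h1, h2, h2, h2]
  ring

theorem an_core {r d : ℕ} (hd : 0 < d) (S : Set ℝ) (hS : ∀ c ∈ S, 0 ≤ c) (h : ℝ → ℕ)
    (T : Fin r → ℝ → ℂ) (e : Fin r → ℝ) (lam : Fin r → ℝ → ℝ) (C : ℝ) (hC : 0 < C)
    (he : ∀ c ∈ S, c = ∑ k, e k * lam k c) (hlam : ∀ k, ∀ c ∈ S, |lam k c| ≤ C * c)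
    (hT : ∀ k, ∀ c ∈ S, ‖T k c‖ ≤ C * c * (h c : ℝ))
    (s : ℝ → Finset ℝ) (hs : ∀ m c, c ∈ s m ↔ c ∈ S ∧ c < m) (V : ℝ)
    (hV : Tendsto (fun m : ℕ => (∑ c ∈ s m, (h c : ℝ)) / (m : ℝ) ^ d) atTop (𝓝 V))
    (t : ℂ) (δ₀ : ℝ) (hδ : 0 < δ₀)
    (hq : ∀ q : Fin r → ℚ, (∀ k, |((q k : ℚ) : ℝ) - e k| ≤ δ₀) →
      ∃ (sq : ℝ → Finset ℝ) (κ κ' : ℝ),
        (∀ m c, c ∈ sq m ↔ c ∈ S ∧ ∑ k, ((q k : ℚ) : ℝ) * lam k c < m) ∧ 0 < κ ∧ 0 < κ' ∧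
        Tendsto (fun m : ℝ => (∑ c ∈ sq m,
          ((∑ k, ((q k : ℚ) : ℝ) * lam k c : ℝ) : ℂ) * (h c : ℂ)) / ((m : ℂ)) ^ (d + 1)) atTop
            (𝓝 ((κ : ℝ) : ℂ)) ∧
        Tendsto (fun m : ℝ => (∑ c ∈ sq m, ∑ k, (((q k : ℚ) : ℝ) : ℂ) * T k c) /
          ((m : ℂ)) ^ (d + 1)) atTop (𝓝 (((κ : ℝ) : ℂ) * t / d)) ∧
        Tendsto (fun m : ℝ => (∑ c ∈ sq m, (h c : ℝ)) / m ^ d) atTop (𝓝 κ')) :
    Tendsto (fun m : ℕ => (∑ c ∈ s m, ∑ k, ((e k : ℝ) : ℂ) * T k c) /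
      (∑ c ∈ s m, ((c : ℝ) : ℂ) * (h c : ℂ))) atTop (𝓝 (t / d)) := by
  classical
  -- the counting function
  have Hmono : Monotone (fun x : ℝ => ∑ c ∈ s x, (h c : ℝ)) := fun a b hab =>
    Finset.sum_le_sum_of_subset_of_nonneg (An_sub hs hab) fun _ _ _ => Nat.cast_nonneg _
  have Hlim : Tendsto (fun x : ℝ => (∑ c ∈ s x, (h c : ℝ)) / x ^ d) atTop (𝓝 V) :=
    An_real Hmono hV
  set M : ℝ := ‖t / (d : ℂ)‖ with hM
  have hM0 : 0 ≤ M := norm_nonneg _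
  set C₂ : ℝ := (∑ k, (|e k| + δ₀)) * C + 2 * M with hC2
  have hC20 : 0 ≤ C₂ := by
    have : 0 ≤ ∑ k, (|e k| + δ₀) :=
      Finset.sum_nonneg fun k _ => add_nonneg (abs_nonneg _) hδ.le
    positivity
  -- the approximations
  have key : ∀ δ : ℝ, 0 < δ → δ ≤ δ₀ → r * C * δ ≤ 1 / 4 →
      ∃ (q : Fin r → ℚ) (sq : ℝ → Finset ℝ) (κ κ' : ℝ), (∀ k, |((q k : ℚ) : ℝ) - e k| ≤ δ) ∧
        (∀ m c, c ∈ sq m ↔ c ∈ S ∧ ∑ k, ((q k : ℚ) : ℝ) * lam k c < m) ∧ 0 < κ ∧ 0 < κ' ∧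
        Tendsto (fun m : ℝ => (∑ c ∈ sq m,
          ((∑ k, ((q k : ℚ) : ℝ) * lam k c : ℝ) : ℂ) * (h c : ℂ)) / ((m : ℂ)) ^ (d + 1)) atTop
            (𝓝 ((κ : ℝ) : ℂ)) ∧
        Tendsto (fun m : ℝ => (∑ c ∈ sq m, ∑ k, (((q k : ℚ) : ℝ) : ℂ) * T k c) /
          ((m : ℂ)) ^ (d + 1)) atTop (𝓝 (((κ : ℝ) : ℂ) * t / d)) ∧
        Tendsto (fun m : ℝ => (∑ c ∈ sq m, (h c : ℝ)) / m ^ d) atTop (𝓝 κ') := by
    intro δ h1 h2 _
    have h3 : ∀ k, ∃ q : ℚ, |((q : ℚ) : ℝ) - e k| ≤ δ := by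
      intro k
      obtain ⟨q, hq⟩ := exists_rat_near (e k) h1
      exact ⟨q, by rw [abs_sub_comm]; exact hq.le⟩
    choose q hq1 using h3
    obtain ⟨sq, κ, κ', h4⟩ := hq q fun k => (hq1 k).trans h2
    exact ⟨q, sq, κ, κ', hq1, h4⟩
  have small : ∀ F : ℝ → ℝ, Continuous F → F 0 = 0 → ∀ η : ℝ, 0 < η →
      ∃ δ : ℝ, 0 < δ ∧ δ ≤ δ₀ ∧ r * C * δ ≤ 1 / 4 ∧ F (r * C * δ) < η := by
    intro F hF hF0 η hη
    have h1 : Tendsto (fun δ : ℝ => r * C * δ) (𝓝[>] 0) (𝓝 0) :=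
      (Continuous.tendsto' (by fun_prop) 0 0 (by simp)).mono_left nhdsWithin_le_nhds
    have h2 : Tendsto (fun δ : ℝ => F (r * C * δ)) (𝓝[>] 0) (𝓝 0) :=
      (hF.tendsto' 0 0 hF0).comp h1
    obtain ⟨δ, ⟨h3, h4⟩, h5⟩ := ((h2.eventually (gt_mem_nhds hη)).and
      (h1.eventually (gt_mem_nhds (by norm_num : (0 : ℝ) < 1 / 4)))).and
      (Ioc_mem_nhdsGT hδ) |>.exists
    exact ⟨δ, h5.1, h5.2, h4.le, h3⟩
  -- `V` is positive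
  have hV0 : 0 < V := by
    obtain ⟨δ, h1, h2, h3, -⟩ := small (fun x => x) continuous_id rfl 1 one_pos
    obtain ⟨q, sq, κ, κ', hq1, hsq, hκ, hκ', -, -, l3⟩ := key δ h1 h2 h3
    have h4 := An_scale (a := 2) (by norm_num) Hlim
    have h5 : κ' ≤ V * 2 ^ d := by
      refine le_of_tendsto_of_tendsto l3 h4 ?_
      filter_upwards [eventually_gt_atTop (0 : ℝ)] with x hx
      refine div_le_div_of_nonneg_right ?_ (by positivity)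
      refine Finset.sum_le_sum_of_subset_of_nonneg ?_ fun _ _ _ => Nat.cast_nonneg _
      intro c hc
      rw [hsq] at hc
      rw [hs]
      refine ⟨hc.1, ?_⟩
      have h6 := abs_le.1 (An_phi he hlam h1.le (fun k => ((q k : ℚ) : ℝ)) hq1 hc.1)
      have h7 := hS c hc.1
      have h8 : (r * C * δ) * c ≤ 1 / 4 * c := mul_le_mul_of_nonneg_right h3 h7
      have h9 := hc.2
      have h10 := h6.1
      linarith
    have h6 : (0 : ℝ) < 2 ^ d := by positivity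
    by_contra h7
    rw [not_lt] at h7
    have h8 : V * 2 ^ d ≤ 0 := mul_nonpos_of_nonpos_of_nonneg h7 h6.le
    linarith
  obtain ⟨κ₀, hκ0, hden⟩ := An_den hS hs hd hV0 Hlim
  -- the numerator
  have hnum : ∀ η : ℝ, 0 < η → ∀ᶠ x : ℝ in atTop,
      ‖∑ c ∈ s x, ((∑ k, ((e k : ℝ) : ℂ) * T k c) - t / d * ((c : ℝ) : ℂ) * (h c : ℂ))‖ ≤
        η * x ^ (d + 1) := by
    intro η hη
    obtain ⟨δ, h1, h2, h3, h4⟩ := small
      (fun ε => C₂ * (1 + 2 * ε) * (V * (1 + 2 * ε) ^ d - V * (1 - 2 * ε) ^ d) +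
        ε * (1 + M) * V) (by fun_prop) (by simp) η hη
    obtain ⟨q, sq, κ, κ', hq1, hsq, hκ, hκ', l1, l2, -⟩ := key δ h1 h2 h3
    set ε : ℝ := r * C * δ with hε
    have hε0 : 0 ≤ ε := by positivity
    have l4 : Tendsto (fun x : ℝ => ‖∑ c ∈ sq x, ((∑ k, (((q k : ℚ) : ℝ) : ℂ) * T k c) -
        t / d * ((∑ k, ((q k : ℚ) : ℝ) * lam k c : ℝ) : ℂ) * (h c : ℂ))‖ / x ^ (d + 1))
        atTop (𝓝 0) := by
      have h5 := (l2.sub (l1.const_mul (t / d))).norm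
      have h6 : ((κ : ℝ) : ℂ) * t / d - t / d * ((κ : ℝ) : ℂ) = 0 := by ring
      rw [h6, norm_zero] at h5
      refine h5.congr' ?_
      filter_upwards [eventually_gt_atTop (0 : ℝ)] with x hx
      rw [Finset.sum_sub_distrib]
      have h7 : ∑ c ∈ sq x, t / d * ((∑ k, ((q k : ℚ) : ℝ) * lam k c : ℝ) : ℂ) * (h c : ℂ) =
          t / d * ∑ c ∈ sq x, ((∑ k, ((q k : ℚ) : ℝ) * lam k c : ℝ) : ℂ) * (h c : ℂ) := by
        rw [Finset.mul_sum]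
        exact Finset.sum_congr rfl fun c _ => by ring
      rw [h7, ← mul_div_assoc, ← sub_div, norm_div, norm_pow, Complex.norm_real,
        Real.norm_of_nonneg hx.le]
    have l5 := An_scale (a := 1 + 2 * ε) (by linarith) Hlim
    have l6 := An_scale (a := 1 - 2 * ε) (by linarith) Hlim
    have l7 : Tendsto (fun x : ℝ => ‖∑ c ∈ sq x, ((∑ k, (((q k : ℚ) : ℝ) : ℂ) * T k c) -
        t / d * ((∑ k, ((q k : ℚ) : ℝ) * lam k c : ℝ) : ℂ) * (h c : ℂ))‖ / x ^ (d + 1) +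
        C₂ * (1 + 2 * ε) * ((∑ c ∈ s ((1 + 2 * ε) * x), (h c : ℝ)) / x ^ d -
          (∑ c ∈ s ((1 - 2 * ε) * x), (h c : ℝ)) / x ^ d) +
        ε * (1 + M) * ((∑ c ∈ s x, (h c : ℝ)) / x ^ d)) atTop
        (𝓝 (0 + C₂ * (1 + 2 * ε) * (V * (1 + 2 * ε) ^ d - V * (1 - 2 * ε) ^ d) +
        ε * (1 + M) * V)) :=
      (l4.add ((l5.sub l6).const_mul _)).add (Hlim.const_mul _)
    rw [zero_add] at l7
    filter_upwards [l7.eventually (gt_mem_nhds h4), eventually_gt_atTop (0 : ℝ)] with x h5 hx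
    have h6 := An_bound (sq := sq) (C₂ := C₂) hS hs hε0 h3
      (fun c hc => An_phi he hlam h1.le (fun k => ((q k : ℚ) : ℝ)) hq1 hc) hsq
      (fun c => (∑ k, ((e k : ℝ) : ℂ) * T k c) - t / d * ((c : ℝ) : ℂ) * (h c : ℂ))
      (fun c => (∑ k, (((q k : ℚ) : ℝ) : ℂ) * T k c) -
        t / d * ((∑ k, ((q k : ℚ) : ℝ) * lam k c : ℝ) : ℂ) * (h c : ℂ)) hC20
      (fun c hc => An_Gq hS he hlam hT h1.le h3 h2 (fun k => ((q k : ℚ) : ℝ)) hq1 (t / d) hc)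
      (C₃ := ε * (1 + M)) (by positivity)
      (fun c hc => An_G hS he hlam hT h1.le (fun k => ((q k : ℚ) : ℝ)) hq1 (t / d) hc) hx
    refine h6.trans ?_
    have h7 : (0 : ℝ) < x ^ (d + 1) := by positivity
    have h8 := mul_le_mul_of_nonneg_right h5.le h7.le
    refine le_trans (le_of_eq ?_) h8
    exact An_alg hx d _ C₂ (1 + 2 * ε) (ε * (1 + M)) _ _ _
  -- the quotient
  have hmain : Tendsto (fun x : ℝ => (∑ c ∈ s x, ∑ k, ((e k : ℝ) : ℂ) * T k c) /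
      (∑ c ∈ s x, ((c : ℝ) : ℂ) * (h c : ℂ))) atTop (𝓝 (t / d)) := by
    rw [Metric.tendsto_nhds]
    intro η hη
    filter_upwards [hnum (η / 2 * κ₀) (by positivity), hden, eventually_gt_atTop (0 : ℝ)]
      with x h1 h2 hx
    have h3 : (0 : ℝ) < x ^ (d + 1) := by positivity
    have h4 : 0 < ∑ c ∈ s x, c * (h c : ℝ) := lt_of_lt_of_le (by positivity) h2
    have h5 : ∑ c ∈ s x, ((c : ℝ) : ℂ) * (h c : ℂ) = ((∑ c ∈ s x, c * (h c : ℝ) : ℝ) : ℂ) := by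
      push_cast
      rfl
    have h6 : ((∑ c ∈ s x, c * (h c : ℝ) : ℝ) : ℂ) ≠ 0 := Complex.ofReal_ne_zero.2 h4.ne'
    rw [dist_eq_norm]
    have h7 : (∑ c ∈ s x, ∑ k, ((e k : ℝ) : ℂ) * T k c) /
        (∑ c ∈ s x, ((c : ℝ) : ℂ) * (h c : ℂ)) - t / d =
        (∑ c ∈ s x, ((∑ k, ((e k : ℝ) : ℂ) * T k c) - t / d * ((c : ℝ) : ℂ) * (h c : ℂ))) /
        ((∑ c ∈ s x, c * (h c : ℝ) : ℝ) : ℂ) := by
      rw [Finset.sum_sub_distrib]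
      have h8 : ∑ c ∈ s x, t / d * ((c : ℝ) : ℂ) * (h c : ℂ) =
          t / d * ∑ c ∈ s x, ((c : ℝ) : ℂ) * (h c : ℂ) := by
        rw [Finset.mul_sum]
        exact Finset.sum_congr rfl fun c _ => by ring
      rw [h8, h5, sub_div, mul_div_assoc, div_self h6, mul_one]
    rw [h7, norm_div, Complex.norm_real, Real.norm_of_nonneg h4.le, div_lt_iff₀ h4]
    calc _ ≤ η / 2 * κ₀ * x ^ (d + 1) := h1
      _ = η / 2 * (κ₀ * x ^ (d + 1)) := by ring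
      _ ≤ η / 2 * ∑ c ∈ s x, c * (h c : ℝ) := mul_le_mul_of_nonneg_left h2 (by positivity)
      _ < η * ∑ c ∈ s x, c * (h c : ℝ) := by nlinarith
  exact hmain.comp tendsto_natCast_atTop_atTop

end Pool.Agent.Helper20.TS
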