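import Pool.Agent.Helper20.TS.Df

/-!
# TS-D1: traces and dimensions degree by degree

`qTr_sum`: `R` is the direct sum of the `eigR R ξ c`; on `eigR R ξ c` the field `ζ` is the scalar
`φ c`, so `idl R w m` is the sum of the `eigR R ξ c` with `φ c ≥ m`, and
`R / idl R w m` is the direct sum of the images of the `eigR R ξ c` with `c ∈ Deg R ξ`, `φ c < m`
(a finite set, since `R / idl R w m` is finite dimensional: `IsWt.finite_quot`).
`Y` preserves every `eigR R ξ c` (`⁅ξ, Y⁆ = 0`, `Pres R Y`).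
`dTr_self`, `dTr_sum`: the trace is linear, and `ξ` is the scalar `c` on `eigR R ξ c`
(finite dimensional by `IsCone.finite_eigR`).
-/

set_option autoImplicit false

namespace Pool.Agent.Helper20.TS

open Module Pool.Agent.Helper37.SD

variable {K : Type} [Field K] [Algebra ℂ K] {R : Subalgebra ℂ K} {ξ : Derivation ℂ K K}

/-- A derivation of `R` of degree `0` acts on the elements of degree `c`. -/
theorem exists_act {Y : Derivation ℂ K K} (hY : Pres R Y) (h0 : ⁅ξ, Y⁆ = 0) (c : ℝ) :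
    ∃ T : eigR R ξ c →ₗ[ℂ] eigR R ξ c, ∀ x, ((T x : eigR R ξ c) : K) = Y (x : K) := by
  refine ⟨LinearMap.restrict (Y : K →ₗ[ℂ] K) (p := eigR R ξ c) (q := eigR R ξ c)
    (fun x hx => ⟨hY x hx.1, eig_comm h0 hx.2⟩), fun x => rfl⟩

theorem dTr_eq {Y : Derivation ℂ K K} {c : ℝ} (T : eigR R ξ c →ₗ[ℂ] eigR R ξ c)
    (hT : ∀ x, ((T x : eigR R ξ c) : K) = Y (x : K)) :
    dTr R ξ Y c = LinearMap.trace ℂ (eigR R ξ c) T := by
  classical
  have hex : ∃ T : eigR R ξ c →ₗ[ℂ] eigR R ξ c, ∀ x, ((T x : eigR R ξ c) : K) = Y (x : K) :=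
    ⟨T, hT⟩
  unfold dTr
  rw [dif_pos hex]
  congr 1
  ext x
  rw [hex.choose_spec x, hT x]

theorem D1_qTr_eq {v : RVal K} {Y : Derivation ℂ K K} {m : ℝ} (hY : Pres R Y)
    (T : (R ⧸ idl R v m) →ₗ[ℂ] (R ⧸ idl R v m))
    (hT : ∀ x y : R, (y : K) = Y (x : K) →
      T (Submodule.Quotient.mk x) = Submodule.Quotient.mk y) :
    qTr R v Y m = LinearMap.trace ℂ (R ⧸ idl R v m) T := by
  classical
  have hex : ∃ T : (R ⧸ idl R v m) →ₗ[ℂ] (R ⧸ idl R v m), ∀ x y : R, (y : K) = Y (x : K) →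
      T (Submodule.Quotient.mk x) = Submodule.Quotient.mk y := ⟨T, hT⟩
  unfold qTr
  rw [dif_pos hex]
  congr 1
  refine LinearMap.ext fun q => ?_
  obtain ⟨x, rfl⟩ := Submodule.Quotient.mk_surjective _ q
  rw [hex.choose_spec x ⟨Y (x : K), hY x x.2⟩ rfl, hT x ⟨Y (x : K), hY x x.2⟩ rfl]

/-- The homogeneous components for `ξ` of an element of large degree for `ζ`. -/
theorem rh_le_rh (h : IsCone R ξ) {ζ : Derivation ℂ K K} (φ : ℝ → ℝ)
    (hφ : ∀ c : ℝ, ∀ x ∈ R, ξ x = (c : ℂ) • x → ζ x = ((φ c : ℝ) : ℂ) • x) (m : ℝ) :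
    RH R ζ (fun b => m ≤ b) ≤ RH R ξ (fun c => m ≤ φ c) := by
  classical
  refine Submodule.span_le.mpr ?_
  rintro y ⟨hy, b, hb, he⟩
  obtain ⟨f, hf⟩ := exists_dec (h.span y hy)
  have h1 : ∑ c ∈ f.support, (((φ c : ℝ) : ℂ) - (b : ℂ)) • f c = 0 := by
    have h2 : ζ y = ∑ c ∈ f.support, ((φ c : ℝ) : ℂ) • f c := by
      rw [← hf.sum, Finsupp.sum, map_sum]
      refine Finset.sum_congr rfl fun c _ => ?_
      exact hφ c (f c) (hf.mem c) (hf.eig c)
    have h3 : (b : ℂ) • y = ∑ c ∈ f.support, (b : ℂ) • f c := by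
      rw [← hf.sum, Finsupp.sum, Finset.smul_sum]
    have h4 : ζ y - (b : ℂ) • y = 0 := by
      rw [show ζ y = (b : ℂ) • y from he, sub_self]
    rw [h2, h3, ← Finset.sum_sub_distrib] at h4
    rw [← h4]
    exact Finset.sum_congr rfl fun c _ => sub_smul _ _ _
  have h5 := eig_indep (ξ : K →ₗ[ℂ] K) f.support (fun c => (((φ c : ℝ) : ℂ) - (b : ℂ)) • f c)
    (fun c _ => by
      show (ξ : K →ₗ[ℂ] K) ((((φ c : ℝ) : ℂ) - (b : ℂ)) • f c)
        = (c : ℂ) • ((((φ c : ℝ) : ℂ) - (b : ℂ)) • f c)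
      rw [map_smul, hf.eig c, smul_comm]) h1
  have h6 : IsDec (ξ : K →ₗ[ℂ] K) (RS R) (fun c => m ≤ φ c) f y := by
    refine ⟨hf.eig, hf.mem, fun c hc => ?_, hf.sum⟩
    have h7 := h5 c (Finsupp.mem_support_iff.mpr hc)
    rcases smul_eq_zero.mp h7 with h8 | h8
    · have h9 : ((φ c : ℝ) : ℂ) = (b : ℂ) := sub_eq_zero.mp h8
      have h10 : φ c = b := by exact_mod_cast h9
      rw [h10]
      exact hb
    · exact absurd h8 hc
  exact h6.mem_hsp

/-- `idl R w m` is the sum of the `eigR R ξ c` with `φ c ≥ m`. -/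
theorem mem_idl_iff (h : IsCone R ξ) {ζ : Derivation ℂ K K} (hζ : IsCone R ζ) {w : RVal K}
    (hw : IsWt R ζ w) (φ : ℝ → ℝ)
    (hφ : ∀ c : ℝ, ∀ x ∈ R, ξ x = (c : ℂ) • x → ζ x = ((φ c : ℝ) : ℂ) • x) (m : ℝ) (x : R) :
    x ∈ idl R w m ↔ (x : K) ∈ RH R ξ (fun c => m ≤ φ c) := by
  constructor
  · intro hx
    have h1 : w.Ge m (x : K) := hx
    by_cases h0 : (x : K) = 0
    · rw [h0]
      exact Submodule.zero_mem _
    · exact rh_le_rh h φ hφ m ((hw x x.2 h0 m).mp (h1.resolve_left h0))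
  · intro hx
    have h1 : (x : K) ∈ Hsp (ζ : K →ₗ[ℂ] K) ⊤ (fun b => m ≤ b) := by
      refine Submodule.span_le.mpr ?_ hx
      rintro y ⟨hy, c, hc, he⟩
      exact mem_hsp Submodule.mem_top hc (hφ c y hy he)
    exact hw.ge_of_hsp hζ h1

/-- A derivation of `R` of degree `0` preserves the span of the elements with degree in `P`. -/
theorem rh_comm {Y : Derivation ℂ K K} (hY : Pres R Y) (h0 : ⁅ξ, Y⁆ = 0) {P : ℝ → Prop} {x : K}
    (hx : x ∈ RH R ξ P) : Y x ∈ RH R ξ P := by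
  induction hx using Submodule.span_induction with
  | mem y hy =>
    obtain ⟨hyR, c, hc, hy⟩ := hy
    exact mem_hsp (hY y hyR) hc (eig_comm h0 hy)
  | zero => rw [map_zero]; exact Submodule.zero_mem _
  | add x y _ _ hx hy => rw [map_add]; exact Submodule.add_mem _ hx hy
  | smul z x _ hx => rw [Derivation.map_smul]; exact Submodule.smul_mem _ z hx

/-- The endomorphism of `R / idl R w m` given by a derivation of `R` of degree `0`. -/
theorem exists_qact (h : IsCone R ξ) {ζ : Derivation ℂ K K} (hζ : IsCone R ζ) {w : RVal K}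
    (hw : IsWt R ζ w) (φ : ℝ → ℝ)
    (hφ : ∀ c : ℝ, ∀ x ∈ R, ξ x = (c : ℂ) • x → ζ x = ((φ c : ℝ) : ℂ) • x) (m : ℝ)
    {Y : Derivation ℂ K K} (hY : Pres R Y) (h0 : ⁅ξ, Y⁆ = 0) :
    ∃ T : (R ⧸ idl R w m) →ₗ[ℂ] (R ⧸ idl R w m), ∀ x y : R, (y : K) = Y (x : K) →
      T (Submodule.Quotient.mk x) = Submodule.Quotient.mk y := by
  let Y' : R →ₗ[ℂ] R :=
    { toFun := fun x => ⟨Y (x : K), hY x x.2⟩
      map_add' := fun x y => Subtype.ext (by
        show Y ((x : K) + (y : K)) = Y (x : K) + Y (y : K)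
        rw [map_add])
      map_smul' := fun z x => Subtype.ext (by
        show Y (z • (x : K)) = z • Y (x : K)
        rw [Derivation.map_smul]) }
  have hY' : idl R w m ≤ (idl R w m).comap Y' := by
    intro x hx
    rw [Submodule.mem_comap]
    rw [mem_idl_iff h hζ hw φ hφ] at hx ⊢
    exact rh_comm hY h0 hx
  refine ⟨(idl R w m).mapQ (idl R w m) Y' hY', fun x y hxy => ?_⟩
  rw [← Submodule.mkQ_apply, ← Submodule.mkQ_apply, Submodule.mkQ_apply, Submodule.mapQ_apply]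
  congr 1
  exact Subtype.ext hxy.symm

theorem qTr_sum (h : IsCone R ξ) {ζ : Derivation ℂ K K} (hζ : IsCone R ζ) {w : RVal K}
    (hw : IsWt R ζ w) (φ : ℝ → ℝ)
    (hφ : ∀ c : ℝ, ∀ x ∈ R, ξ x = (c : ℂ) • x → ζ x = ((φ c : ℝ) : ℂ) • x) (m : ℝ) :
    ∃ s : Finset ℝ, (∀ c, c ∈ s ↔ c ∈ Deg R ξ ∧ φ c < m) ∧
      finrank ℂ (R ⧸ idl R w m) = ∑ c ∈ s, finrank ℂ (eigR R ξ c) ∧
      ∀ Y : Derivation ℂ K K, Pres R Y → ⁅ξ, Y⁆ = 0 → qTr R w Y m = ∑ c ∈ s, dTr R ξ Y c := by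
  classical
  have hfin : Module.Finite ℂ (R ⧸ idl R w m) := hw.finite_quot hζ m
  -- the maps of the homogeneous pieces to the quotient
  let j : (c : ℝ) → eigR R ξ c →ₗ[ℂ] R := fun c =>
    LinearMap.codRestrict (Subalgebra.toSubmodule R) (eigR R ξ c).subtype (fun x => x.2.1)
  have hj : ∀ (c : ℝ) (x : eigR R ξ c), ((j c x : R) : K) = (x : K) := fun c x => rfl
  let g : (c : ℝ) → eigR R ξ c →ₗ[ℂ] R ⧸ idl R w m := fun c => (idl R w m).mkQ.comp (j c)
  have hg : ∀ (c : ℝ) (x : eigR R ξ c), g c x = Submodule.Quotient.mk (j c x) := fun c x => rfl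
  have hgm : ∀ (c : ℝ) (x : eigR R ξ c), m ≤ φ c → g c x = 0 := by
    intro c x hc
    rw [hg, Submodule.Quotient.mk_eq_zero, mem_idl_iff h hζ hw φ hφ, hj]
    exact mem_hsp x.2.1 hc x.2.2
  have hginj : ∀ c : ℝ, φ c < m → Function.Injective (g c) := by
    intro c hc
    rw [injective_iff_map_eq_zero]
    intro x hx
    by_contra hx0
    have hx1 : (x : K) ≠ 0 := fun h => hx0 (Subtype.ext h)
    rw [hg, Submodule.Quotient.mk_eq_zero] at hx
    have h2 : w.Ge m (x : K) := hx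
    have h3 := h2.resolve_left hx1
    rw [hw.val_eig hζ hx1 (hφ c x x.2.1 x.2.2)] at h3
    linarith
  let N : ℝ → Submodule ℂ (R ⧸ idl R w m) := fun c => LinearMap.range (g c)
  -- independence
  obtain ⟨Ξ, hΞ⟩ := exists_qact h hζ hw φ hφ m h.pres (lie_self ξ)
  have hind : iSupIndep N := by
    have h1 : iSupIndep (fun c : ℝ => Module.End.eigenspace Ξ (c : ℂ)) :=
      (Module.End.eigenspaces_iSupIndep Ξ).comp Complex.ofReal_injective
    refine h1.mono fun c => ?_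
    rintro _ ⟨x, rfl⟩
    rw [Module.End.mem_eigenspace_iff, hg,
      hΞ (j c x) ((c : ℂ) • j c x) (by
        show (c : ℂ) • (x : K) = ξ (x : K)
        exact x.2.2.symm)]
    rfl
  have htop : ⨆ c, N c = ⊤ := by
    rw [eq_top_iff]
    intro q _
    obtain ⟨x, rfl⟩ := Submodule.Quotient.mk_surjective _ q
    obtain ⟨f, hf⟩ := exists_dec (h.span x x.2)
    have h1 : x = ∑ c ∈ f.support, j c ⟨f c, hf.mem c, hf.eig c⟩ := by
      apply Subtype.ext
      rw [AddSubmonoidClass.coe_finsetSum]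
      exact hf.sum.symm
    have h2 : (Submodule.Quotient.mk x : R ⧸ idl R w m) = (idl R w m).mkQ x := rfl
    rw [h2, h1, map_sum]
    refine Submodule.sum_mem _ fun c _ => ?_
    exact Submodule.mem_iSup_of_mem c ⟨⟨f c, hf.mem c, hf.eig c⟩, rfl⟩
  have hint : DirectSum.IsInternal N :=
    DirectSum.isInternal_submodule_of_iSupIndep_of_iSup_eq_top hind htop
  have hNfin : {c | N c ≠ ⊥}.Finite := WellFoundedGT.finite_ne_bot_of_iSupIndep hind
  have hmem : ∀ c, c ∈ hNfin.toFinset ↔ c ∈ Deg R ξ ∧ φ c < m := by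
    intro c
    rw [Set.Finite.mem_toFinset]
    constructor
    · intro hc
      have hc' : N c ≠ ⊥ := hc
      refine ⟨fun h1 => hc' ?_, ?_⟩
      · rw [eq_bot_iff]
        rintro _ ⟨x, rfl⟩
        have h2 : (x : K) ∈ (⊥ : Submodule ℂ K) := by
          rw [← h1]
          exact x.2
        have h3 : x = 0 := Subtype.ext ((Submodule.mem_bot ℂ).mp h2)
        rw [h3, map_zero]
        exact Submodule.zero_mem _
      · by_contra h1
        apply hc'
        rw [eq_bot_iff]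
        rintro _ ⟨x, rfl⟩
        rw [hgm c x (not_lt.mp h1)]
        exact Submodule.zero_mem _
    · rintro ⟨h1, h2⟩ h3
      have h3' : N c = ⊥ := h3
      apply h1
      rw [eq_bot_iff]
      intro y hy
      have h4 : g c ⟨y, hy⟩ ∈ N c := ⟨⟨y, hy⟩, rfl⟩
      rw [h3'] at h4
      have h5 := hginj c h2 (((Submodule.mem_bot ℂ).mp h4).trans (map_zero (g c)).symm)
      rw [Submodule.mem_bot]
      exact congrArg Subtype.val h5
  -- traces
  have key : ∀ (T : (R ⧸ idl R w m) →ₗ[ℂ] (R ⧸ idl R w m))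
      (t : (c : ℝ) → eigR R ξ c →ₗ[ℂ] eigR R ξ c),
      (∀ (c : ℝ) (x : eigR R ξ c), T (g c x) = g c (t c x)) →
      LinearMap.trace ℂ (R ⧸ idl R w m) T
        = ∑ c ∈ hNfin.toFinset, LinearMap.trace ℂ (eigR R ξ c) (t c) := by
    intro T t ht
    have hmaps : ∀ c, Set.MapsTo T (N c) (N c) := by
      rintro c _ ⟨x, rfl⟩
      rw [ht c x]
      exact ⟨t c x, rfl⟩
    have hfinN : ∀ c, Module.Finite ℂ (N c) := fun c => inferInstance
    rw [LinearMap.trace_eq_sum_trace_restrict' hint hNfin hmaps]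
    refine Finset.sum_congr rfl fun c hc => ?_
    have hc1 := ((hmem c).mp hc).2
    have h1 : T.restrict (hmaps c)
        = (LinearEquiv.ofInjective (g c) (hginj c hc1)).conj (t c) := by
      refine LinearMap.ext fun y => ?_
      obtain ⟨x, rfl⟩ := (LinearEquiv.ofInjective (g c) (hginj c hc1)).surjective y
      rw [LinearEquiv.conj_apply_apply, LinearEquiv.symm_apply_apply]
      apply Subtype.ext
      show T (g c x) = g c (t c x)
      exact ht c x
    rw [h1]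
    exact LinearMap.trace_conj' (t c) _
  refine ⟨hNfin.toFinset, hmem, ?_, ?_⟩
  · have h1 := key LinearMap.id (fun c => LinearMap.id) (fun c x => rfl)
    have hfinE : ∀ c, Module.Finite ℂ (eigR R ξ c) := fun c => h.finite_eigR c
    have h2 : ∀ c, LinearMap.trace ℂ (eigR R ξ c) LinearMap.id
        = (finrank ℂ (eigR R ξ c) : ℂ) := fun c => LinearMap.trace_id ℂ _
    rw [LinearMap.trace_id, Finset.sum_congr rfl fun c _ => h2 c, ← Nat.cast_sum] at h1
    exact_mod_cast h1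
  · intro Y hY h0
    obtain ⟨T, hT⟩ := exists_qact h hζ hw φ hφ m hY h0
    choose t ht using fun c => exists_act (ξ := ξ) hY h0 c
    rw [D1_qTr_eq hY T hT, key T t (fun c x => ?_)]
    · exact Finset.sum_congr rfl fun c _ => (dTr_eq (t c) (ht c)).symm
    · rw [hg, hg]
      exact hT (j c x) (j c (t c x)) (ht c x)

theorem dTr_self (h : IsCone R ξ) (c : ℝ) :
    dTr R ξ ξ c = (c : ℂ) * (finrank ℂ (eigR R ξ c) : ℂ) := by
  have hfin := h.finite_eigR c
  rw [dTr_eq ((c : ℂ) • (LinearMap.id : eigR R ξ c →ₗ[ℂ] eigR R ξ c)) (fun x => x.2.2.symm),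
    map_smul, LinearMap.trace_id, smul_eq_mul]

theorem dTr_sum (h : IsCone R ξ) {r : ℕ} (Y : Fin r → Derivation ℂ K K) (a : Fin r → ℂ)
    (hY : ∀ k, Pres R (Y k)) (hY0 : ∀ k, ⁅ξ, Y k⁆ = 0) (c : ℝ) :
    dTr R ξ (∑ k, a k • Y k) c = ∑ k, a k * dTr R ξ (Y k) c := by
  have hfin := h.finite_eigR c
  choose t ht using fun k => exists_act (ξ := ξ) (hY k) (hY0 k) c
  rw [dTr_eq (∑ k, a k • t k) (fun x => ?_), map_sum]
  · refine Finset.sum_congr rfl fun k _ => ?_
    rw [map_smul, smul_eq_mul, dTr_eq (t k) (ht k)]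
  · rw [LinearMap.sum_apply, AddSubmonoidClass.coe_finsetSum, der_sum_apply]
    refine Finset.sum_congr rfl fun k _ => ?_
    rw [LinearMap.smul_apply, Derivation.smul_apply]
    show a k • ((t k x : eigR R ξ c) : K) = a k • Y k (x : K)
    rw [ht k x]

theorem deg_nonneg (h : IsCone R ξ) {c : ℝ} (hc : c ∈ Deg R ξ) : 0 ≤ c := by
  have h1 : eigR R ξ c ≠ ⊥ := hc
  obtain ⟨x, hx, hx0⟩ := (Submodule.ne_bot_iff _).mp h1
  exact h.eig_nonneg hx.1 hx0 hx.2

end Pool.Agent.Helper20.TS
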