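import Pool.Agent.Helper20.TS.Df

/-!
# TS-FR: frames from parameters, trace and derivations

`exists_zframe`: the derivations `∂ / ∂ z i` of `ℂ[z]` (MvPolynomial.pderiv through
AlgebraicIndependent.aevalEquiv) extend to the fraction field and to its finite separable
extension `K` (Mathlib: FieldTheory/Differential/Basic, differentialFiniteDimensional; or by hand
with a primitive element; or: Kaehler differentials of `K` over `ℂ(z)` vanish).  Take
`D i = z i ∂ / ∂ z i`.  A derivation which vanishes on all `z i` vanishes on `K` (algebraic,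
characteristic `0`), which gives `complete`.

`frame_rank`: as in `degen_symplectic` (file Helper37/SD/Main.lean).

`trace_frame`: the trace in the basis `D`.

`trz_der`: choose an `Fz z`-basis `b` of `K`, `x b_l = ∑ M_{kl} b_k`, `D b_l = ∑ W_{kl} b_k`; then
`M(D x) = D(M(x)) + [W, M(x)]`.
-/

set_option autoImplicit false

namespace Pool.Agent.Helper20.TS

open Module Pool.Agent.Helper37.SD
open scoped TensorProduct

variable {K : Type} [Field K] [Algebra ℂ K]

open scoped IntermediateField.algebraAdjoinAdjoin in
private theorem Fr_etale {d : ℕ} {z : Fin d → K} (hfin : FiniteDimensional (Fz z) K) :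
    Algebra.FormallyEtale (Algebra.adjoin ℂ (Set.range z)) K := by
  have : FiniteDimensional (Fz z) K := hfin
  have : CharZero (Fz z) := algebraRat.charZero _
  have h1 : Algebra.FormallyEtale (Algebra.adjoin ℂ (Set.range z))
      (IntermediateField.adjoin ℂ (Set.range z)) :=
    .of_isLocalization (nonZeroDivisors _)
  have h2 : Algebra.FormallyEtale (IntermediateField.adjoin ℂ (Set.range z)) K :=
    Algebra.FormallyEtale.of_isSeparable _ K
  exact .comp _ (IntermediateField.adjoin ℂ (Set.range z)) _

/-- the derivation `z i ∂ / ∂ z i` on polynomials in `z` -/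
private noncomputable def Fr_dz {d : ℕ} {z : Fin d → K} (hind : AlgebraicIndependent ℂ z)
    (i : Fin d) : Derivation ℂ (Algebra.adjoin ℂ (Set.range z)) K :=
  Derivation.mk'
    ((Algebra.linearMap (Algebra.adjoin ℂ (Set.range z)) K).restrictScalars ℂ ∘ₗ
      hind.aevalEquiv.toLinearMap ∘ₗ
      (MvPolynomial.mkDerivation ℂ fun j => if i = j then MvPolynomial.X j else
        (0 : MvPolynomial (Fin d) ℂ)).toLinearMap ∘ₗ
      hind.aevalEquiv.symm.toLinearMap) (by
    intro a b
    simp only [LinearMap.comp_apply, AlgEquiv.toLinearMap_apply, map_mul,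
      Derivation.coeFn_coe, Derivation.leibniz, smul_eq_mul,
      map_add, LinearMap.restrictScalars_apply, Algebra.linearMap_apply, AlgEquiv.apply_symm_apply,
      Algebra.smul_def])

private theorem Fr_dz_apply {d : ℕ} {z : Fin d → K} (hind : AlgebraicIndependent ℂ z)
    (i j : Fin d) : Fr_dz hind i ⟨z j, Algebra.subset_adjoin ⟨j, rfl⟩⟩ =
      if i = j then z j else 0 := by
  have h1 : hind.aevalEquiv (MvPolynomial.X j) =
      (⟨z j, Algebra.subset_adjoin ⟨j, rfl⟩⟩ : Algebra.adjoin ℂ (Set.range z)) := by
    apply Subtype.ext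
    rw [AlgebraicIndependent.aevalEquiv_apply_coe, MvPolynomial.aeval_X]
  have h2 : hind.aevalEquiv.symm ⟨z j, Algebra.subset_adjoin ⟨j, rfl⟩⟩ = MvPolynomial.X j := by
    rw [← h1, AlgEquiv.symm_apply_apply]
  change (algebraMap (Algebra.adjoin ℂ (Set.range z)) K)
    (hind.aevalEquiv ((MvPolynomial.mkDerivation ℂ fun j => if i = j then MvPolynomial.X j else
        (0 : MvPolynomial (Fin d) ℂ)) (hind.aevalEquiv.symm _))) = _
  rw [h2, MvPolynomial.mkDerivation_X]
  split
  · rw [h1]
    rfl
  · rw [map_zero, map_zero]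

theorem exists_zframe {d : ℕ} {z : Fin d → K} (hind : AlgebraicIndependent ℂ z)
    (hfin : FiniteDimensional (Fz z) K) : ∃ D : Fin d → Derivation ℂ K K, IsFrame D z := by
  have het := Fr_etale hfin
  let e := KaehlerDifferential.tensorKaehlerEquivOfFormallyEtale ℂ
    (Algebra.adjoin ℂ (Set.range z)) K
  have hun : ∀ E : Derivation ℂ K K, (∀ j, E (z j) = 0) → E = 0 := by
    intro E hE
    have h1 : ∀ b ∈ Algebra.adjoin ℂ (Set.range z), E b = 0 := by
      intro b hb
      have := Derivation.eqOn_adjoin (R := ℂ) (D1 := E) (D2 := 0) (s := Set.range z) (by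
        rintro _ ⟨j, rfl⟩
        rw [hE j]
        rfl) hb
      rw [this]
      rfl
    have h2 : ∀ t, E.liftKaehlerDifferential (e t) = 0 := by
      intro t
      induction t using TensorProduct.induction_on with
      | zero => rw [map_zero, map_zero]
      | add x y hx hy => rw [map_add, map_add, hx, hy, add_zero]
      | tmul x y =>
        have h3 : y ∈ Submodule.span (Algebra.adjoin ℂ (Set.range z))
            (Set.range (KaehlerDifferential.D ℂ (Algebra.adjoin ℂ (Set.range z)))) := by
          rw [KaehlerDifferential.span_range_derivation]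
          trivial
        induction h3 using Submodule.span_induction with
        | mem y hy =>
          obtain ⟨b, rfl⟩ := hy
          rw [KaehlerDifferential.tensorKaehlerEquivOfFormallyEtale_apply,
            KaehlerDifferential.mapBaseChange_tmul, KaehlerDifferential.map_D, map_smul,
            Derivation.liftKaehlerDifferential_comp_D]
          change x • E (b : K) = 0
          rw [h1 b b.2, smul_zero]
        | zero => rw [TensorProduct.tmul_zero, map_zero, map_zero]
        | add y y' _ _ hy hy' => rw [TensorProduct.tmul_add, map_add, map_add, hy, hy', add_zero]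
        | smul b y _ hy =>
          have h4 : x ⊗ₜ[Algebra.adjoin ℂ (Set.range z)] (b • y) = (b : K) • (x ⊗ₜ y) := by
            rw [TensorProduct.tmul_smul, TensorProduct.smul_tmul', TensorProduct.smul_tmul']
            rfl
          rw [h4, map_smul, map_smul, hy, smul_zero]
    ext x
    rw [← Derivation.liftKaehlerDifferential_comp_D E x, ← e.apply_symm_apply
      (KaehlerDifferential.D ℂ K x), h2]
    rfl
  let D : Fin d → Derivation ℂ K K := fun i =>
    (((Fr_dz hind i).liftKaehlerDifferential.liftBaseChange K) ∘ₗ e.symm.toLinearMap).compDer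
      (KaehlerDifferential.D ℂ K)
  have hD : ∀ i j, D i (z j) = if i = j then z j else 0 := by
    intro i j
    have h1 : e.symm (KaehlerDifferential.D ℂ K (z j)) = 1 ⊗ₜ
        KaehlerDifferential.D ℂ (Algebra.adjoin ℂ (Set.range z))
          ⟨z j, Algebra.subset_adjoin ⟨j, rfl⟩⟩ :=
      KaehlerDifferential.tensorKaehlerEquivOfFormallyEtale_symm_D_algebraMap ℂ
        (Algebra.adjoin ℂ (Set.range z)) K ⟨z j, Algebra.subset_adjoin ⟨j, rfl⟩⟩
    change ((Fr_dz hind i).liftKaehlerDifferential.liftBaseChange K)
      (e.symm (KaehlerDifferential.D ℂ K (z j))) = _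
    rw [h1, LinearMap.liftBaseChange_one_tmul, Derivation.liftKaehlerDifferential_comp_D,
      Fr_dz_apply]
  have hne : ∀ i, z i ≠ 0 := fun i => hind.ne_zero i
  refine ⟨D, hne, hD, ?_⟩
  intro E
  rw [← sub_eq_zero]
  apply hun
  intro j
  rw [Derivation.sub_apply, der_sum_apply, Finset.sum_eq_single j]
  · rw [Derivation.smul_apply, hD, if_pos rfl, smul_eq_mul, div_mul_cancel₀ _ (hne j), sub_self]
  · intro i _ hij
    rw [Derivation.smul_apply, hD, if_neg hij, smul_zero]
  · intro h
    exact absurd (Finset.mem_univ j) h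

/-- the basis given by a frame -/
private noncomputable def Fr_basis {d : ℕ} {D : Fin d → Derivation ℂ K K} {g : Fin d → K}
    (hD : IsFrame D g) : Basis (Fin d) K (Derivation ℂ K K) :=
  Basis.mk (v := D) (by
    rw [Fintype.linearIndependent_iff]
    exact fun c hc i => hD.linInd hc i) (by
    intro E _
    rw [hD.complete E]
    exact Submodule.sum_mem _ fun i _ => Submodule.smul_mem _ _ (Submodule.subset_span ⟨i, rfl⟩))

private theorem Fr_basis_apply {d : ℕ} {D : Fin d → Derivation ℂ K K} {g : Fin d → K}
    (hD : IsFrame D g) (i : Fin d) : Fr_basis hD i = D i := by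
  unfold Fr_basis
  rw [Basis.mk_apply]

private theorem Fr_basis_repr {d : ℕ} {D : Fin d → Derivation ℂ K K} {g : Fin d → K}
    (hD : IsFrame D g) (E : Derivation ℂ K K) (i : Fin d) :
    (Fr_basis hD).repr E i = E (g i) / g i := by
  have h1 : E = ∑ j, (E (g j) / g j) • Fr_basis hD j := by
    conv_lhs => rw [hD.complete E]
    exact Finset.sum_congr rfl fun j _ => by rw [Fr_basis_apply]
  have h2 := congrArg (fun X => (Fr_basis hD).repr X i) h1
  simp only [map_sum, map_smul, Basis.repr_self, Finsupp.coe_finsetSum, Finset.sum_apply,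
    Finsupp.smul_apply, smul_eq_mul] at h2
  rw [h2, Finset.sum_eq_single i]
  · rw [Finsupp.single_eq_same, mul_one]
  · intro j _ hji
    rw [Finsupp.single_eq_of_ne (Ne.symm hji), mul_zero]
  · intro h
    exact absurd (Finset.mem_univ i) h

theorem frame_rank {d : ℕ} {D : Fin d → Derivation ℂ K K} {g : Fin d → K} (hD : IsFrame D g) :
    Module.Finite K (Derivation ℂ K K) ∧ finrank K (Derivation ℂ K K) = d := by
  refine ⟨Module.Finite.of_basis (Fr_basis hD), ?_⟩
  rw [finrank_eq_card_basis (Fr_basis hD), Fintype.card_fin]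

theorem trace_frame {d : ℕ} {D : Fin d → Derivation ℂ K K} {g : Fin d → K} (hD : IsFrame D g)
    (J : Derivation ℂ K K →ₗ[K] Derivation ℂ K K) :
    LinearMap.trace K (Derivation ℂ K K) J = ∑ i, J (D i) (g i) / g i := by
  rw [LinearMap.trace_eq_matrix_trace K (Fr_basis hD) J, Matrix.trace]
  refine Finset.sum_congr rfl fun i _ => ?_
  rw [Matrix.diag_apply, LinearMap.toMatrix_apply, Fr_basis_apply, Fr_basis_repr]

theorem trz_der {d : ℕ} {z : Fin d → K} (hfin : FiniteDimensional (Fz z) K)
    (D : Derivation ℂ K K) (hD : ∀ x ∈ Fz z, D x ∈ Fz z) (x : K) : trz z (D x) = D (trz z x) := by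
  classical
  have : FiniteDimensional (Fz z) K := hfin
  let b := Module.finBasis (Fz z) K
  let dF : Fz z → Fz z := fun f => ⟨D (f : K), hD f f.2⟩
  have hsm : ∀ (f : Fz z) (y : K), f • y = (f : K) * y := fun f y => rfl
  have hder : ∀ (f : Fz z) (y : K), D (f • y) = f • D y + dF f • y := by
    intro f y
    rw [hsm, hsm, hsm, Derivation.leibniz, smul_eq_mul, smul_eq_mul, mul_comm y]
  set M := Algebra.leftMulMatrix b x with hM
  have hMr : ∀ k l, M k l = b.repr (x * b l) k := fun k l => Algebra.leftMulMatrix_eq_repr_mul b x k l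
  have hxb : ∀ l, x * b l = ∑ j, M j l • b j := by
    intro l
    conv_lhs => rw [← b.sum_repr (x * b l)]
    exact Finset.sum_congr rfl fun j _ => by rw [hMr]
  let W : Matrix (Fin (finrank (Fz z) K)) (Fin (finrank (Fz z) K)) (Fz z) :=
    fun j k => b.repr (D (b k)) j
  have hDb : ∀ l, D (b l) = ∑ j, W j l • b j := fun l => (b.sum_repr (D (b l))).symm
  have hN : ∀ k l, Algebra.leftMulMatrix b (D x) k l =
      dF (M k l) + ∑ j, M j l * W k j - ∑ j, W j l * M k j := by
    intro k l
    rw [Algebra.leftMulMatrix_eq_repr_mul]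
    have e1 : D x * b l = D (x * b l) - x * D (b l) := by
      rw [Derivation.leibniz, smul_eq_mul, smul_eq_mul]
      ring
    have e2 : b.repr (D (x * b l)) k = ∑ j, M j l * W k j + dF (M k l) := by
      rw [hxb l, map_sum]
      simp only [hder, map_sum, map_add, map_smul, Finsupp.coe_finsetSum, Finset.sum_apply,
        Finsupp.add_apply, Finsupp.smul_apply, smul_eq_mul, Basis.repr_self]
      rw [Finset.sum_add_distrib]
      congr 1
      rw [Finset.sum_eq_single k]
      · rw [Finsupp.single_eq_same, mul_one]
      · intro j _ hjk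
        rw [Finsupp.single_eq_of_ne (Ne.symm hjk), mul_zero]
      · intro h
        exact absurd (Finset.mem_univ k) h
    have e3 : b.repr (x * D (b l)) k = ∑ j, W j l * M k j := by
      rw [hDb l, Finset.mul_sum]
      simp only [hsm, mul_left_comm x]
      simp only [← hsm, map_sum, map_smul, Finsupp.coe_finsetSum, Finset.sum_apply,
        Finsupp.smul_apply, smul_eq_mul]
      exact Finset.sum_congr rfl fun j _ => by rw [hMr]
    rw [e1, map_sub, Finsupp.sub_apply, e2, e3]
    ring
  have hsum : Algebra.trace (Fz z) K (D x) = ∑ k, dF (M k k) := by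
    rw [Algebra.trace_eq_matrix_trace b, Matrix.trace]
    simp only [Matrix.diag_apply, hN]
    rw [Finset.sum_sub_distrib, Finset.sum_add_distrib]
    have e4 : ∑ k, ∑ j, W j k * M k j = ∑ k, ∑ j, M j k * W k j := by
      rw [Finset.sum_comm]
      exact Finset.sum_congr rfl fun j _ => Finset.sum_congr rfl fun k _ => mul_comm _ _
    rw [e4, add_sub_cancel_right]
  unfold trz
  rw [hsum, Algebra.trace_eq_matrix_trace b, Matrix.trace, ← hM]
  simp only [Matrix.diag_apply, IntermediateField.coe_sum, map_sum]
  rfl

end Pool.Agent.Helper20.TS
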