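import Pool.Agent.Helper20.TS.Df

/-!
# TS-L1a: a uniformizer at a prime of height one

`A` is a factorial Noetherian domain with fraction field `F`, `K / F` finite (characteristic `0`),
`B = integralClosure A K`, `t` a prime element and `q` a prime of `B` with `q ∩ A = (t)`.
Plan: `B` is Noetherian (IsIntegralClosure.isNoetherian, separable) and integrally closed; the
localization of `B` at `q` is a Noetherian integrally closed local domain whose only nonzero prime
is the maximal one: a prime `0 ≠ p ≤ q` meets `A` in a nonzero prime inside `(t)`, which is `(t)`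
(a nonzero prime ideal contains a prime element of a factorial ring), and incomparability of
integral extensions gives `p = q`.  So it is a discrete valuation ring; clear denominators in the
uniformizer and in `x = (unit) u ^ k`.
-/

set_option autoImplicit false

namespace Pool.Agent.Helper20.TS

open Module Pool.Agent.Helper37.SD

variable {A F K : Type} [CommRing A] [IsDomain A] [UniqueFactorizationMonoid A]
  [IsNoetherianRing A] [Algebra ℂ A] [Field F] [Algebra A F] [IsFractionRing A F] [Field K]
  [Algebra F K] [Algebra A K] [IsScalarTower A F K] [Algebra ℂ K] [IsScalarTower ℂ A K]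
  [FiniteDimensional F K]

/-- In a Noetherian integrally closed domain a prime which is minimal among the nonzero primes has
a uniformizer. -/
theorem unif_of_min {B : Type} [CommRing B] [IsDomain B] [IsNoetherianRing B]
    [IsIntegrallyClosed B] (q : Ideal B) [hq : q.IsPrime] (hq0 : q ≠ ⊥)
    (hmin : ∀ p : Ideal B, p.IsPrime → p ≠ ⊥ → p ≤ q → p = q) :
    ∃ u ∈ q, u ≠ 0 ∧ ∀ b : B, b ≠ 0 → ∃ (n : ℕ) (s s' : B), s ∉ q ∧ s' ∉ q ∧
      s * b = s' * u ^ n := by
  have hle : q.primeCompl ≤ nonZeroDivisors B := q.primeCompl_le_nonZeroDivisors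
  have : IsDomain (Localization.AtPrime q) := IsLocalization.isDomain_localization hle
  have : IsNoetherianRing (Localization.AtPrime q) :=
    IsLocalization.isNoetherianRing q.primeCompl _ inferInstance
  have : IsIntegrallyClosed (Localization.AtPrime q) :=
    isIntegrallyClosed_of_isLocalization _ q.primeCompl hle
  have hinj : Function.Injective (algebraMap B (Localization.AtPrime q)) :=
    IsLocalization.injective _ hle
  obtain ⟨y, hyq, hy0⟩ := (Submodule.ne_bot_iff q).1 hq0
  have hmem : ∀ b : B, b ∈ q ↔ algebraMap B (Localization.AtPrime q) b ∈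
      IsLocalRing.maximalIdeal (Localization.AtPrime q) := fun b =>
    (IsLocalization.AtPrime.to_map_mem_maximal_iff (Localization.AtPrime q) q b).symm
  have hnf : ¬ IsField (Localization.AtPrime q) := by
    intro hF
    have h := IsLocalRing.isField_iff_maximalIdeal_eq.1 hF
    have h1 := (hmem y).1 hyq
    rw [h, Ideal.mem_bot] at h1
    exact hy0 (hinj (h1.trans (map_zero _).symm))
  have huniq : ∀ P : Ideal (Localization.AtPrime q), P ≠ ⊥ → P.IsPrime →
      P = IsLocalRing.maximalIdeal (Localization.AtPrime q) := by
    intro P hP0 hP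
    have hPle : P ≤ IsLocalRing.maximalIdeal (Localization.AtPrime q) :=
      IsLocalRing.le_maximalIdeal hP.ne_top
    have hcp : (P.comap (algebraMap B (Localization.AtPrime q))).IsPrime :=
      Ideal.comap_isPrime _ _
    have hc0 : P.comap (algebraMap B (Localization.AtPrime q)) ≠ ⊥ := by
      intro h0
      apply hP0
      have hm := IsLocalization.map_comap q.primeCompl (Localization.AtPrime q) P
      rw [← hm]
      exact (congrArg (Ideal.map (algebraMap B (Localization.AtPrime q))) h0).trans Ideal.map_bot
    have hcq : P.comap (algebraMap B (Localization.AtPrime q)) ≤ q := by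
      intro b hb
      exact (hmem b).2 (hPle hb)
    have he := hmin _ hcp hc0 hcq
    have hm := IsLocalization.map_comap q.primeCompl (Localization.AtPrime q) P
    rw [← hm]
    exact (congrArg (Ideal.map (algebraMap B (Localization.AtPrime q))) he).trans
      Localization.AtPrime.map_eq_maximalIdeal
  have hD : IsDiscreteValuationRing (Localization.AtPrime q) := by
    refine ((IsDiscreteValuationRing.TFAE (Localization.AtPrime q) hnf).out 0 3).2 ?_
    refine ⟨inferInstance, IsLocalRing.maximalIdeal (Localization.AtPrime q), ⟨?_, ?_⟩, ?_⟩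
    · intro h
      exact hnf (IsLocalRing.isField_iff_maximalIdeal_eq.2 h)
    · exact (IsLocalRing.maximalIdeal.isMaximal _).isPrime
    · intro P hP
      exact huniq P hP.1 hP.2
  obtain ⟨w, hw⟩ := IsDiscreteValuationRing.exists_irreducible (Localization.AtPrime q)
  obtain ⟨⟨u, c⟩, huc⟩ := IsLocalization.surj q.primeCompl w
  have hunit : ∀ s : B, s ∉ q → IsUnit (algebraMap B (Localization.AtPrime q) s) := fun s hs =>
    IsLocalization.map_units (Localization.AtPrime q) (⟨s, hs⟩ : q.primeCompl)
  have hcu : IsUnit (algebraMap B (Localization.AtPrime q) (c : B)) := hunit _ c.2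
  simp only at huc
  have hui : Irreducible (algebraMap B (Localization.AtPrime q) u) := by
    rw [← huc]
    exact (irreducible_mul_isUnit hcu).2 hw
  have huq : u ∈ q := by
    by_contra h
    exact hui.not_isUnit (hunit u h)
  have hu0 : u ≠ 0 := by
    intro h
    rw [h, map_zero] at hui
    exact not_irreducible_zero hui
  refine ⟨u, huq, hu0, fun b hb => ?_⟩
  have hb' : algebraMap B (Localization.AtPrime q) b ≠ 0 := by
    intro h
    exact hb (hinj (h.trans (map_zero _).symm))
  obtain ⟨n, v, hv⟩ := IsDiscreteValuationRing.eq_unit_mul_pow_irreducible hb' hui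
  obtain ⟨⟨s', s⟩, hs⟩ := IsLocalization.surj q.primeCompl (v : Localization.AtPrime q)
  simp only at hs
  refine ⟨n, (s : B), s', s.2, ?_, ?_⟩
  · intro h
    have h1 := (hmem s').1 h
    rw [← hs] at h1
    have h2 : IsUnit ((v : Localization.AtPrime q) *
        algebraMap B (Localization.AtPrime q) (s : B)) := v.isUnit.mul (hunit _ s.2)
    exact (IsLocalRing.mem_maximalIdeal _).1 h1 h2
  · apply hinj
    rw [map_mul, map_mul, map_pow, hv, ← hs]
    ring

include F in
theorem exists_unif (t : A) (ht : Prime t) (q : Ideal (integralClosure A K)) (hq : q.IsPrime)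
    (hqt : ∀ a : A, algebraMap A (integralClosure A K) a ∈ q ↔ t ∣ a) :
    ∃ u ∈ q, ∀ x : K, x ≠ 0 → ∃ (k : ℤ) (s s' : integralClosure A K), s ∉ q ∧ s' ∉ q ∧
      (s : K) * x = (s' : K) * ((u : integralClosure A K) : K) ^ k := by
  have : CharZero K := charZero_of_injective_algebraMap (algebraMap ℂ K).injective
  have : CharZero F := by
    refine ⟨fun m n h => ?_⟩
    have h1 := congrArg (algebraMap F K) h
    rw [map_natCast, map_natCast] at h1
    exact Nat.cast_injective h1
  have : IsNoetherianRing (integralClosure A K) := integralClosure.isNoetherianRing (K := F) K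
  have : IsIntegrallyClosed (integralClosure A K) :=
    integralClosure.isIntegrallyClosedOfFiniteExtension F
  have : IsFractionRing (integralClosure A K) K :=
    integralClosure.isFractionRing_of_finite_extension F K
  have : Algebra.IsIntegral A (integralClosure A K) := inferInstance
  have hAK : Function.Injective (algebraMap A K) := by
    rw [IsScalarTower.algebraMap_eq A F K]
    exact (algebraMap F K).injective.comp (IsFractionRing.injective A F)
  have htq : algebraMap A (integralClosure A K) t ∈ q := (hqt t).2 dvd_rfl
  have hq0 : q ≠ ⊥ := by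
    intro h
    rw [h, Ideal.mem_bot] at htq
    have h1 := congrArg (algebraMap (integralClosure A K) K) htq
    rw [← IsScalarTower.algebraMap_apply, map_zero] at h1
    exact ht.ne_zero (hAK (h1.trans (map_zero _).symm))
  have := hq
  have hmin : ∀ p : Ideal (integralClosure A K), p.IsPrime → p ≠ ⊥ → p ≤ q → p = q := by
    intro p hp hp0 hpq
    have := hp
    have hc := Ideal.IsIntegral.comap_ne_bot A hp0
    have hcp : (p.comap (algebraMap A (integralClosure A K))).IsPrime := Ideal.comap_isPrime _ _
    obtain ⟨r, hr, hrp⟩ := hcp.exists_mem_prime_of_ne_bot hc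
    have hrq : t ∣ r := (hqt r).1 (hpq (Ideal.mem_comap.1 hr))
    have has : Associated t r := ht.associated_of_dvd hrp hrq
    obtain ⟨v, hv⟩ := has
    have htp : t ∈ p.comap (algebraMap A (integralClosure A K)) := by
      have h1 : t = r * ((v⁻¹ : Aˣ) : A) := by
        rw [← hv, mul_assoc, Units.mul_inv, mul_one]
      rw [h1]
      exact Ideal.mul_mem_right _ _ hr
    by_contra hne
    have hlt := Ideal.IsIntegral.comap_lt_comap (R := A) (lt_of_le_of_ne hpq hne)
    obtain ⟨-, a, ha, hap⟩ := SetLike.lt_iff_le_and_exists.1 hlt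
    apply hap
    obtain ⟨b, rfl⟩ := (hqt a).1 ha
    exact Ideal.mul_mem_right _ _ htp
  obtain ⟨u, huq, hu0, hu⟩ := unif_of_min q hq0 hmin
  refine ⟨u, huq, fun x hx => ?_⟩
  obtain ⟨b, c, hc, hbc⟩ := IsFractionRing.div_surjective (A := integralClosure A K) x
  have hc0 : c ≠ 0 := nonZeroDivisors.ne_zero hc
  have hcK : algebraMap (integralClosure A K) K c ≠ 0 := by
    intro h
    exact hc0 ((IsFractionRing.injective (integralClosure A K) K) (h.trans (map_zero _).symm))
  have hb0 : b ≠ 0 := by
    intro h
    rw [h, map_zero, zero_div] at hbc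
    exact hx hbc.symm
  obtain ⟨n, s₁, s₁', h₁, h₁', e₁⟩ := hu b hb0
  obtain ⟨m, s₂, s₂', h₂, h₂', e₂⟩ := hu c hc0
  have huK : ((u : integralClosure A K) : K) ≠ 0 := by
    intro h
    exact hu0 (Subtype.ext h)
  refine ⟨(n : ℤ) - (m : ℤ), s₁ * s₂', s₁' * s₂, ?_, ?_, ?_⟩
  · intro h
    rcases hq.mem_or_mem h with h | h
    · exact h₁ h
    · exact h₂' h
  · intro h
    rcases hq.mem_or_mem h with h | h
    · exact h₁' h
    · exact h₂ h
  · have E₁ : (s₁ : K) * (b : K) = (s₁' : K) * (u : K) ^ n := by
      have := congrArg (fun z : integralClosure A K => (z : K)) e₁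
      simpa using this
    have E₂ : (s₂ : K) * (c : K) = (s₂' : K) * (u : K) ^ m := by
      have := congrArg (fun z : integralClosure A K => (z : K)) e₂
      simpa using this
    have hx' : x = (b : K) / (c : K) := hbc.symm
    have hcK' : (c : K) ≠ 0 := hcK
    rw [hx', zpow_sub₀ huK, zpow_natCast, zpow_natCast]
    push_cast
    have hum : (u : K) ^ m ≠ 0 := pow_ne_zero _ huK
    field_simp
    calc (s₁ : K) * (s₂' : K) * (b : K) * (u : K) ^ m
        = ((s₁ : K) * (b : K)) * ((s₂' : K) * (u : K) ^ m) := by ring
      _ = ((s₁' : K) * (u : K) ^ n) * ((s₂ : K) * (c : K)) := by rw [E₁, E₂]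
      _ = _ := by ring

end Pool.Agent.Helper20.TS
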