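import Pool.Agent.Helper20.TS.L1a

/-!
# TS-L1b: derivations of `A` and ramification

Setting of L1a.  `D` is a derivation of `K` with `D A ⊆ A`, `α` a `K`-linear function of the
derivations with `α E ∈ B` for all derivations `E` of `B`.  Claim: `t α(D) ∈ q B_q`.

Plan.  Write `O` for `B_q` (all `x` with `s x ∈ B` for some `s ∉ q`) and `m` for its maximal
ideal (all `x` with `s x ∈ q`).  Take `u` of L1a, `m = u O`, and `t = ε u ^ e` with a unit `ε` and
`e ≥ 1` (`t ∈ q`).  `B` is a finite `A`-module (IsIntegralClosure.finite), so there is a natural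
number `M` with `u ^ M D (B) ⊆ O` (each `D b` is a unit times a power of `u`), hence
`u ^ M D (O) ⊆ O`; take the least one.
(1) `M ≤ e - 1`: otherwise `M ≥ e`, `M ≥ 1`.  Let `δ x` be the class of `u ^ M D x` in `O / m`.
For `a ∈ A`: `δ a = 0`.  From `t = ε u ^ e`: `u ^ M D t ∈ u ^ M O` and it equals
`e u ^ (e - 1) ε (u ^ M D u) + u ^ e (u ^ M D ε)`, so `u ^ M D u ∈ m` and `δ u = 0`; hence `δ`
vanishes on `m`.  For `b ∈ B` take `g ∈ A[X]` whose reduction is a nonzero multiple of the minimal
polynomial of the class of `b` over the fraction field of `A / t` (algebraic, characteristic `0`):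
`g(b) ∈ m`, `g'(b) ∉ m`, so `0 = δ (g b) = g'(b) δ b` and `δ b = 0`; and `δ (b / s) = 0`.  So
`u ^ (M - 1) D (O) ⊆ O`, a contradiction.
(2) `E = u ^ M D` maps `B` to `O` and `A` to `B` (take `u ∈ B`), so `g E` preserves `B` for some
`g ∈ B`, `g ∉ q`; `α (g E) = g u ^ M α D ∈ B`, and `t α D = ε u ^ (e - M) (u ^ M α D) ∈ m`.
-/

set_option autoImplicit false

namespace Pool.Agent.Helper20.TS

open Module Pool.Agent.Helper37.SD

/-- the local ring of `q` inside `K` -/
private def Oq {A K : Type} [CommRing A] [Field K] [Algebra A K] (q : Ideal (integralClosure A K))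
    (hq : q.IsPrime) : Subring K where
  carrier := {x | ∃ s : integralClosure A K, s ∉ q ∧ ∃ b : integralClosure A K, (s : K) * x = (b : K)}
  mul_mem' := by
    rintro x y ⟨s, hs, b, hb⟩ ⟨s', hs', b', hb'⟩
    refine ⟨s * s', fun h => (hq.mem_or_mem h).elim hs hs', b * b', ?_⟩
    push_cast
    rw [← hb, ← hb']
    ring
  one_mem' := ⟨1, fun h => hq.ne_top ((Ideal.eq_top_iff_one q).2 h), 1, by push_cast; ring⟩
  add_mem' := by
    rintro x y ⟨s, hs, b, hb⟩ ⟨s', hs', b', hb'⟩
    refine ⟨s * s', fun h => (hq.mem_or_mem h).elim hs hs', s' * b + s * b', ?_⟩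
    push_cast
    rw [← hb, ← hb']
    ring
  zero_mem' := ⟨1, fun h => hq.ne_top ((Ideal.eq_top_iff_one q).2 h), 0, by push_cast; ring⟩
  neg_mem' := by
    rintro x ⟨s, hs, b, hb⟩
    refine ⟨s, hs, -b, ?_⟩
    push_cast
    rw [← hb]
    ring

/-- its maximal ideal -/
private def Mq {A K : Type} [CommRing A] [Field K] [Algebra A K] (q : Ideal (integralClosure A K)) :
    Set K :=
  {x | ∃ s : integralClosure A K, s ∉ q ∧ ∃ b ∈ q, (s : K) * x = ((b : integralClosure A K) : K)}

section loc

variable {A K : Type} [CommRing A] [Field K] [Algebra A K] {q : Ideal (integralClosure A K)}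
  {hq : q.IsPrime}

private lemma Oq_coe (hq : q.IsPrime) (b : integralClosure A K) : (b : K) ∈ Oq q hq :=
  ⟨1, fun h => hq.ne_top ((Ideal.eq_top_iff_one q).2 h), b, by push_cast; ring⟩

private lemma Mq_O (hq : q.IsPrime) {x : K} (h : x ∈ Mq q) : x ∈ Oq q hq := by
  obtain ⟨s, hs, b, _, hb⟩ := h
  exact ⟨s, hs, b, hb⟩

private lemma Mq_add (hq : q.IsPrime) {x y : K} (hx : x ∈ Mq q) (hy : y ∈ Mq q) : x + y ∈ Mq q := by
  obtain ⟨s, hs, b, hbq, hb⟩ := hx
  obtain ⟨s', hs', b', hbq', hb'⟩ := hy
  refine ⟨s * s', fun h => (hq.mem_or_mem h).elim hs hs', s' * b + s * b',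
    q.add_mem (q.mul_mem_left _ hbq) (q.mul_mem_left _ hbq'), ?_⟩
  push_cast
  rw [← hb, ← hb']
  ring

private lemma Mq_mul {x y : K} (hx : x ∈ Oq q hq) (hy : y ∈ Mq q) : x * y ∈ Mq q := by
  obtain ⟨s, hs, b, hb⟩ := hx
  obtain ⟨s', hs', b', hbq', hb'⟩ := hy
  refine ⟨s * s', fun h => (hq.mem_or_mem h).elim hs hs', b * b', q.mul_mem_left _ hbq', ?_⟩
  push_cast
  rw [← hb, ← hb']
  ring

private lemma Mq_neg {x : K} (hx : x ∈ Mq q) : -x ∈ Mq q := by
  obtain ⟨s, hs, b, hbq, hb⟩ := hx
  refine ⟨s, hs, -b, q.neg_mem hbq, ?_⟩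
  push_cast
  rw [← hb]
  ring

private lemma Mq_sub (hq : q.IsPrime) {x y : K} (hx : x ∈ Mq q) (hy : y ∈ Mq q) : x - y ∈ Mq q := by
  rw [sub_eq_add_neg]
  exact Mq_add hq hx (Mq_neg hy)

private lemma Mq_prime {x y : K} (hx : x ∈ Oq q hq) (hy : y ∈ Oq q hq) (h : x * y ∈ Mq q) :
    x ∈ Mq q ∨ y ∈ Mq q := by
  obtain ⟨s, hs, b, hb⟩ := hx
  obtain ⟨s', hs', b', hb'⟩ := hy
  obtain ⟨s'', hs'', b'', hbq, hb''⟩ := h
  have h1 : s'' * (b * b') = b'' * (s * s') := by
    apply Subtype.ext
    push_cast
    rw [← hb, ← hb', ← hb'']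
    ring
  have h2 : s'' * (b * b') ∈ q := by
    rw [h1]
    exact q.mul_mem_right _ hbq
  rcases hq.mem_or_mem h2 with h3 | h3
  · exact absurd h3 hs''
  · rcases hq.mem_or_mem h3 with h4 | h4
    · exact Or.inl ⟨s, hs, b, h4, hb⟩
    · exact Or.inr ⟨s', hs', b', h4, hb'⟩

private lemma Mq_coe (hq : q.IsPrime) {b : integralClosure A K} : (b : K) ∈ Mq q ↔ b ∈ q := by
  constructor
  · rintro ⟨s, hs, b', hb', h⟩
    have h1 : s * b = b' := by
      apply Subtype.ext
      push_cast
      exact h
    have h2 : s * b ∈ q := by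
      rw [h1]
      exact hb'
    exact (hq.mem_or_mem h2).resolve_left hs
  · intro h
    exact ⟨1, fun h => hq.ne_top ((Ideal.eq_top_iff_one q).2 h), b, h, by push_cast; ring⟩

private lemma Oq_inv {x : K} (hx : x ∈ Oq q hq) (hx0 : x ≠ 0) (h : x ∉ Mq q) : x⁻¹ ∈ Oq q hq := by
  obtain ⟨s, hs, b, hb⟩ := hx
  refine ⟨b, fun hbq => h ⟨s, hs, b, hbq, hb⟩, s, ?_⟩
  rw [← hb]
  field_simp

private lemma coe_ne {s : integralClosure A K} (hs : s ∉ q) : (s : K) ≠ 0 := by
  intro h
  apply hs
  have h1 : s = 0 := Subtype.ext h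
  rw [h1]
  exact q.zero_mem

variable {u : integralClosure A K} (hu : u ∈ q)
  (hU : ∀ x : K, x ≠ 0 → ∃ (k : ℤ) (s s' : integralClosure A K), s ∉ q ∧ s' ∉ q ∧
      (s : K) * x = (s' : K) * ((u : integralClosure A K) : K) ^ k)

include hu hU in
/-- nonzero elements of the local ring are units times natural powers of `u` -/
private lemma pow_rep (hq : q.IsPrime) (hu0 : (u : K) ≠ 0) {x : K} (hx : x ∈ Oq q hq) (hx0 : x ≠ 0) :
    ∃ (k : ℕ) (s s' : integralClosure A K), s ∉ q ∧ s' ∉ q ∧
      (s : K) * x = (s' : K) * (u : K) ^ k := by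
  obtain ⟨k, s, s', hs, hs', h⟩ := hU x hx0
  rcases le_or_gt 0 k with hk | hk
  · lift k to ℕ using hk
    rw [zpow_natCast] at h
    exact ⟨k, s, s', hs, hs', h⟩
  · exfalso
    obtain ⟨j, hj⟩ : ∃ j : ℕ, k = -((j : ℤ) + 1) := ⟨(-k - 1).toNat, by omega⟩
    have h1 : (s' : K) = ((s : K) * x * (u : K) ^ j) * (u : K) := by
      rw [h, hj, zpow_neg, mul_assoc, mul_assoc, ← pow_succ, ← zpow_natCast (u : K) (j + 1)]
      push_cast
      rw [inv_mul_cancel₀ (zpow_ne_zero _ hu0), mul_one]
    have h2 : (s' : K) ∈ Mq q := by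
      rw [h1]
      exact Mq_mul (hq := hq) ((Oq q hq).mul_mem ((Oq q hq).mul_mem (Oq_coe hq s) hx)
        ((Oq q hq).pow_mem (Oq_coe hq u) j)) ((Mq_coe hq).2 hu)
    exact hs' ((Mq_coe hq).1 h2)

include hu hU in
private lemma Mq_u (hq : q.IsPrime) (hu0 : (u : K) ≠ 0) {x : K} (hx : x ∈ Mq q) :
    ∃ y ∈ Oq q hq, x = (u : K) * y := by
  by_cases hx0 : x = 0
  · exact ⟨0, (Oq q hq).zero_mem, by rw [hx0, mul_zero]⟩
  · obtain ⟨k, s, s', hs, hs', h⟩ := pow_rep hu hU hq hu0 (Mq_O hq hx) hx0
    have hs0 := coe_ne hs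
    cases k with
    | zero =>
      exfalso
      rw [pow_zero, mul_one] at h
      have h1 : (s' : K) ∈ Mq q := by
        rw [← h]
        exact Mq_mul (hq := hq) (Oq_coe hq s) hx
      exact hs' ((Mq_coe hq).1 h1)
    | succ k =>
      refine ⟨(s' : K) * (u : K) ^ k / (s : K), ⟨s, hs, s' * u ^ k, ?_⟩, ?_⟩
      · push_cast
        field_simp
      · rw [pow_succ] at h
        field_simp
        rw [mul_comm x, h]
        ring

end loc

private lemma exists_sep {A K : Type} [CommRing A] [IsDomain A] [Algebra ℂ A] [Field K] [Algebra A K]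
    {t : A} (ht : Prime t) {q : Ideal (integralClosure A K)}
    (hqt : ∀ a : A, algebraMap A (integralClosure A K) a ∈ q ↔ t ∣ a) (b : integralClosure A K) :
    ∃ g : Polynomial A, Polynomial.aeval b g ∈ q ∧ Polynomial.aeval b (Polynomial.derivative g) ∉ q := by
  classical
  have hex : ∃ n, ∃ g : Polynomial A, g.natDegree = n ∧ ¬ t ∣ g.leadingCoeff ∧
      Polynomial.aeval b g ∈ q := by
    obtain ⟨g, hg, hgb⟩ := integralClosure.isIntegral (R := A) b
    refine ⟨_, g, rfl, ?_, ?_⟩
    · rw [hg.leadingCoeff]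
      exact ht.not_dvd_one
    · rw [Polynomial.aeval_def, hgb]
      exact q.zero_mem
  obtain ⟨g, hgn, hgl, hgq⟩ := Nat.find_spec hex
  set n := Nat.find hex with hn
  refine ⟨g, hgq, fun hd => ?_⟩
  have hn0 : n ≠ 0 := by
    intro h0
    rw [h0] at hgn
    obtain ⟨a, ha⟩ := Polynomial.natDegree_eq_zero.1 hgn
    apply hgl
    rw [← ha, Polynomial.leadingCoeff_C, ← hqt]
    rw [← ha, Polynomial.aeval_C] at hgq
    exact hgq
  have hunit : IsUnit ((n : ℕ) : A) := by
    have h1 : ((n : ℕ) : A) = algebraMap ℂ A (n : ℂ) := by rw [map_natCast]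
    rw [h1]
    exact (IsUnit.mk0 _ (Nat.cast_ne_zero.2 hn0)).map (algebraMap ℂ A)
  have hcoef : (Polynomial.derivative g).coeff (n - 1) = g.leadingCoeff * (n : A) := by
    rw [Polynomial.coeff_derivative, Polynomial.leadingCoeff, hgn]
    have h1 : n - 1 + 1 = n := by omega
    rw [h1]
    have h2 : ((n - 1 : ℕ) : A) + 1 = (n : A) := by
      have := congrArg (Nat.cast (R := A)) h1
      push_cast at this
      exact this
    rw [h2]
  have hndvd : ¬ t ∣ g.leadingCoeff * (n : A) := by
    intro h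
    rcases ht.dvd_or_dvd h with h | h
    · exact hgl h
    · exact ht.not_isUnit (isUnit_of_dvd_unit h hunit)
  have hne : (Polynomial.derivative g).coeff (n - 1) ≠ 0 := by
    rw [hcoef]
    intro h
    apply hndvd
    rw [h]
    exact dvd_zero t
  have hlt : (Polynomial.derivative g).natDegree < n := by
    rw [← hgn]
    exact Polynomial.natDegree_derivative_lt (by rw [hgn]; exact hn0)
  have heq : (Polynomial.derivative g).natDegree = n - 1 :=
    le_antisymm (by omega) (Polynomial.le_natDegree_of_ne_zero hne)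
  refine Nat.find_min hex hlt ⟨Polynomial.derivative g, rfl, ?_, hd⟩
  rw [Polynomial.leadingCoeff, heq, hcoef]
  exact hndvd

private lemma der_aeval {A K : Type} [CommRing A] [Field K] [Algebra A K] [Algebra ℂ K]
    (D : Derivation ℂ K K) (hD : ∀ a : A, ∃ b : A, D (algebraMap A K a) = algebraMap A K b)
    (b : integralClosure A K) (g : Polynomial A) :
    ∃ y : integralClosure A K, D ((Polynomial.aeval b g : integralClosure A K) : K) =
      (y : K) + ((Polynomial.aeval b (Polynomial.derivative g) : integralClosure A K) : K) * D (b : K) := by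
  induction g using Polynomial.induction_on' with
  | add p r hp hr =>
    obtain ⟨y, hy⟩ := hp
    obtain ⟨y', hy'⟩ := hr
    refine ⟨y + y', ?_⟩
    rw [map_add, Polynomial.derivative_add, map_add, Subalgebra.coe_add, Subalgebra.coe_add,
      Subalgebra.coe_add, map_add, hy, hy']
    ring
  | monomial n a =>
    obtain ⟨a', ha'⟩ := hD a
    refine ⟨algebraMap A (integralClosure A K) a' * b ^ n, ?_⟩
    rw [Polynomial.aeval_monomial, Polynomial.derivative_monomial, Polynomial.aeval_monomial]
    have e1 : ((algebraMap A (integralClosure A K) a * b ^ n : integralClosure A K) : K) =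
        algebraMap A K a * (b : K) ^ n := rfl
    have e2 : ((algebraMap A (integralClosure A K) a' * b ^ n : integralClosure A K) : K) =
        algebraMap A K a' * (b : K) ^ n := rfl
    have e3 : ((algebraMap A (integralClosure A K) (a * n) * b ^ (n - 1) : integralClosure A K) : K) =
        algebraMap A K a * n * (b : K) ^ (n - 1) := by
      have : ((algebraMap A (integralClosure A K) (a * n) * b ^ (n - 1) : integralClosure A K) : K) =
        algebraMap A K (a * n) * (b : K) ^ (n - 1) := rfl
      rw [this, map_mul, map_natCast]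
    rw [e1, e2, e3, Derivation.leibniz, Derivation.leibniz_pow, ha']
    simp only [smul_eq_mul, nsmul_eq_mul]
    ring

variable {A F K : Type} [CommRing A] [IsDomain A] [UniqueFactorizationMonoid A]
  [IsNoetherianRing A] [Algebra ℂ A] [Field F] [Algebra A F] [IsFractionRing A F] [Field K]
  [Algebra F K] [Algebra A K] [IsScalarTower A F K] [Algebra ℂ K] [IsScalarTower ℂ A K]
  [FiniteDimensional F K]

include F in
theorem ram (D : Derivation ℂ K K)
    (hD : ∀ a : A, ∃ b : A, D (algebraMap A K a) = algebraMap A K b)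
    (α : Derivation ℂ K K →ₗ[K] K)
    (hα : ∀ E : Derivation ℂ K K, (∀ x : K, IsIntegral A x → IsIntegral A (E x)) →
      IsIntegral A (α E))
    (t : A) (ht : Prime t) (q : Ideal (integralClosure A K)) (hq : q.IsPrime)
    (hqt : ∀ a : A, algebraMap A (integralClosure A K) a ∈ q ↔ t ∣ a) :
    ∃ s : integralClosure A K, s ∉ q ∧ ∃ b ∈ q,
      (s : K) * (algebraMap A K t * α D) = ((b : integralClosure A K) : K) := by
  classical
  obtain ⟨u, hu, hU⟩ := exists_unif (F := F) t ht q hq hqt
  -- the base field has characteristic zero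
  have hcA : CharZero A := charZero_of_injective_algebraMap (algebraMap ℂ A).injective
  have hcF : CharZero F := charZero_of_injective_algebraMap (IsFractionRing.injective A F)
  have hinj : Function.Injective (algebraMap A K) := by
    rw [IsScalarTower.algebraMap_eq A F K]
    exact (algebraMap F K).injective.comp (IsFractionRing.injective A F)
  have hcK : CharZero K := charZero_of_injective_algebraMap hinj
  have ht0 : algebraMap A K t ≠ 0 := by
    intro h
    exact ht.ne_zero (hinj (by rw [h, map_zero]))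
  have htq : algebraMap A (integralClosure A K) t ∈ q := (hqt t).2 dvd_rfl
  have hfin : Module.Finite A (integralClosure A K) := IsIntegralClosure.finite A F K _
  obtain ⟨S, hS⟩ := (Module.finite_def.1 hfin : (⊤ : Submodule A (integralClosure A K)).FG)
  set O := Oq q hq with hO
  have hOc : ∀ b : integralClosure A K, (b : K) ∈ O := Oq_coe hq
  have hu0 : (u : K) ≠ 0 := by
    intro h0
    obtain ⟨k, s, s', hs, hs', h⟩ := hU _ ht0
    rw [h0] at h
    by_cases hk : k = 0
    · rw [hk, zpow_zero, mul_one] at h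
      have h1 : s * algebraMap A (integralClosure A K) t = s' := Subtype.ext h
      exact hs' (h1 ▸ q.mul_mem_left _ htq)
    · rw [zero_zpow _ hk, mul_zero] at h
      exact (mul_ne_zero (coe_ne hs) ht0) h
  have hAO : ∀ a : A, algebraMap A K a ∈ O := fun a => hOc (algebraMap A (integralClosure A K) a)
  have hup : ∀ n : ℕ, (u : K) ^ n ∈ O := fun n => O.pow_mem (hOc u) n
  have huM : (u : K) ∈ Mq q := (Mq_coe hq).2 hu
  have hDO : ∀ a : A, D (algebraMap A K a) ∈ O := fun a => by
    obtain ⟨b, hb⟩ := hD a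
    rw [hb]
    exact hAO b
  -- the form of `t`
  obtain ⟨e, s₀, s₁, hs₀, hs₁, hte⟩ := pow_rep hu hU hq hu0 (hAO t) ht0
  have he : 1 ≤ e := by
    by_contra h
    have h1 : e = 0 := by omega
    rw [h1, pow_zero, mul_one] at hte
    have h2 : s₀ * algebraMap A (integralClosure A K) t = s₁ := Subtype.ext hte
    exact hs₁ (h2 ▸ q.mul_mem_left _ htq)
  have hs₀0 := coe_ne hs₀
  have hs₁0 := coe_ne hs₁
  set ε : K := (s₁ : K) / (s₀ : K) with hε
  have hεt : algebraMap A K t = ε * (u : K) ^ e := by
    rw [hε, div_mul_eq_mul_div, ← hte]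
    field_simp
  have hεO : ε ∈ O := ⟨s₀, hs₀, s₁, by rw [hε]; field_simp⟩
  have hεM : ε ∉ Mq q := by
    intro h
    have h1 : (s₁ : K) ∈ Mq q := by
      have h2 : (s₁ : K) = (s₀ : K) * ε := by rw [hε]; field_simp
      rw [h2]
      exact Mq_mul (hq := hq) (hOc s₀) h
    exact hs₁ ((Mq_coe hq).1 h1)
  -- from `B` to the local ring
  have hloc : ∀ M : ℕ, (∀ b : integralClosure A K, (u : K) ^ M * D (b : K) ∈ O) →
      ∀ x ∈ O, (u : K) ^ M * D x ∈ O := by
    intro M hM x hx
    obtain ⟨s, hs, b, hb⟩ := hx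
    have h1 : D (b : K) = (s : K) * D x + x * D (s : K) := by
      rw [← hb, Derivation.leibniz]
      simp only [smul_eq_mul]
    have h2 : (u : K) ^ M * D x = (s : K)⁻¹ * ((u : K) ^ M * D (b : K) - x * ((u : K) ^ M * D (s : K))) := by
      rw [h1]
      field_simp [coe_ne hs]
      ring
    rw [h2]
    refine O.mul_mem (Oq_inv (hOc s) (coe_ne hs) fun h => hs ((Mq_coe hq).1 h)) (O.sub_mem (hM b) ?_)
    exact O.mul_mem ⟨s, hs, b, hb⟩ (hM s)
  -- existence of `M`
  have hex : ∃ M : ℕ, ∀ x ∈ O, (u : K) ^ M * D x ∈ O := by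
    have h1 : ∀ x : K, ∃ M : ℕ, (u : K) ^ M * x ∈ O := by
      intro x
      by_cases hx : x = 0
      · exact ⟨0, by rw [hx, mul_zero]; exact O.zero_mem⟩
      · obtain ⟨k, s, s', hs, hs', h⟩ := hU x hx
        obtain ⟨j, hj⟩ : ∃ j : ℕ, (j : ℤ) = (k.natAbs : ℤ) + k := ⟨((k.natAbs : ℤ) + k).toNat, by omega⟩
        refine ⟨k.natAbs, s, hs, s' * u ^ j, ?_⟩
        rw [Subalgebra.coe_mul, Subalgebra.coe_pow, mul_left_comm, h, mul_left_comm]
        congr 1
        rw [← zpow_natCast, ← zpow_natCast, ← zpow_add₀ hu0, hj]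
    choose M hM using h1
    have h2 : ∀ b ∈ S, (u : K) ^ (S.sup fun b => M (D (b : K))) * D (b : K) ∈ O := by
      intro b hb
      have h3 : M (D (b : K)) ≤ S.sup fun b => M (D (b : K)) :=
        Finset.le_sup (f := fun b : integralClosure A K => M (D (b : K))) hb
      obtain ⟨k, hk⟩ := Nat.exists_eq_add_of_le h3
      rw [hk, pow_add, mul_comm ((u : K) ^ M (D (b : K))), mul_assoc]
      exact O.mul_mem (hup k) (hM _)
    refine ⟨S.sup fun b => M (D (b : K)), hloc _ fun b => ?_⟩
    set N := S.sup fun b => M (D (b : K))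
    have hb : b ∈ Submodule.span A (S : Set (integralClosure A K)) := by
      rw [hS]
      exact Submodule.mem_top
    induction hb using Submodule.span_induction with
    | mem x hx => exact h2 x hx
    | zero =>
      push_cast
      rw [map_zero, mul_zero]
      exact O.zero_mem
    | add x y _ _ hx hy =>
      push_cast
      rw [map_add, mul_add]
      exact O.add_mem hx hy
    | smul a x _ hx =>
      have h4 : ((a • x : integralClosure A K) : K) = algebraMap A K a * (x : K) := by
        rw [Algebra.smul_def]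
        rfl
      rw [h4, Derivation.leibniz]
      simp only [smul_eq_mul]
      have h5 : (u : K) ^ N * (algebraMap A K a * D (x : K) + (x : K) * D (algebraMap A K a)) =
          algebraMap A K a * ((u : K) ^ N * D (x : K)) + (u : K) ^ N * ((x : K) * D (algebraMap A K a)) := by
        ring
      rw [h5]
      exact O.add_mem (O.mul_mem (hAO a) hx) (O.mul_mem (hup N) (O.mul_mem (hOc x) (hDO a)))
  obtain ⟨M, hM, hMmin⟩ : ∃ M : ℕ, (∀ x ∈ O, (u : K) ^ M * D x ∈ O) ∧
      ∀ M' < M, ¬ ∀ x ∈ O, (u : K) ^ M' * D x ∈ O :=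
    ⟨Nat.find hex, Nat.find_spec hex, fun M' h => Nat.find_min hex h⟩
  -- `M ≤ e - 1`
  have hMe : M < e := by
    by_contra hcon
    rw [not_lt] at hcon
    have hM1 : 1 ≤ M := he.trans hcon
    have huMM : (u : K) ^ M ∈ Mq q := by
      obtain ⟨k, hk⟩ : ∃ k, M = k + 1 := ⟨M - 1, by omega⟩
      rw [hk, pow_succ]
      exact Mq_mul (hq := hq) (hup k) huM
    -- `u ^ M D u` lies in the maximal ideal
    have hDu : (u : K) ^ M * D (u : K) ∈ Mq q := by
      have h1 : D (algebraMap A K t) = ε * ((e : K) * ((u : K) ^ (e - 1) * D (u : K))) + (u : K) ^ e * D ε := by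
        rw [hεt, Derivation.leibniz, Derivation.leibniz_pow]
        simp only [smul_eq_mul, nsmul_eq_mul]
      obtain ⟨k, hk⟩ := Nat.exists_eq_add_of_le hcon
      have h2 : (e : K) * ε * ((u : K) ^ M * D (u : K)) =
          (u : K) * ((u : K) ^ k * D (algebraMap A K t) - (u : K) ^ M * D ε) := by
        have h3 : (u : K) ^ (e - 1) * ((e : K) * ε * ((u : K) ^ M * D (u : K))) =
            (u : K) ^ (e - 1) * ((u : K) * ((u : K) ^ k * D (algebraMap A K t) - (u : K) ^ M * D ε)) := by
          rw [h1, hk]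
          have h4 : (u : K) ^ e = (u : K) ^ (e - 1) * (u : K) := by
            rw [← pow_succ]
            congr 1
            omega
          rw [pow_add, h4]
          ring
        exact mul_left_cancel₀ (pow_ne_zero _ hu0) h3
      have h5 : (e : K) * ε * ((u : K) ^ M * D (u : K)) ∈ Mq q := by
        rw [h2, mul_comm]
        exact Mq_mul (hq := hq) (O.sub_mem (O.mul_mem (hup k) (hDO t)) (hM ε hεO)) huM
      have heA : (e : K) = ((algebraMap A (integralClosure A K) (e : A) : integralClosure A K) : K) := by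
        rw [map_natCast]
        push_cast
        rfl
      have heO : (e : K) ∈ O := by
        rw [heA]
        exact hOc _
      have heM : (e : K) ∉ Mq q := by
        rw [heA, Mq_coe hq, hqt]
        intro h
        have h6 : IsUnit ((e : ℕ) : A) := by
          have h7 : ((e : ℕ) : A) = algebraMap ℂ A (e : ℂ) := by rw [map_natCast]
          rw [h7]
          exact (IsUnit.mk0 _ (Nat.cast_ne_zero.2 (by omega))).map (algebraMap ℂ A)
        exact ht.not_isUnit (isUnit_of_dvd_unit h h6)
      rcases Mq_prime (hq := hq) (O.mul_mem heO hεO) (hM _ (hOc u)) h5 with h6 | h6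
      · rcases Mq_prime (hq := hq) heO hεO h6 with h7 | h7
        · exact absurd h7 heM
        · exact absurd h7 hεM
      · exact h6
    -- the maximal ideal
    have hDm : ∀ x ∈ Mq q, (u : K) ^ M * D x ∈ Mq q := by
      intro x hx
      obtain ⟨y, hy, hxy⟩ := Mq_u hu hU hq hu0 hx
      have h1 : (u : K) ^ M * D x = (u : K) ^ M * D y * (u : K) + y * ((u : K) ^ M * D (u : K)) := by
        rw [hxy, Derivation.leibniz]
        simp only [smul_eq_mul]
        ring
      rw [h1]
      exact Mq_add hq (Mq_mul (hq := hq) (hM y hy) huM) (Mq_mul (hq := hq) hy hDu)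
    -- integral elements
    have hDB : ∀ b : integralClosure A K, (u : K) ^ M * D (b : K) ∈ Mq q := by
      intro b
      obtain ⟨g, hg, hg'⟩ := exists_sep ht hqt b
      obtain ⟨y, hy⟩ := der_aeval D hD b g
      have h1 : ((Polynomial.aeval b (Polynomial.derivative g) : integralClosure A K) : K) *
          ((u : K) ^ M * D (b : K)) = (u : K) ^ M * D ((Polynomial.aeval b g : integralClosure A K) : K) -
            (y : K) * (u : K) ^ M := by
        rw [hy]
        ring
      have h2 : ((Polynomial.aeval b (Polynomial.derivative g) : integralClosure A K) : K) *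
          ((u : K) ^ M * D (b : K)) ∈ Mq q := by
        rw [h1]
        exact Mq_sub hq (hDm _ ((Mq_coe hq).2 hg)) (Mq_mul (hq := hq) (hOc y) huMM)
      rcases Mq_prime (hq := hq) (hOc _) (hM _ (hOc b)) h2 with h3 | h3
      · exact absurd ((Mq_coe hq).1 h3) hg'
      · exact h3
    have hDO' : ∀ x ∈ O, (u : K) ^ M * D x ∈ Mq q := by
      intro x hx
      have hx' := hx
      obtain ⟨s, hs, b, hb⟩ := hx
      have h1 : (s : K) * ((u : K) ^ M * D x) = (u : K) ^ M * D (b : K) - x * ((u : K) ^ M * D (s : K)) := by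
        rw [← hb, Derivation.leibniz]
        simp only [smul_eq_mul]
        ring
      have h2 : (s : K) * ((u : K) ^ M * D x) ∈ Mq q := by
        rw [h1]
        exact Mq_sub hq (hDB b) (Mq_mul (hq := hq) hx' (hDB s))
      rcases Mq_prime (hq := hq) (hOc s) (hM x hx') h2 with h3 | h3
      · exact absurd ((Mq_coe hq).1 h3) hs
      · exact h3
    refine hMmin (M - 1) (by omega) fun x hx => ?_
    obtain ⟨y, hy, hxy⟩ := Mq_u hu hU hq hu0 (hDO' x hx)
    have h1 : (u : K) ^ (M - 1) * D x = y := by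
      have h2 : (u : K) * ((u : K) ^ (M - 1) * D x) = (u : K) * y := by
        rw [← hxy, ← mul_assoc, ← pow_succ']
        congr 2
        omega
      exact mul_left_cancel₀ hu0 h2
    rw [h1]
    exact hy
  -- a common denominator
  have hcd : ∀ T : Finset (integralClosure A K), ∃ g : integralClosure A K, g ∉ q ∧
      ∀ b ∈ T, ∃ c : integralClosure A K, (g : K) * ((u : K) ^ M * D (b : K)) = (c : K) := by
    intro T
    induction T using Finset.induction_on with
    | empty =>
      exact ⟨1, fun h => hq.ne_top ((Ideal.eq_top_iff_one q).2 h), fun b hb => absurd hb (Finset.notMem_empty b)⟩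
    | insert b T _ ih =>
      obtain ⟨g, hg, h⟩ := ih
      obtain ⟨s, hs, c, hc⟩ := hM _ (hOc b)
      refine ⟨g * s, fun h => (hq.mem_or_mem h).elim hg hs, fun b' hb' => ?_⟩
      rcases Finset.mem_insert.1 hb' with h1 | h1
      · rw [h1]
        refine ⟨g * c, ?_⟩
        push_cast
        rw [← hc]
        ring
      · obtain ⟨c', hc'⟩ := h b' h1
        refine ⟨s * c', ?_⟩
        push_cast
        rw [← hc']
        ring
  obtain ⟨g, hg, hgS⟩ := hcd S
  have hgB : ∀ b : integralClosure A K, ∃ c : integralClosure A K,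
      (g : K) * ((u : K) ^ M * D (b : K)) = (c : K) := by
    intro b
    have hb : b ∈ Submodule.span A (S : Set (integralClosure A K)) := by
      rw [hS]
      exact Submodule.mem_top
    induction hb using Submodule.span_induction with
    | mem x hx => exact hgS x hx
    | zero =>
      refine ⟨0, ?_⟩
      push_cast
      rw [map_zero, mul_zero, mul_zero]
    | add x y _ _ hx hy =>
      obtain ⟨c, hc⟩ := hx
      obtain ⟨c', hc'⟩ := hy
      refine ⟨c + c', ?_⟩
      push_cast
      rw [map_add, ← hc, ← hc']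
      ring
    | smul a x _ hx =>
      obtain ⟨c, hc⟩ := hx
      obtain ⟨a', ha'⟩ := hD a
      have h4 : ((a • x : integralClosure A K) : K) = algebraMap A K a * (x : K) := by
        rw [Algebra.smul_def]
        rfl
      refine ⟨algebraMap A _ a * c + g * u ^ M * x * algebraMap A _ a', ?_⟩
      have h5 : ((algebraMap A (integralClosure A K) a * c + g * u ^ M * x *
          algebraMap A (integralClosure A K) a' : integralClosure A K) : K) =
          algebraMap A K a * (c : K) + (g : K) * (u : K) ^ M * (x : K) * algebraMap A K a' := rfl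
      rw [h5, h4, Derivation.leibniz, ha', ← hc]
      simp only [smul_eq_mul]
      ring
  -- the derivation `g u ^ M D` of `B`
  have hint : IsIntegral A (α (((g : K) * (u : K) ^ M) • D)) := by
    refine hα _ fun x hx => ?_
    obtain ⟨c, hc⟩ := hgB ⟨x, hx⟩
    rw [Derivation.smul_apply, smul_eq_mul, mul_assoc]
    have h1 : (g : K) * ((u : K) ^ M * D x) = (c : K) := hc
    rw [h1]
    exact c.2
  rw [map_smul, smul_eq_mul] at hint
  have hαO : (u : K) ^ M * α D ∈ O := ⟨g, hg, ⟨_, hint⟩, by ring⟩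
  have hfinal : algebraMap A K t * α D ∈ Mq q := by
    obtain ⟨k, hk⟩ : ∃ k, e = k + 1 + M := ⟨e - M - 1, by omega⟩
    have h1 : algebraMap A K t * α D = ε * (u : K) ^ k * ((u : K) ^ M * α D) * (u : K) := by
      rw [hεt, hk, pow_add, pow_succ]
      ring
    rw [h1]
    exact Mq_mul (hq := hq) (O.mul_mem (O.mul_mem hεO (hup k)) hαO) huM
  exact hfinal

end Pool.Agent.Helper20.TS
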