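import Pool.Agent.Helper20.TS.Df

/-!
# TS-L2: from all primes over `(t)` to one denominator in `A`

Plan: the primes of `B` over `(t)` are minimal primes over `t B` (incomparability), so there are
finitely many (`B` is Noetherian).  The ideal `I` of all `b ∈ B` with `b y ∈ B` and `b y` in all
primes over `(t)` is contained in none of them (multiply the `s` of `hy` by elements of the other
primes).  If all elements of `I ∩ A` were divisible by `t`, a prime of `B` over `(t)` would contain
`I` (lying over for `A / (I ∩ A) → B / I`, Ideal.exists_ideal_over_prime_of_isIntegral).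
-/

set_option autoImplicit false

namespace Pool.Agent.Helper20.TS

open Module Pool.Agent.Helper37.SD

variable {A F K : Type} [CommRing A] [IsDomain A] [UniqueFactorizationMonoid A]
  [IsNoetherianRing A] [Algebra ℂ A] [Field F] [Algebra A F] [IsFractionRing A F] [Field K]
  [Algebra F K] [Algebra A K] [IsScalarTower A F K] [Algebra ℂ K] [IsScalarTower ℂ A K]
  [FiniteDimensional F K]

theorem charZero_F (A F K : Type) [CommRing A] [IsDomain A] [Algebra ℂ A] [Field F] [Algebra A F]
    [IsFractionRing A F] [Field K] [Algebra A K] [Algebra ℂ K] [IsScalarTower ℂ A K] :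
    CharZero F := by
  have h : Function.Injective (algebraMap ℂ K) := (algebraMap ℂ K).injective
  have hA : Function.Injective ((algebraMap A K).comp (algebraMap ℂ A)) := by
    rw [← IsScalarTower.algebraMap_eq]
    exact h
  have hF : Function.Injective (algebraMap A F) := IsFractionRing.injective A F
  have hA' : Function.Injective (algebraMap ℂ A) := by
    intro a b hab
    exact hA (by simp only [RingHom.comp_apply, hab])
  have : CharZero A := charZero_of_injective_algebraMap hA'
  exact charZero_of_injective_algebraMap hF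

include F in
theorem noeth_B : IsNoetherianRing (integralClosure A K) := by
  have : CharZero F := charZero_F A F K
  have : Algebra.IsSeparable F K := inferInstance
  exact IsIntegralClosure.isNoetherianRing A F K (integralClosure A K)

omit [IsDomain A] [UniqueFactorizationMonoid A] [IsNoetherianRing A] [Algebra ℂ A]
  [Algebra ℂ K] [IsScalarTower ℂ A K] in
theorem under_eq (t : A) (q : Ideal (integralClosure A K))
    (hq : ∀ a : A, algebraMap A (integralClosure A K) a ∈ q ↔ t ∣ a) :
    q.comap (algebraMap A (integralClosure A K)) = Ideal.span {t} := by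
  ext a
  rw [Ideal.mem_comap, hq, Ideal.mem_span_singleton]

omit [IsDomain A] [UniqueFactorizationMonoid A] [IsNoetherianRing A] [Algebra ℂ A]
  [Algebra ℂ K] [IsScalarTower ℂ A K] in
theorem over_le (t : A) (q q' : Ideal (integralClosure A K)) (hqp : q.IsPrime)
    (hq : ∀ a : A, algebraMap A (integralClosure A K) a ∈ q ↔ t ∣ a)
    (hq' : ∀ a : A, algebraMap A (integralClosure A K) a ∈ q' ↔ t ∣ a) (h : q ≤ q') : q = q' := by
  by_contra hne
  have h1 := Ideal.IsIntegral.comap_lt_comap (R := A) (lt_of_le_of_ne h hne)
  rw [under_eq t q hq, under_eq t q' hq'] at h1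
  exact lt_irrefl _ h1

include F in
theorem over_fin (t : A) : {q : Ideal (integralClosure A K) | q.IsPrime ∧
    ∀ a : A, algebraMap A (integralClosure A K) a ∈ q ↔ t ∣ a}.Finite := by
  have := noeth_B (A := A) (F := F) (K := K)
  refine ((Ideal.map (algebraMap A (integralClosure A K))
    (Ideal.span {t})).finite_minimalPrimes_of_isNoetherianRing).subset ?_
  rintro q ⟨hq, hqt⟩
  have h1 := Ideal.IsIntegral.mem_minimalPrimes_map_under (R := A) q
  have h2 : q.under A = Ideal.span {t} := under_eq t q hqt
  rwa [h2] at h1

/-- The elements `b` such that `b y` is in `B` and in all primes over `(t)`. -/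
def dI (y : K) (t : A) : Ideal (integralClosure A K) where
  carrier := {b | ∃ x : integralClosure A K, (b : K) * y = (x : K) ∧
    ∀ q : Ideal (integralClosure A K), q.IsPrime →
      (∀ a : A, algebraMap A (integralClosure A K) a ∈ q ↔ t ∣ a) → x ∈ q}
  add_mem' := by
    rintro a b ⟨x, hx, hx'⟩ ⟨z, hz, hz'⟩
    refine ⟨x + z, ?_, fun q h1 h2 => q.add_mem (hx' q h1 h2) (hz' q h1 h2)⟩
    push_cast
    rw [add_mul, hx, hz]
  zero_mem' := ⟨0, by simp, fun q _ _ => q.zero_mem⟩
  smul_mem' := by
    rintro c a ⟨x, hx, hx'⟩
    refine ⟨c * x, ?_, fun q h1 h2 => q.mul_mem_left c (hx' q h1 h2)⟩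
    rw [smul_eq_mul]
    push_cast
    rw [mul_assoc, hx]

include F in
theorem avoid (y : K) (t : A) (ht : Prime t)
    (hy : ∀ q : Ideal (integralClosure A K), q.IsPrime →
      (∀ a : A, algebraMap A (integralClosure A K) a ∈ q ↔ t ∣ a) →
        ∃ s : integralClosure A K, s ∉ q ∧ ∃ b ∈ q,
          (s : K) * y = ((b : integralClosure A K) : K)) :
    ∃ (s : A) (x : integralClosure A K), ¬ t ∣ s ∧ algebraMap A K s * y = (x : K) ∧
      ∀ q : Ideal (integralClosure A K), q.IsPrime →
        (∀ a : A, algebraMap A (integralClosure A K) a ∈ q ↔ t ∣ a) → x ∈ q := by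
  classical
  set P : Set (Ideal (integralClosure A K)) := {q | q.IsPrime ∧
    ∀ a : A, algebraMap A (integralClosure A K) a ∈ q ↔ t ∣ a} with hP
  have hfin : P.Finite := over_fin (A := A) (F := F) (K := K) t
  -- the ideal is in none of the primes
  have hnot : ∀ q ∈ P, ¬ dI y t ≤ q := by
    intro q hq hle
    obtain ⟨s, hs, b, hb, hsb⟩ := hy q hq.1 hq.2
    have hc : ∀ q' ∈ hfin.toFinset.erase q, ∃ c : integralClosure A K, c ∈ q' ∧ c ∉ q := by
      intro q' hq'
      rw [Finset.mem_erase, Set.Finite.mem_toFinset] at hq'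
      by_contra hcon
      push Not at hcon
      exact hq'.1 (over_le t q' q hq'.2.1 hq'.2.2 hq.2 hcon)
    choose! c hc1 hc2 using hc
    set C : integralClosure A K := ∏ q' ∈ hfin.toFinset.erase q, c q' with hC
    have hCq : C ∉ q := by
      intro h
      rw [hC] at h
      have := hq.1
      rw [Ideal.IsPrime.prod_mem_iff] at h
      obtain ⟨q', h1, h2⟩ := h
      exact hc2 q' h1 h2
    have hmem : C * s ∈ dI y t := by
      refine ⟨C * b, ?_, ?_⟩
      · push_cast
        rw [mul_assoc, hsb]
      · intro q' h1 h2
        by_cases hqq : q' = q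
        · rw [hqq]
          exact q.mul_mem_left C hb
        · refine q'.mul_mem_right b ?_
          have h3 : q' ∈ hfin.toFinset.erase q := by
            rw [Finset.mem_erase, Set.Finite.mem_toFinset]
            exact ⟨hqq, h1, h2⟩
          rw [hC, ← Finset.mul_prod_erase _ _ h3]
          exact q'.mul_mem_right _ (hc1 q' h3)
    rcases hq.1.mem_or_mem (hle hmem) with h | h
    · exact hCq h
    · exact hs h
  -- lying over
  have hex : ∃ s : A, ¬ t ∣ s ∧ algebraMap A (integralClosure A K) s ∈ dI y t := by
    by_contra hcon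
    push Not at hcon
    have hprime : (Ideal.span {t}).IsPrime := (Ideal.span_singleton_prime ht.ne_zero).2 ht
    obtain ⟨Q, hQ1, hQ2, hQ3⟩ := Ideal.exists_ideal_over_prime_of_isIntegral (Ideal.span {t})
      (dI (K := K) y t) (by
        intro a ha
        rw [Ideal.mem_comap] at ha
        rw [Ideal.mem_span_singleton]
        by_contra h
        exact hcon a h ha)
    refine hnot Q ⟨hQ2, fun a => ?_⟩ hQ1
    rw [← Ideal.mem_comap, hQ3, Ideal.mem_span_singleton]
  obtain ⟨s, hs, x, hx, hx'⟩ := hex
  exact ⟨s, x, hs, hx, hx'⟩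

end Pool.Agent.Helper20.TS
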