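import Pool.Agent.Helper20.TS.Df

/-!
# TS-L3: the trace of an element of all primes over `(t)` is divisible by `t`

Plan: let `Ω` be an algebraic closure of `K` (as `F`-algebra), `C` the integral closure of `A` in
`Ω`, `Q` a prime of `C` over `(t)` (lying over).  `trace x = ∑ σ x` over the `F`-embeddings
`σ : K → Ω` (trace_eq_sum_embeddings, separable).  The elements `b ∈ B` with `σ b ∈ Q` form a
prime of `B` over `(t)`, so `σ x ∈ Q`.  The sum is in `Q` and, being the image of an element of
`A` (isIntegral_trace, `A` is integrally closed), divisible by `t`.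
-/

set_option autoImplicit false

namespace Pool.Agent.Helper20.TS

open Module Pool.Agent.Helper37.SD

variable {A F K : Type} [CommRing A] [IsDomain A] [UniqueFactorizationMonoid A]
  [IsNoetherianRing A] [Algebra ℂ A] [Field F] [Algebra A F] [IsFractionRing A F] [Field K]
  [Algebra F K] [Algebra A K] [IsScalarTower A F K] [Algebra ℂ K] [IsScalarTower ℂ A K]
  [FiniteDimensional F K]

theorem tr_dvd (x : integralClosure A K) (t : A) (ht : Prime t)
    (hx : ∀ q : Ideal (integralClosure A K), q.IsPrime →
      (∀ a : A, algebraMap A (integralClosure A K) a ∈ q ↔ t ∣ a) → x ∈ q) :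
    ∃ a : A, Algebra.trace F K (x : K) = algebraMap A F (t * a) := by
  have hcA : CharZero A := charZero_of_injective_algebraMap (algebraMap ℂ A).injective
  have hcF : CharZero F := charZero_of_injective_algebraMap (IsFractionRing.injective A F)
  have hsep : Algebra.IsSeparable F K := inferInstance
  let Ω := AlgebraicClosure F
  -- the map from `A` to the integral closure `C` in `Ω` is injective
  have hinjΩ : Function.Injective (algebraMap A Ω) := by
    rw [IsScalarTower.algebraMap_eq A F Ω]
    exact (algebraMap F Ω).injective.comp (IsFractionRing.injective A F)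
  have hinjC : Function.Injective (algebraMap A (integralClosure A Ω)) := by
    intro a b hab
    apply hinjΩ
    have := congrArg (fun c : integralClosure A Ω => (c : Ω)) hab
    exact this
  have hP : (Ideal.span {t} : Ideal A).IsPrime := (Ideal.span_singleton_prime ht.ne_zero).2 ht
  obtain ⟨Q, hQ, hQP⟩ := Ideal.exists_ideal_over_prime_of_isIntegral_of_isDomain
    (S := integralClosure A Ω) (Ideal.span {t} : Ideal A) (by
      rw [(RingHom.injective_iff_ker_eq_bot _).1 hinjC]
      exact bot_le)
  have hQt : ∀ a : A, algebraMap A (integralClosure A Ω) a ∈ Q ↔ t ∣ a := by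
    intro a
    rw [← Ideal.mem_comap, hQP, Ideal.mem_span_singleton]
  -- every embedding sends `x` to `Q`
  have hmem : ∀ σ : K →ₐ[F] Ω, (σ.restrictScalars A).mapIntegralClosure x ∈ Q := by
    intro σ
    have h1 : x ∈ Q.comap ((σ.restrictScalars A).mapIntegralClosure : integralClosure A K →ₐ[A]
        integralClosure A Ω) := by
      refine hx _ (Ideal.comap_isPrime _ _) fun a => ?_
      rw [Ideal.mem_comap, AlgHom.commutes]
      exact hQt a
    exact h1
  -- the trace is in `A`
  have hint : IsIntegral A (Algebra.trace F K (x : K)) := Algebra.isIntegral_trace x.2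
  obtain ⟨a₀, ha₀⟩ := IsIntegrallyClosed.isIntegral_iff.1 hint
  have hsum : algebraMap A (integralClosure A Ω) a₀ =
      ∑ σ : K →ₐ[F] Ω, (σ.restrictScalars A).mapIntegralClosure x := by
    apply Subtype.ext
    have h2 : ((algebraMap A (integralClosure A Ω) a₀ : integralClosure A Ω) : Ω) =
        algebraMap F Ω (algebraMap A F a₀) := by
      rw [← IsScalarTower.algebraMap_apply A F Ω]
      rfl
    rw [h2, ha₀, trace_eq_sum_embeddings Ω]
    rw [AddSubmonoidClass.coe_finset_sum]
    rfl
  have h3 : algebraMap A (integralClosure A Ω) a₀ ∈ Q := by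
    rw [hsum]
    exact Ideal.sum_mem _ fun σ _ => hmem σ
  obtain ⟨a, ha⟩ := (hQt a₀).1 h3
  exact ⟨a, by rw [← ha₀, ha]⟩

end Pool.Agent.Helper20.TS
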