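import Pool.Agent.Helper20.TS.L1b
import Pool.Agent.Helper20.TS.L2
import Pool.Agent.Helper20.TS.L3

/-!
# TS-L4: traces of regular 1-forms are regular (abstract form)

Plan: write `trace (α D) = a / b` in lowest terms (IsLocalization.exists_reduced_fraction).  If `b`
is not a unit let `t` be a prime divisor.  `ram` and `avoid` with `y = t α(D)` give `s`, `x` with
`s t α(D) = x`, `t ∤ s`, and `tr_dvd` gives `s t trace (α D) = t c` with `c ∈ A`, so
`s a = b c`: `t` divides `s a`, hence `a`, a contradiction.
-/

set_option autoImplicit false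

namespace Pool.Agent.Helper20.TS

open Module Pool.Agent.Helper37.SD

variable {A F K : Type} [CommRing A] [IsDomain A] [UniqueFactorizationMonoid A]
  [IsNoetherianRing A] [Algebra ℂ A] [Field F] [Algebra A F] [IsFractionRing A F] [Field K]
  [Algebra F K] [Algebra A K] [IsScalarTower A F K] [Algebra ℂ K] [IsScalarTower ℂ A K]
  [FiniteDimensional F K]

theorem tr_int (D : Derivation ℂ K K)
    (hD : ∀ a : A, ∃ b : A, D (algebraMap A K a) = algebraMap A K b)
    (α : Derivation ℂ K K →ₗ[K] K)
    (hα : ∀ E : Derivation ℂ K K, (∀ x : K, IsIntegral A x → IsIntegral A (E x)) →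
      IsIntegral A (α E)) :
    ∃ a : A, Algebra.trace F K (α D) = algebraMap A F a := by
  obtain ⟨a, b, hab, hτ⟩ := IsFractionRing.exists_reduced_fraction A
    (Algebra.trace F K (α D))
  have hb0 : (b : A) ≠ 0 := nonZeroDivisors.ne_zero b.2
  have hbF : algebraMap A F (b : A) ≠ 0 :=
    IsFractionRing.to_map_ne_zero_of_mem_nonZeroDivisors b.2
  have hτ' : Algebra.trace F K (α D) * algebraMap A F (b : A) = algebraMap A F a := by
    rw [← hτ]
    exact IsLocalization.mk'_spec F a b
  by_cases hu : IsUnit (b : A)
  · obtain ⟨c, hc⟩ := hu.exists_left_inv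
    refine ⟨a * c, ?_⟩
    rw [map_mul, ← hτ', mul_assoc, ← map_mul, mul_comm (b : A) c, hc, map_one, mul_one]
  · exfalso
    obtain ⟨t, htI, htb⟩ := WfDvdMonoid.exists_irreducible_factor hu hb0
    have ht : Prime t := UniqueFactorizationMonoid.irreducible_iff_prime.mp htI
    obtain ⟨s, x, hts, hsx, hxq⟩ := avoid (F := F) (A := A) (algebraMap A K t * α D) t ht
      (fun q hq hqt => ram (F := F) D hD α hα t ht q hq hqt)
    obtain ⟨c, hc⟩ := tr_dvd (F := F) x t ht hxq
    have h1 : (x : K) = (algebraMap A F (s * t)) • α D := by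
      rw [← hsx, Algebra.smul_def, ← IsScalarTower.algebraMap_apply A F K, map_mul, mul_assoc]
    have h2 : algebraMap A F (s * t) * Algebra.trace F K (α D) = algebraMap A F (t * c) := by
      rw [← hc, h1, map_smul, smul_eq_mul]
    have h3 : s * t * a = t * c * (b : A) := by
      apply IsFractionRing.injective A F
      rw [map_mul, map_mul (algebraMap A F) (t * c), ← h2, ← hτ', mul_assoc]
    have h4 : s * a = c * (b : A) := by
      apply mul_left_cancel₀ ht.ne_zero
      linear_combination h3
    have h5 : t ∣ s * a := by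
      rw [h4]
      exact Dvd.dvd.mul_left htb c
    rcases ht.dvd_or_dvd h5 with h6 | h6
    · exact hts h6
    · exact ht.not_unit (hab h6 htb)

end Pool.Agent.Helper20.TS
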