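import Pool.Agent.Helper20.TS.D1

/-!
# TS-R1: eigenvalues of vector fields of degree `0` grow at most linearly

Let `T` be homogeneous generators of `R` of degrees `≥ δ > 0` (`IsCone.exists_gens`).  The spaces
`eigR R ξ (deg t)` are finite dimensional and `Y`-stable, so each is spanned by generalized
eigenvectors of `Y` (Module.End.iSup_maxGenEigenspace_eq_top, `ℂ` algebraically closed); let
`w 1, …, w k` be generalized eigenvectors of all of them together, `w j` of degree `a j ≥ δ` with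
eigenvalue `μ j`, generating `R` as an algebra, and `C` the maximum of the `‖μ j‖ / a j`.
Products of generalized eigenvectors of a derivation are generalized eigenvectors for the sum of
the eigenvalues, so `eigR R ξ c` is spanned by generalized eigenvectors (monomials in the `w j` of
degree `c`) with eigenvalues of absolute value `≤ C c`.  Hence all eigenvalues of `Y` on
`eigR R ξ c` have absolute value `≤ C c`, and the trace is the sum of the `finrank` roots of the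
characteristic polynomial (LinearMap / Matrix trace_eq_sum_roots_charpoly).
-/

set_option autoImplicit false

namespace Pool.Agent.Helper20.TS

open Module Pool.Agent.Helper37.SD

variable {K : Type} [Field K] [Algebra ℂ K] {R : Subalgebra ℂ K} {ξ : Derivation ℂ K K}

/-- If generalized eigenvectors with eigenvalues of absolute value at most `M` span `V`, the trace is at
most `M dim V`. -/
private theorem trace_norm_le {V : Type} [AddCommGroup V] [Module ℂ V] [Module.Finite ℂ V]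
    (T : End ℂ V) (M : ℝ) (S : Set V) (hS : Submodule.span ℂ S = ⊤)
    (h : ∀ x ∈ S, ∃ μ : ℂ, ‖μ‖ ≤ M ∧ x ∈ T.maxGenEigenspace μ) :
    ‖LinearMap.trace ℂ V T‖ ≤ M * (finrank ℂ V : ℝ) := by
  have hroot : ∀ ν ∈ T.charpoly.roots, ‖ν‖ ≤ M := by
    intro ν hν
    by_contra hlt
    have hν1 : T.charpoly.IsRoot ν := Polynomial.isRoot_of_mem_roots hν
    have hν2 : T.HasEigenvalue ν := (End.hasEigenvalue_iff_isRoot_charpoly T ν).mpr hν1
    have h1 : (⊤ : Submodule ℂ V) ≤ ⨆ (μ : ℂ) (_ : μ ≠ ν), T.maxGenEigenspace μ := by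
      rw [← hS]
      refine Submodule.span_le.mpr fun x hx => ?_
      obtain ⟨μ, hμ, hx1⟩ := h x hx
      have hne : μ ≠ ν := by
        rintro rfl
        exact hlt hμ
      exact (le_iSup₂_of_le (f := fun (μ : ℂ) (_ : μ ≠ ν) => T.maxGenEigenspace μ) μ hne le_rfl) hx1
    have h2 := T.independent_maxGenEigenspace ν
    have h3 : T.maxGenEigenspace ν = ⊥ := by
      rw [top_le_iff.mp h1] at h2
      exact disjoint_top.mp h2
    obtain ⟨x, hx⟩ := hν2.exists_hasEigenvector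
    have h4 : x ∈ T.maxGenEigenspace ν := by
      rw [End.mem_maxGenEigenspace]
      refine ⟨1, ?_⟩
      rw [pow_one, LinearMap.sub_apply, LinearMap.smul_apply, Module.End.one_apply, hx.apply_eq_smul,
        sub_self]
    rw [h3, Submodule.mem_bot] at h4
    exact hx.2 h4
  rw [End.trace_eq_sum_roots_charpoly_of_splits (IsAlgClosed.splits _)]
  refine (norm_multiset_sum_le _).trans ?_
  refine (Multiset.sum_le_card_nsmul _ M fun r hr => ?_).trans ?_
  · obtain ⟨ν, hν, rfl⟩ := Multiset.mem_map.mp hr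
    exact hroot ν hν
  · rw [Multiset.card_map, nsmul_eq_mul, mul_comm]
    have hcard : Multiset.card T.charpoly.roots = finrank ℂ V := by
      rw [← LinearMap.charpoly_natDegree T]
      exact (IsAlgClosed.card_roots_eq_natDegree (p := T.charpoly))
    rw [hcard]


/-- `Y - μ` -/
private noncomputable def Dm (Y : Derivation ℂ K K) (μ : ℂ) : End ℂ K :=
  (Y : K →ₗ[ℂ] K) - μ • (1 : End ℂ K)

private theorem dm_apply (Y : Derivation ℂ K K) (μ : ℂ) (x : K) : Dm Y μ x = Y x - μ • x := rfl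

private theorem dm_mul (Y : Derivation ℂ K K) (μ ν : ℂ) (x y : K) :
    Dm Y (μ + ν) (x * y) = Dm Y μ x * y + x * Dm Y ν y := by
  rw [dm_apply, dm_apply, dm_apply, Derivation.leibniz, smul_eq_mul, smul_eq_mul, add_smul, sub_mul,
    mul_sub, smul_mul_assoc, mul_smul_comm]
  ring

private theorem dm_pow_mul (Y : Derivation ℂ K K) (μ ν : ℂ) (n : ℕ) : ∀ (k l : ℕ) (x y : K),
    k + l = n → (Dm Y μ ^ k) x = 0 → (Dm Y ν ^ l) y = 0 → (Dm Y (μ + ν) ^ n) (x * y) = 0 := by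
  induction n with
  | zero =>
    intro k l x y hkl hx hy
    have hk : k = 0 := by omega
    subst hk
    rw [pow_zero, End.one_apply] at hx
    rw [hx, zero_mul, map_zero]
  | succ n ih =>
    intro k l x y hkl hx hy
    rcases k with _ | k
    · rw [pow_zero, End.one_apply] at hx
      rw [hx, zero_mul, map_zero]
    · rcases l with _ | l
      · rw [pow_zero, End.one_apply] at hy
        rw [hy, mul_zero, map_zero]
      · rw [pow_succ, End.mul_apply] at hx hy ⊢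
        rw [dm_mul, map_add, ih k (l + 1) (Dm Y μ x) y (by omega) hx (by
          rw [pow_succ, End.mul_apply]; exact hy), ih (k + 1) l x (Dm Y ν y) (by omega) (by
          rw [pow_succ, End.mul_apply]; exact hx) hy, add_zero]

/-- Homogeneous generalized eigenvectors of degree `c` with eigenvalue at most `C c`. -/
private def Gs (R : Subalgebra ℂ K) (ξ Y : Derivation ℂ K K) (C c : ℝ) : Set K :=
  {x | x ∈ R ∧ ξ x = (c : ℂ) • x ∧ ∃ μ : ℂ, ‖μ‖ ≤ C * c ∧ ∃ k : ℕ, (Dm Y μ ^ k) x = 0}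

private def Ga (R : Subalgebra ℂ K) (ξ Y : Derivation ℂ K K) (C : ℝ) : Set K :=
  {x | ∃ c : ℝ, x ∈ Gs R ξ Y C c}

private theorem gs_mul {Y : Derivation ℂ K K} {C a b : ℝ} {x y : K} (hx : x ∈ Gs R ξ Y C a)
    (hy : y ∈ Gs R ξ Y C b) : x * y ∈ Gs R ξ Y C (a + b) := by
  obtain ⟨hxR, hx1, μ, hμ, k, hk⟩ := hx
  obtain ⟨hyR, hy1, ν, hν, l, hl⟩ := hy
  refine ⟨R.mul_mem hxR hyR, eig_mul hx1 hy1, μ + ν, ?_, k + l,
    dm_pow_mul Y μ ν (k + l) k l x y rfl hk hl⟩
  rw [mul_add]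
  exact (norm_add_le _ _).trans (add_le_add hμ hν)

private theorem span_mul {Y : Derivation ℂ K K} {C : ℝ} {x y : K}
    (hx : x ∈ Submodule.span ℂ (Ga R ξ Y C)) (hy : y ∈ Submodule.span ℂ (Ga R ξ Y C)) :
    x * y ∈ Submodule.span ℂ (Ga R ξ Y C) := by
  have h1 : x * y ∈ Submodule.span ℂ (Ga R ξ Y C) * Submodule.span ℂ (Ga R ξ Y C) :=
    Submodule.mul_mem_mul hx hy
  rw [Submodule.span_mul_span] at h1
  refine Submodule.span_mono ?_ h1
  rintro z ⟨u, ⟨a, hu⟩, v, ⟨b, hv⟩, rfl⟩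
  exact ⟨a + b, gs_mul hu hv⟩

private theorem gs_const {Y : Derivation ℂ K K} {C : ℝ} (z : ℂ) :
    algebraMap ℂ K z ∈ Gs R ξ Y C 0 := by
  refine ⟨R.algebraMap_mem z, ?_, 0, ?_, 1, ?_⟩
  · rw [Derivation.map_algebraMap]
    simp
  · rw [norm_zero, mul_zero]
  · rw [pow_one, dm_apply, Derivation.map_algebraMap, zero_smul, sub_zero]

/-- Decomposition into components. -/
private theorem exists_comp {Y : Derivation ℂ K K} {C : ℝ} {x : K}
    (hx : x ∈ Submodule.span ℂ (Ga R ξ Y C)) :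
    ∃ f : ℝ →₀ K, (∀ c, f c ∈ Submodule.span ℂ (Gs R ξ Y C c)) ∧ (f.sum fun _ y => y) = x := by
  classical
  induction hx using Submodule.span_induction with
  | mem y hy =>
    obtain ⟨c, hc⟩ := hy
    refine ⟨Finsupp.single c y, fun b => ?_, Finsupp.sum_single_index rfl⟩
    by_cases hb : c = b
    · subst hb
      rw [Finsupp.single_eq_same]
      exact Submodule.subset_span hc
    · rw [Finsupp.single_eq_of_ne (Ne.symm hb)]
      exact Submodule.zero_mem _
  | zero => exact ⟨0, fun b => Submodule.zero_mem _, by simp⟩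
  | add x y _ _ hx hy =>
    obtain ⟨f, hf, hf1⟩ := hx
    obtain ⟨g, hg, hg1⟩ := hy
    refine ⟨f + g, fun b => ?_, ?_⟩
    · rw [Finsupp.add_apply]
      exact Submodule.add_mem _ (hf b) (hg b)
    · rw [Finsupp.sum_add_index' (fun _ => rfl) (fun _ _ _ => rfl), hf1, hg1]
  | smul z x _ hx =>
    obtain ⟨f, hf, hf1⟩ := hx
    refine ⟨z • f, fun b => ?_, ?_⟩
    · exact Submodule.smul_mem _ z (hf b)
    · rw [Finsupp.sum_smul_index' (fun _ => rfl), ← Finsupp.smul_sum, hf1]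

private theorem gs_eig {Y : Derivation ℂ K K} {C c : ℝ} {x : K}
    (hx : x ∈ Submodule.span ℂ (Gs R ξ Y C c)) : x ∈ eigR R ξ c := by
  have h1 : Submodule.span ℂ (Gs R ξ Y C c) ≤ eigR R ξ c :=
    Submodule.span_le.mpr fun y hy => ⟨hy.1, hy.2.1⟩
  exact h1 hx

private theorem mem_gs_of_eig {Y : Derivation ℂ K K} {C c : ℝ} {x : K} (hc : x ∈ eigR R ξ c)
    (hx : x ∈ Submodule.span ℂ (Ga R ξ Y C)) : x ∈ Submodule.span ℂ (Gs R ξ Y C c) := by
  classical
  obtain ⟨f, hf, hf1⟩ := exists_comp hx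
  have h1 : IsDec (ξ : K →ₗ[ℂ] K) ⊤ (fun _ => True) f x :=
    ⟨fun b => (gs_eig (hf b)).2, fun _ => Submodule.mem_top, fun _ _ => trivial, hf1⟩
  have h2 := h1.unique (isDec_single (A := (ξ : K →ₗ[ℂ] K)) hc.2)
  have h3 := hf c
  rw [h2, Finsupp.single_eq_same] at h3
  exact h3

/-- The endomorphism of `eigR R ξ c` given by `Y`. -/
private noncomputable def Te {Y : Derivation ℂ K K} (hY : Pres R Y) (hY0 : ⁅ξ, Y⁆ = 0) (c : ℝ) :
    End ℂ (eigR R ξ c) :=
  (Y : K →ₗ[ℂ] K).restrict (p := eigR R ξ c) (q := eigR R ξ c) fun x hx => ⟨hY x hx.1, by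
    have h1 : ⁅ξ, Y⁆ x = 0 := by rw [hY0]; rfl
    rw [Derivation.commutator_apply, sub_eq_zero] at h1
    have h2 : Y (ξ x) = (c : ℂ) • Y x := by rw [hx.2, Derivation.map_smul]
    exact h1.trans h2⟩

private theorem te_pow {Y : Derivation ℂ K K} {c : ℝ} {T : End ℂ (eigR R ξ c)}
    (hT : ∀ x, ((T x : eigR R ξ c) : K) = Y (x : K)) (μ : ℂ) (k : ℕ) : ∀ x : eigR R ξ c,
    ((((T - μ • (1 : End ℂ (eigR R ξ c))) ^ k) x : eigR R ξ c) : K) = (Dm Y μ ^ k) (x : K) := by
  induction k with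
  | zero => intro x; rfl
  | succ k ih =>
    intro x
    rw [pow_succ, pow_succ, End.mul_apply, End.mul_apply, ih]
    congr 1
    rw [dm_apply, ← hT]
    rfl

private theorem mem_gen_iff {Y : Derivation ℂ K K} {c : ℝ} {T : End ℂ (eigR R ξ c)}
    (hT : ∀ x, ((T x : eigR R ξ c) : K) = Y (x : K)) (μ : ℂ) (x : eigR R ξ c) :
    x ∈ T.maxGenEigenspace μ ↔ ∃ k : ℕ, (Dm Y μ ^ k) (x : K) = 0 := by
  rw [End.mem_maxGenEigenspace]
  refine exists_congr fun k => ?_
  rw [← te_pow hT μ k x, Submodule.coe_eq_zero]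

private theorem gs_mono {Y : Derivation ℂ K K} {C C' c : ℝ} (hc : 0 ≤ c) (hC : C ≤ C') :
    Gs R ξ Y C c ⊆ Gs R ξ Y C' c := by
  rintro x ⟨h1, h2, μ, h3, h4⟩
  exact ⟨h1, h2, μ, h3.trans (mul_le_mul_of_nonneg_right hC hc), h4⟩

private theorem exists_gs (h : IsCone R ξ) {Y : Derivation ℂ K K} (hY : Pres R Y)
    (hY0 : ⁅ξ, Y⁆ = 0) {c : ℝ} (hc : 0 < c) (x : eigR R ξ c) :
    ∃ C : ℝ, 0 ≤ C ∧ (x : K) ∈ Submodule.span ℂ (Gs R ξ Y C c) := by
  have hfin := h.finite_eigR c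
  have hT : ∀ x, ((Te hY hY0 c x : eigR R ξ c) : K) = Y (x : K) := fun x => rfl
  have hx : x ∈ ⨆ μ : ℂ, (Te hY hY0 c).maxGenEigenspace μ := by
    rw [End.iSup_maxGenEigenspace_eq_top]
    exact Submodule.mem_top
  induction hx using Submodule.iSup_induction' with
  | mem μ y hy =>
    refine ⟨‖μ‖ / c, by positivity, Submodule.subset_span ⟨y.2.1, y.2.2, μ, ?_, ?_⟩⟩
    · rw [div_mul_cancel₀ _ hc.ne']
    · exact (mem_gen_iff hT μ y).mp hy
  | zero => exact ⟨0, le_rfl, Submodule.zero_mem _⟩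
  | add y z _ _ hy hz =>
    obtain ⟨C, hC, hy⟩ := hy
    obtain ⟨C', hC', hz⟩ := hz
    refine ⟨max C C', hC.trans (le_max_left _ _), Submodule.add_mem _ ?_ ?_⟩
    · exact Submodule.span_mono (gs_mono hc.le (le_max_left _ _)) hy
    · exact Submodule.span_mono (gs_mono hc.le (le_max_right _ _)) hz

theorem dTr_bound (h : IsCone R ξ) {Y : Derivation ℂ K K} (hY : Pres R Y) (hY0 : ⁅ξ, Y⁆ = 0) :
    ∃ C : ℝ, ∀ c ∈ Deg R ξ, ‖dTr R ξ Y c‖ ≤ C * c * (finrank ℂ (eigR R ξ c) : ℝ) := by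
  classical
  obtain ⟨T, δ, hδ, hT, hR⟩ := h.exists_gens
  have h1 : ∀ t : K, ∃ C : ℝ, 0 ≤ C ∧ (t ∈ T → ∃ c : ℝ, 0 ≤ c ∧
      t ∈ Submodule.span ℂ (Gs R ξ Y C c)) := by
    intro t
    by_cases ht : t ∈ T
    · obtain ⟨htR, _, c, hc, he⟩ := hT t ht
      obtain ⟨C, hC, h2⟩ := exists_gs h hY hY0 (hδ.trans_le hc) ⟨t, htR, he⟩
      exact ⟨C, hC, fun _ => ⟨c, hδ.le.trans hc, h2⟩⟩
    · exact ⟨0, le_rfl, fun h => absurd h ht⟩
  choose Cf hCf0 hCf using h1
  have hC0 : 0 ≤ ∑ t ∈ T, Cf t := Finset.sum_nonneg fun t _ => hCf0 t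
  have hspan : ∀ x ∈ R, x ∈ Submodule.span ℂ (Ga R ξ Y (∑ t ∈ T, Cf t)) := by
    intro x hx
    have hx' : x ∈ Algebra.adjoin ℂ (T : Set K) := by rw [hR]; exact hx
    clear hx
    induction hx' using Algebra.adjoin_induction with
    | mem t ht =>
      have ht : t ∈ T := ht
      obtain ⟨c, hc, h2⟩ := hCf t ht
      have h3 : Cf t ≤ ∑ t ∈ T, Cf t := Finset.single_le_sum (fun t _ => hCf0 t) ht
      refine Submodule.span_mono ?_ h2
      intro y hy
      exact ⟨c, gs_mono hc h3 hy⟩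
    | algebraMap z => exact Submodule.subset_span ⟨0, gs_const z⟩
    | add x y _ _ hx hy => exact Submodule.add_mem _ hx hy
    | mul x y _ _ hx hy => exact span_mul hx hy
  refine ⟨∑ t ∈ T, Cf t, fun c hc => ?_⟩
  have hfin := h.finite_eigR c
  unfold dTr
  split_ifs with hex
  · have hT1 := hex.choose_spec
    refine trace_norm_le hex.choose _ {x | (x : K) ∈ Gs R ξ Y (∑ t ∈ T, Cf t) c} ?_ ?_
    · rw [eq_top_iff]
      intro x _
      have h2 : (x : K) ∈ Submodule.span ℂ (Gs R ξ Y (∑ t ∈ T, Cf t) c) :=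
        mem_gs_of_eig x.2 (hspan x x.2.1)
      have h3 : ((eigR R ξ c).subtype) '' {x | (x : K) ∈ Gs R ξ Y (∑ t ∈ T, Cf t) c} =
          Gs R ξ Y (∑ t ∈ T, Cf t) c := by
        ext y
        constructor
        · rintro ⟨z, hz, rfl⟩
          exact hz
        · intro hy
          exact ⟨⟨y, hy.1, hy.2.1⟩, hy, rfl⟩
      rw [← h3, Submodule.span_image, Submodule.mem_map] at h2
      obtain ⟨y, hy, hyx⟩ := h2
      have h4 : y = x := Subtype.ext hyx
      rwa [← h4]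
    · rintro x ⟨_, _, μ, hμ, hk⟩
      exact ⟨μ, hμ, (mem_gen_iff hT1 μ x).mpr hk⟩
  · rw [norm_zero]
    have hc0 : 0 ≤ c := by
      have hc1 : eigR R ξ c ≠ ⊥ := hc
      obtain ⟨x, hx, hx0⟩ := Submodule.exists_mem_ne_zero_of_ne_bot hc1
      exact h.eig_nonneg hx.1 hx0 hx.2
    positivity

end Pool.Agent.Helper20.TS
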