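import Pool.Agent.Helper20.TS.Z2a

/-!
# TS-Z2: rational perturbations of the Reeb field, and endomorphisms

`exists_ncone`: put `φ c = ∑ k, q k * lam k c`, rational, with `|φ c - c| ≤ c / 2` on `Deg R ξ`.
On `eigR R ξ c` the field `∑ q k • ζ k` is the scalar `φ c`.  By `add_of_deg` there is `M > 0` such
that `M φ c` is an integer (natural number) for every `c ∈ Deg R ξ`.  All fields of `NCone` follow
from the decomposition of the elements of `R` in `ξ`-homogeneous components: an element killed by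
the field has only components with `φ c = 0`, that is `c = 0`; an eigenvector of eigenvalue `b` is
a sum of `ξ`-homogeneous elements of degrees `c` with `M φ c = b`.

`comm_of_add`: let `E` be a derivation of `R` with `⁅ξ, E⁆ = c E`; for `x ∈ R` of degree `a` the
element `E x` of `R` has degree `a + c` (`hom_apply`), so `⁅ζ, E⁆ x = (lam (a + c) - lam a) E x`
and `⁅ζ, E⁆ = lam c • E` (`R` is spanned by homogeneous elements, `der_eq_zero`).  The same holds
for `J E`, so `⁅ζ, J E⁆ = J ⁅ζ, E⁆`.  Every derivation of `R` is a sum of homogeneous ones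
(`IsCone.der_dec'`) and every derivation of `K` is a quotient of a derivation of `R` by an element
of `R` (finitely many generators); use `lie_fsmul`.
-/

set_option autoImplicit false

namespace Pool.Agent.Helper20.TS

open Module Pool.Agent.Helper37.SD

variable {K : Type} [Field K] [Algebra ℂ K] {R : Subalgebra ℂ K} {ξ : Derivation ℂ K K}

/-- homogeneous derivations of `R` are eigenvectors of the bracket with `ζ` -/
theorem lie_of_add (h : IsCone R ξ) (lam : ℝ → ℝ) (hadd : ∀ a b, lam (a + b) = lam a + lam b)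
    {ζ : Derivation ℂ K K}
    (hζ : ∀ x ∈ R, ∀ c : ℝ, ξ x = (c : ℂ) • x → ζ x = ((lam c : ℝ) : ℂ) • x)
    {E : Derivation ℂ K K} (hE : Pres R E) {c : ℝ} (hc : ⁅ξ, E⁆ = (c : ℂ) • E) :
    ⁅ζ, E⁆ = ((lam c : ℝ) : ℂ) • E := by
  have h1 : ⁅ζ, E⁆ - ((lam c : ℝ) : ℂ) • E = 0 := by
    refine der_eq_zero h.frac fun x hx => ?_
    have key : RH R ξ (fun c => 0 ≤ c) ≤
        LinearMap.ker ((⁅ζ, E⁆ - ((lam c : ℝ) : ℂ) • E : Derivation ℂ K K) : K →ₗ[ℂ] K) := by
      refine Submodule.span_le.mpr ?_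
      rintro y ⟨hyR, a, _, ha⟩
      have ha' : ξ y = (a : ℂ) • y := ha
      have h2 : ζ y = ((lam a : ℝ) : ℂ) • y := hζ y hyR a ha'
      have h3 : ζ (E y) = ((lam (a + c) : ℝ) : ℂ) • E y := hζ (E y) (hE y hyR) (a + c) (hom_apply hc ha')
      show (⁅ζ, E⁆ - ((lam c : ℝ) : ℂ) • E) y = 0
      rw [Derivation.sub_apply, Derivation.commutator_apply, h2, Derivation.map_smul, h3,
        Derivation.smul_apply, hadd]
      push_cast
      rw [add_smul]
      abel
    exact key (h.span x hx)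
  exact sub_eq_zero.mp h1

theorem comm_of_add (h : IsCone R ξ) (J : Derivation ℂ K K →ₗ[K] Derivation ℂ K K)
    (hJ : ∀ E, Pres R E → Pres R (J E)) (hJξ : ∀ E, ⁅ξ, J E⁆ = J ⁅ξ, E⁆) (lam : ℝ → ℝ)
    (hadd : ∀ a b, lam (a + b) = lam a + lam b) {ζ : Derivation ℂ K K}
    (hζ : ∀ x ∈ R, ∀ c : ℝ, ξ x = (c : ℂ) • x → ζ x = ((lam c : ℝ) : ℂ) • x) :
    ∀ E, ⁅ζ, J E⁆ = J ⁅ζ, E⁆ := by
  classical
  have hJs : ∀ (z : ℂ) (E : Derivation ℂ K K), J (z • E) = z • J E := fun z E =>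
    J.map_smul_of_tower z E
  -- homogeneous derivations of `R`
  have h1 : ∀ (E : Derivation ℂ K K), Pres R E → ∀ c : ℝ, ⁅ξ, E⁆ = (c : ℂ) • E →
      ⁅ζ, J E⁆ = J ⁅ζ, E⁆ := by
    intro E hE c hc
    have h2 : ⁅ξ, J E⁆ = (c : ℂ) • J E := by rw [hJξ, hc, hJs]
    rw [lie_of_add h lam hadd hζ hE hc, lie_of_add h lam hadd hζ (hJ E hE) h2, hJs]
  -- derivations of `R`
  have h2 : ∀ E : Derivation ℂ K K, Pres R E → ⁅ζ, J E⁆ = J ⁅ζ, E⁆ := by
    intro E hE
    have h3 := h.der_dec' hE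
    refine Submodule.span_induction (p := fun E _ => ⁅ζ, J E⁆ = J ⁅ζ, E⁆) ?_ ?_ ?_ ?_ h3
    · rintro D ⟨hD, c, _, hc⟩
      exact h1 D hD c hc
    · rw [map_zero, lie_zero, map_zero]
    · intro A B _ _ hA hB
      rw [map_add, lie_add, lie_add, map_add, hA, hB]
    · intro z A _ hA
      rw [hJs, lie_smul, lie_smul, hJs, hA]
  -- all derivations
  intro E
  obtain ⟨T, δ, _, hT, hR⟩ := h.exists_gens
  have hq : ∀ t : K, ∃ b : K, b ∈ R ∧ b ≠ 0 ∧ b * E t ∈ R := by
    intro t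
    obtain ⟨a, ha, b, hb, hb0, e⟩ := h.frac (E t)
    exact ⟨b, hb, hb0, by rw [e, mul_div_cancel₀ a hb0]; exact ha⟩
  choose b hbR hb0 hbE using hq
  set β : K := ∏ t ∈ T, b t with hβ
  have hβ0 : β ≠ 0 := Finset.prod_ne_zero_iff.mpr fun t _ => hb0 t
  have hP : Pres R (β • E) := by
    refine pres_of_gens hR fun t ht => ?_
    show β * E t ∈ R
    rw [hβ, ← Finset.mul_prod_erase T b ht, mul_right_comm]
    exact R.mul_mem (hbE t) (Subalgebra.prod_mem R fun s _ => hbR s)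
  have h3 := h2 (β • E) hP
  rw [map_smul, lie_fsmul, lie_fsmul, map_add, map_smul, map_smul] at h3
  have h4 : β • ⁅ζ, J E⁆ = β • J ⁅ζ, E⁆ := add_right_cancel h3
  exact smul_right_injective _ hβ0 h4

end Pool.Agent.Helper20.TS
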