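import Pool.Agent.Helper20.TS.A3
import Pool.Agent.Helper20.TS.R1
import Pool.Agent.Helper20.TS.Z2
import Pool.Agent.Helper20.TS.An

/-!
# The trace identity
-/

set_option autoImplicit false

namespace Pool.Agent.Helper20.TS

open Module Filter Topology Pool.Agent.Helper37.SD

variable {K : Type} [Field K] [Algebra ℂ K] {R : Subalgebra ℂ K} {ξ : Derivation ℂ K K}

theorem mem_eigR {c : ℝ} {x : K} : x ∈ eigR R ξ c ↔ x ∈ R ∧ ξ x = (c : ℂ) • x := Iff.rfl

/-- derivations which agree on homogeneous elements of `R` are equal -/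
theorem der_ext (h : IsCone R ξ) {A B : Derivation ℂ K K}
    (hAB : ∀ x ∈ R, ∀ c : ℝ, ξ x = (c : ℂ) • x → A x = B x) : A = B := by
  rw [← sub_eq_zero]
  refine der_eq_zero h.frac fun x hx => ?_
  have h1 : RH R ξ (fun c => 0 ≤ c) ≤ LinearMap.ker ((A - B : Derivation ℂ K K) : K →ₗ[ℂ] K) := by
    refine Submodule.span_le.mpr ?_
    rintro y ⟨hy, c, _, hc⟩
    show (A - B) y = 0
    rw [Derivation.sub_apply, hAB y hy c hc, sub_self]
  exact h1 (h.span x hx)

theorem eig_comm_zero (h : IsCone R ξ) {ζ : Derivation ℂ K K} {lam : ℝ → ℝ}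
    (hζ : ∀ x ∈ R, ∀ c : ℝ, ξ x = (c : ℂ) • x → ζ x = ((lam c : ℝ) : ℂ) • x) : ⁅ξ, ζ⁆ = 0 := by
  refine der_ext h fun x hx c hc => ?_
  rw [Derivation.commutator_apply, hζ x hx c hc, hc, Derivation.map_smul, Derivation.map_smul,
    hζ x hx c hc, hc, smul_comm, sub_self]
  rfl

theorem pres_of_eig (h : IsCone R ξ) {ζ : Derivation ℂ K K} {lam : ℝ → ℝ}
    (hζ : ∀ x ∈ R, ∀ c : ℝ, ξ x = (c : ℂ) • x → ζ x = ((lam c : ℝ) : ℂ) • x) : Pres R ζ := by
  intro x hx
  have h1 : RH R ξ (fun c => 0 ≤ c) ≤ (RS R).comap (ζ : K →ₗ[ℂ] K) := by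
    refine Submodule.span_le.mpr ?_
    rintro y ⟨hyR, c, _, hc⟩
    show ζ y ∈ R
    rw [hζ y hyR c hc]
    exact R.smul_mem hyR _
  exact h1 (h.span x hx)

/-- trace of a field which is a scalar in degree `c` -/
theorem dTr_scalar (h : IsCone R ξ) {ζ : Derivation ℂ K K} {c a : ℝ}
    (hζ : ∀ x ∈ R, ξ x = (c : ℂ) • x → ζ x = ((a : ℝ) : ℂ) • x) :
    dTr R ξ ζ c = ((a : ℝ) : ℂ) * (finrank ℂ (eigR R ξ c) : ℂ) := by
  have := h.finite_eigR c
  have hex : ∃ T : eigR R ξ c →ₗ[ℂ] eigR R ξ c, ∀ x, ((T x : eigR R ξ c) : K) = ζ (x : K) :=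
    ⟨((a : ℝ) : ℂ) • LinearMap.id, fun x => by
      rw [hζ x x.2.1 x.2.2]
      rfl⟩
  rw [dTr, dif_pos hex]
  have e : hex.choose = ((a : ℝ) : ℂ) • LinearMap.id := by
    refine LinearMap.ext fun x => Subtype.ext ?_
    rw [hex.choose_spec x, hζ x x.2.1 x.2.2]
    rfl
  rw [e, map_smul, LinearMap.trace_id, smul_eq_mul]

/-- The trace identity, with the trace in `LinearMap` form. -/
theorem trace_identity' (h : IsCone R ξ) {v : RVal K} (hv : IsWt R ξ v) {n : ℕ} {V : ℝ}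
    (hV : HasVol n R v V) (hn : 0 < n) (hnorm : Normal R) (hCM : CM (2 * n) R)
    (hrk : finrank K (Derivation ℂ K K) = 2 * n)
    (J : Derivation ℂ K K →ₗ[K] Derivation ℂ K K) (hJ : ∀ E, Pres R E → Pres R (J E))
    (hJξ : ∀ E, ⁅ξ, J E⁆ = J ⁅ξ, E⁆) {t : ℂ}
    (ht : LinearMap.trace K (Derivation ℂ K K) J = algebraMap ℂ K t) :
    Tendsto (fun m : ℕ => qTr R v (J ξ) m / qTr R v ξ m) atTop (𝓝 (t / ((2 * n : ℕ) : ℂ))) := by
  classical
  have hd : 0 < 2 * n := by omega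
  obtain ⟨r, e, lam, ζ, C, hC0, hζ, he, hlam⟩ := exists_torus h
  -- the fields of the torus
  have hζ' : ∀ k, ∀ x ∈ R, ∀ c : ℝ, ξ x = (c : ℂ) • x →
      ζ k x = (((fun c : ℝ => ((lam k c : ℚ) : ℝ)) c : ℝ) : ℂ) • x :=
    fun k x hx c hc => hζ k c x hx hc
  have hζR : ∀ k, Pres R (ζ k) := fun k => pres_of_eig h (hζ' k)
  have hζ0 : ∀ k, ⁅ξ, ζ k⁆ = 0 := fun k => eig_comm_zero h (hζ' k)
  have hξs : ξ = ∑ k, ((e k : ℝ) : ℂ) • ζ k := by
    refine der_ext h fun x hx c hc => ?_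
    by_cases hx0 : x = 0
    · rw [hx0, map_zero, map_zero]
    · have hcD : c ∈ Deg R ξ := by
        intro hbot
        have : x ∈ eigR R ξ c := ⟨hx, hc⟩
        rw [hbot, Submodule.mem_bot] at this
        exact hx0 this
      rw [der_sum_apply, hc]
      have e1 : ∀ k, (((e k : ℝ) : ℂ) • ζ k) x = (((e k : ℝ) : ℂ) * (((lam k c : ℚ) : ℝ) : ℂ)) • x := by
        intro k
        rw [Derivation.smul_apply, hζ k c x hx hc, smul_smul]
      rw [Finset.sum_congr rfl fun k _ => e1 k, ← Finset.sum_smul]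
      congr 1
      have := congrArg (fun y : ℝ => (y : ℂ)) (he c hcD)
      simp only [Complex.ofReal_sum, Complex.ofReal_mul] at this
      exact this
  have hJζR : ∀ k, Pres R (J (ζ k)) := fun k => hJ _ (hζR k)
  have hJζ0 : ∀ k, ⁅ξ, J (ζ k)⁆ = 0 := fun k => by rw [hJξ, hζ0 k, map_zero]
  have hJξs : J ξ = ∑ k, ((e k : ℝ) : ℂ) • J (ζ k) := by
    conv_lhs => rw [hξs]
    rw [map_sum]
    refine Finset.sum_congr rfl fun k _ => ?_
    rw [← algebraMap_smul K ((e k : ℝ) : ℂ) (ζ k), map_smul, algebraMap_smul]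
  -- bounds
  have hbd : ∀ k, ∃ B : ℝ, ∀ c ∈ Deg R ξ,
      ‖dTr R ξ (J (ζ k)) c‖ ≤ B * c * (finrank ℂ (eigR R ξ c) : ℝ) :=
    fun k => dTr_bound h (hJζR k) (hJζ0 k)
  choose B hB using hbd
  set C' : ℝ := C + ∑ k, |B k| with hC'
  have hsum0 : (0 : ℝ) ≤ ∑ k, |B k| := Finset.sum_nonneg fun k _ => abs_nonneg _
  have hC'0 : 0 < C' := by linarith
  have hBC : ∀ k, B k ≤ C' := by
    intro k
    have h1 : |B k| ≤ ∑ j, |B j| :=
      Finset.single_le_sum (f := fun j => |B j|) (fun j _ => abs_nonneg _) (Finset.mem_univ k)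
    have h2 := le_abs_self (B k)
    linarith
  have hCC : C ≤ C' := by linarith
  -- the truncations
  have hs := fun m : ℝ => qTr_sum h h hv (fun c => c) (fun c x _ hc => hc) m
  choose s hs1 hs2 hs3 using hs
  have hJξR : Pres R (J ξ) := hJ _ h.pres
  have hJξ0 : ⁅ξ, J ξ⁆ = 0 := by rw [hJξ, lie_self, map_zero]
  have key := an_core hd (Deg R ξ) (fun c hc => deg_nonneg h hc)
    (fun c => finrank ℂ (eigR R ξ c)) (fun k c => dTr R ξ (J (ζ k)) c) e
    (fun k c => ((lam k c : ℚ) : ℝ)) C' hC'0 he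
    (fun k c hc => (hlam k c hc).trans (mul_le_mul_of_nonneg_right hCC (deg_nonneg h hc)))
    (fun k c hc => (hB k c hc).trans (by
      refine mul_le_mul_of_nonneg_right (mul_le_mul_of_nonneg_right (hBC k) (deg_nonneg h hc)) ?_
      exact Nat.cast_nonneg _))
    s hs1 (V / ((2 * n).factorial : ℝ)) (by
      have h1 := hV.div_const ((2 * n).factorial : ℝ)
      refine h1.congr fun m => ?_
      have hf : ((2 * n).factorial : ℝ) ≠ 0 := Nat.cast_ne_zero.mpr (Nat.factorial_ne_zero _)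
      rw [← Nat.cast_sum, ← hs2 m]
      field_simp)
    t (1 / (2 * (r * C + 1))) (by positivity) (by
      intro q hq
      obtain ⟨M, hM, hcone⟩ := exists_ncone h hζ he hlam q _ hq (by
        have h0 : (0 : ℝ) ≤ r * C := by positivity
        rw [mul_one_div, div_le_iff₀ (by positivity)]
        linarith)
      set ζM : Derivation ℂ K K := (((M : ℝ)) : ℂ) • ∑ k, (((q k : ℚ) : ℝ) : ℂ) • ζ k with hζM
      obtain ⟨w, hw⟩ := hcone.toIsCone.exists_wt
      have hM0 : (0 : ℝ) < M := by exact_mod_cast hM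
      have hφ : ∀ c : ℝ, ∀ x ∈ R, ξ x = (c : ℂ) • x → ζM x =
          ((((M : ℝ) * ∑ k, ((q k : ℚ) : ℝ) * ((lam k c : ℚ) : ℝ)) : ℝ) : ℂ) • x := by
        intro c x hx hc
        rw [hζM, Derivation.smul_apply, der_sum_apply]
        have e1 : ∀ k, ((((q k : ℚ) : ℝ) : ℂ) • ζ k) x =
            ((((q k : ℚ) : ℝ) : ℂ) * (((lam k c : ℚ) : ℝ) : ℂ)) • x := by
          intro k
          rw [Derivation.smul_apply, hζ k c x hx hc, smul_smul]
        rw [Finset.sum_congr rfl fun k _ => e1 k, ← Finset.sum_smul, smul_smul]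
        congr 1
        simp only [Complex.ofReal_mul, Complex.ofReal_sum]
      have hJζM : ∀ E, ⁅ζM, J E⁆ = J ⁅ζM, E⁆ :=
        comm_of_add h J hJ hJξ (fun c => (M : ℝ) * ∑ k, ((q k : ℚ) : ℝ) * ((lam k c : ℚ) : ℝ))
          (fun a b => by
            simp only [map_add, Rat.cast_add, mul_add, Finset.sum_add_distrib])
          (fun x hx c hc => hφ c x hx hc)
      obtain ⟨κ, κ', hκ, hκ', hl1, hl2, hl3⟩ :=
        ncone_lim hcone hw hnorm hd hCM hrk J hJ hJζM ht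
      have hsq := fun m : ℝ => qTr_sum h hcone.toIsCone hw
        (fun c => (M : ℝ) * ∑ k, ((q k : ℚ) : ℝ) * ((lam k c : ℚ) : ℝ)) hφ m
      choose sq hsq1 hsq2 hsq3 using hsq
      have hJMR : Pres R (J ζM) := hJ _ hcone.toIsCone.pres
      have hζM0 : ⁅ξ, ζM⁆ = 0 := eig_comm_zero h (fun x hx c hc => hφ c x hx hc)
      have hJM0 : ⁅ξ, J ζM⁆ = 0 := by rw [hJξ, hζM0, map_zero]
      have hJMs : J ζM = ∑ k, ((((M : ℝ)) : ℂ) * (((q k : ℚ) : ℝ) : ℂ)) • J (ζ k) := by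
        rw [hζM, Finset.smul_sum, map_sum]
        refine Finset.sum_congr rfl fun k _ => ?_
        rw [smul_smul, ← algebraMap_smul K _ (ζ k), map_smul, algebraMap_smul]
      have hMt : Tendsto (fun m : ℝ => (M : ℝ) * m) atTop atTop :=
        tendsto_id.const_mul_atTop hM0
      have hMc : ((M : ℕ) : ℂ) ≠ 0 := by
        exact_mod_cast hM.ne'
      refine ⟨fun m => sq (M * m), (M : ℝ) ^ (2 * n) * κ, (M : ℝ) ^ (2 * n) * κ', ?_, by positivity,
        by positivity, ?_, ?_, ?_⟩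
      · intro m c
        rw [hsq1, mul_lt_mul_iff_right₀ hM0]
      · have h1 := ((hl1.comp hMt).const_mul ((((M : ℝ)) : ℂ) ^ (2 * n)))
        refine (h1.congr' ?_).trans (le_of_eq (by push_cast; rfl))
        filter_upwards [eventually_gt_atTop 0] with m hm
        have hmc : (m : ℂ) ≠ 0 := by exact_mod_cast hm.ne'
        simp only [Function.comp]
        rw [hsq3 (M * m) ζM hcone.toIsCone.pres hζM0]
        have e1 : ∀ c ∈ sq (M * m), dTr R ξ ζM c = (((M : ℝ)) : ℂ) *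
            (((∑ k, ((q k : ℚ) : ℝ) * ((lam k c : ℚ) : ℝ) : ℝ) : ℂ) *
              (finrank ℂ (eigR R ξ c) : ℂ)) := by
          intro c _
          rw [dTr_scalar h (a := (M : ℝ) * ∑ k, ((q k : ℚ) : ℝ) * ((lam k c : ℚ) : ℝ))
            (fun x hx hc => hφ c x hx hc), Complex.ofReal_mul, mul_assoc]
        rw [Finset.sum_congr rfl e1, ← Finset.mul_sum]
        push_cast
        rw [mul_pow, pow_succ (M : ℂ)]
        field_simp
      · have h1 := ((hl2.comp hMt).const_mul ((((M : ℝ)) : ℂ) ^ (2 * n)))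
        refine (h1.congr' ?_).trans (le_of_eq (by push_cast; congr 1; ring))
        filter_upwards [eventually_gt_atTop 0] with m hm
        have hmc : (m : ℂ) ≠ 0 := by exact_mod_cast hm.ne'
        simp only [Function.comp]
        rw [hsq3 (M * m) (J ζM) hJMR hJM0]
        have e1 : ∀ c ∈ sq (M * m), dTr R ξ (J ζM) c = (((M : ℝ)) : ℂ) *
            ∑ k, (((q k : ℚ) : ℝ) : ℂ) * dTr R ξ (J (ζ k)) c := by
          intro c _
          rw [hJMs, dTr_sum h _ _ hJζR hJζ0, Finset.mul_sum]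
          exact Finset.sum_congr rfl fun k _ => mul_assoc _ _ _
        rw [Finset.sum_congr rfl e1, ← Finset.mul_sum]
        push_cast
        rw [mul_pow, pow_succ (M : ℂ)]
        field_simp
      · have h1 := ((hl3.comp hMt).const_mul ((M : ℝ) ^ (2 * n)))
        refine h1.congr' ?_
        filter_upwards [eventually_gt_atTop 0] with m hm
        simp only [Function.comp]
        rw [hsq2 (M * m), mul_pow]
        push_cast
        field_simp)
  refine (key.congr fun m => ?_)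
  rw [hs3 m (J ξ) hJξR hJξ0, hs3 m ξ h.pres (lie_self ξ)]
  congr 1
  · refine Finset.sum_congr rfl fun c _ => ?_
    rw [hJξs, dTr_sum h _ _ hJζR hJζ0]
  · exact Finset.sum_congr rfl fun c _ => (dTr_self h c).symm

theorem trace_identity (h : IsCone R ξ) {v : RVal K} (hv : IsWt R ξ v) {n : ℕ} (hn : 0 < n)
    (hd : finrank K (Derivation ℂ K K) = 2 * n) {V : ℝ} (hV : HasVol n R v V) (hN : Normal R)
    (hCM : CM (2 * n) R) (J : Derivation ℂ K K →ₗ[K] Derivation ℂ K K)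
    (hJ : ∀ D, Pres R D → Pres R (J D)) (hJ0 : ∀ D, ⁅ξ, J D⁆ = J ⁅ξ, D⁆)
    {D : Fin (2 * n) → Derivation ℂ K K} {g : Fin (2 * n) → K} (hD : IsFrame D g) {t : ℂ}
    (ht : trF D g J = algebraMap ℂ K t) :
    Tendsto (fun m : ℕ => qTr R v (J ξ) m / qTr R v ξ m) atTop (𝓝 (t / (2 * n))) := by
  have h1 := trace_identity' h hv hV hn hN hCM hd J hJ hJ0 (t := t) (by
    rw [trace_frame hD J]
    exact ht)
  push_cast at h1
  exact h1

end Pool.Agent.Helper20.TS
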