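import Pool.Agent.Helper20.TS.Df

/-!
# TS-Z1a: a derivation from an additive function of the degree
-/

set_option autoImplicit false

namespace Pool.Agent.Helper20.TS

open Module Pool.Agent.Helper37.SD

variable {K : Type} [Field K] [Algebra ℂ K] {R : Subalgebra ℂ K} {ξ : Derivation ℂ K K}

/-- The sum of the homogeneous components, multiplied by `lam` of the degree. -/
private noncomputable def z1f (lam : ℝ → ℝ) (f : ℝ →₀ K) : K :=
  f.sum fun c y => ((lam c : ℝ) : ℂ) • y

open Classical in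
/-- The function on `R`. -/
private noncomputable def z1 (h : IsCone R ξ) (lam : ℝ → ℝ) (x : K) : K :=
  if hx : x ∈ R then z1f lam (exists_dec (h.span x hx)).choose else 0

private theorem z1_eq (h : IsCone R ξ) (lam : ℝ → ℝ) {x : K} {W : Submodule ℂ K} {P : ℝ → Prop}
    {f : ℝ →₀ K} (hx : x ∈ R) (hf : IsDec (ξ : K →ₗ[ℂ] K) W P f x) :
    z1 h lam x = z1f lam f := by
  unfold z1
  rw [dif_pos hx, (exists_dec (h.span x hx)).choose_spec.unique hf]

private theorem z1_hom (h : IsCone R ξ) (lam : ℝ → ℝ) {x : K} {c : ℝ} (hx : x ∈ R)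
    (hc : ξ x = (c : ℂ) • x) : z1 h lam x = ((lam c : ℝ) : ℂ) • x := by
  rw [z1_eq h lam hx (isDec_single (A := (ξ : K →ₗ[ℂ] K)) hc)]
  exact Finsupp.sum_single_index (smul_zero _)

private theorem z1_add (h : IsCone R ξ) (lam : ℝ → ℝ) {x y : K} (hx : x ∈ R) (hy : y ∈ R) :
    z1 h lam (x + y) = z1 h lam x + z1 h lam y := by
  classical
  obtain ⟨f, hf⟩ := exists_dec (h.span x hx)
  obtain ⟨g, hg⟩ := exists_dec (h.span y hy)
  have hfg : IsDec (ξ : K →ₗ[ℂ] K) ⊤ (fun _ => True) (f + g) (x + y) := by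
    refine ⟨fun b => ?_, fun b => Submodule.mem_top, fun b _ => trivial, ?_⟩
    · rw [Finsupp.add_apply, map_add, hf.eig, hg.eig, smul_add]
    · rw [Finsupp.sum_add_index' (fun _ => rfl) (fun _ _ _ => rfl), hf.sum, hg.sum]
  rw [z1_eq h lam (R.add_mem hx hy) hfg, z1_eq h lam hx hf, z1_eq h lam hy hg]
  unfold z1f
  exact Finsupp.sum_add_index' (fun _ => smul_zero _) (fun _ _ _ => smul_add _ _ _)

private theorem z1_smul (h : IsCone R ξ) (lam : ℝ → ℝ) (z : ℂ) {x : K} (hx : x ∈ R) :
    z1 h lam (z • x) = z • z1 h lam x := by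
  classical
  obtain ⟨f, hf⟩ := exists_dec (h.span x hx)
  have hz : IsDec (ξ : K →ₗ[ℂ] K) ⊤ (fun _ => True) (z • f) (z • x) := by
    refine ⟨fun b => ?_, fun b => Submodule.mem_top, fun b _ => trivial, ?_⟩
    · rw [Finsupp.smul_apply, map_smul, hf.eig, smul_comm]
    · rw [Finsupp.sum_smul_index' (fun _ => rfl), ← Finsupp.smul_sum, hf.sum]
  rw [z1_eq h lam (R.smul_mem hx z) hz, z1_eq h lam hx hf]
  unfold z1f
  rw [Finsupp.sum_smul_index' (fun _ => smul_zero _), Finsupp.smul_sum]
  exact Finsupp.sum_congr fun c _ => smul_comm _ _ _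

private theorem z1_mul (h : IsCone R ξ) (lam : ℝ → ℝ)
    (hadd : ∀ a b, lam (a + b) = lam a + lam b) {x y : K} (hx : x ∈ R) (hy : y ∈ R) :
    z1 h lam (x * y) = x * z1 h lam y + y * z1 h lam x := by
  have h1 := h.span x hx
  clear hx
  induction h1 using Submodule.span_induction with
  | mem x hx =>
    obtain ⟨hxR, c, _, hc⟩ := hx
    have hxR' : x ∈ R := hxR
    have hc' : ξ x = (c : ℂ) • x := hc
    have h2 := h.span y hy
    clear hy
    induction h2 using Submodule.span_induction with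
    | mem y hy =>
      obtain ⟨hyR, d, _, hd⟩ := hy
      have hyR' : y ∈ R := hyR
      have hd' : ξ y = (d : ℂ) • y := hd
      have hcd : ξ (x * y) = ((c + d : ℝ) : ℂ) • (x * y) := by
        rw [ξ.leibniz, hc', hd', smul_eq_mul, smul_eq_mul, Complex.ofReal_add, add_smul,
          mul_smul_comm, mul_smul_comm, mul_comm y x, add_comm]
      rw [z1_hom h lam (R.mul_mem hxR' hyR') hcd, z1_hom h lam hxR' hc', z1_hom h lam hyR' hd',
        hadd, Complex.ofReal_add, add_smul, mul_smul_comm, mul_smul_comm, mul_comm y x, add_comm]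
    | zero =>
      have h0 : z1 h lam (0 : K) = 0 := by
        have := z1_smul h lam 0 (R.zero_mem)
        rwa [zero_smul, zero_smul] at this
      rw [mul_zero, h0, mul_zero, zero_mul, add_zero]
    | add y y' hy hy' ih ih' =>
      have hyR : y ∈ R := rh_subset hy
      have hyR' : y' ∈ R := rh_subset hy'
      rw [mul_add, z1_add h lam (R.mul_mem hxR' hyR) (R.mul_mem hxR' hyR'), ih, ih',
        z1_add h lam hyR hyR']
      ring
    | smul z y hy ih =>
      have hyR : y ∈ R := rh_subset hy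
      rw [mul_smul_comm, z1_smul h lam z (R.mul_mem hxR' hyR), ih, z1_smul h lam z hyR, smul_add,
        mul_smul_comm, smul_mul_assoc]
  | zero =>
    have h0 : z1 h lam (0 : K) = 0 := by
      have := z1_smul h lam 0 (R.zero_mem)
      rwa [zero_smul, zero_smul] at this
    rw [zero_mul, h0, mul_zero, zero_mul, add_zero]
  | add x x' hx hx' ih ih' =>
    have hxR : x ∈ R := rh_subset hx
    have hxR' : x' ∈ R := rh_subset hx'
    rw [add_mul, z1_add h lam (R.mul_mem hxR hy) (R.mul_mem hxR' hy), ih, ih',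
      z1_add h lam hxR hxR']
    ring
  | smul z x hx ih =>
    have hxR : x ∈ R := rh_subset hx
    rw [smul_mul_assoc, z1_smul h lam z (R.mul_mem hxR hy), ih, z1_smul h lam z hxR, smul_add,
      mul_smul_comm, smul_mul_assoc]

/-- The value at a quotient. -/
private noncomputable def z1q (h : IsCone R ξ) (lam : ℝ → ℝ) (a b : K) : K :=
  (b * z1 h lam a - a * z1 h lam b) / (b * b)

private theorem z1q_eq (h : IsCone R ξ) (lam : ℝ → ℝ)
    (hadd : ∀ a b, lam (a + b) = lam a + lam b) {a b a' b' : K} (ha : a ∈ R) (hb : b ∈ R)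
    (ha' : a' ∈ R) (hb' : b' ∈ R) (h0 : b ≠ 0) (h0' : b' ≠ 0) (e : a / b = a' / b') :
    z1q h lam a b = z1q h lam a' b' := by
  have e1 : a * b' = a' * b := (div_eq_div_iff h0 h0').1 e
  have e2 : a * z1 h lam b' + b' * z1 h lam a = a' * z1 h lam b + b * z1 h lam a' := by
    rw [← z1_mul h lam hadd ha hb', ← z1_mul h lam hadd ha' hb, e1]
  unfold z1q
  rw [div_eq_div_iff (mul_ne_zero h0 h0) (mul_ne_zero h0' h0')]
  linear_combination (b * b') * e2 - (b * z1 h lam b' + b' * z1 h lam b) * e1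

theorem exists_der_of_add (h : IsCone R ξ) (lam : ℝ → ℝ) (hadd : ∀ a b, lam (a + b) = lam a + lam b) :
    ∃ ζ : Derivation ℂ K K, ∀ x ∈ R, ∀ c : ℝ, ξ x = (c : ℂ) • x →
      ζ x = ((lam c : ℝ) : ℂ) • x := by
  choose A hA B hB h0 hAB using h.frac
  have key : ∀ {a b : K}, a ∈ R → b ∈ R → b ≠ 0 → z1q h lam (A (a / b)) (B (a / b)) =
      z1q h lam a b := fun {a b} ha hb hb0 =>
    z1q_eq h lam hadd (hA _) (hB _) ha hb (h0 _) hb0 (hAB _).symm
  have hD : ∀ x y : K, z1q h lam (A (x + y)) (B (x + y)) =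
      z1q h lam (A x) (B x) + z1q h lam (A y) (B y) := by
    intro x y
    have e : x + y = (A x * B y + A y * B x) / (B x * B y) := by
      conv_lhs => rw [hAB x, hAB y]
      field_simp [h0 x, h0 y]
    have m1 := R.mul_mem (hA x) (hB y)
    have m2 := R.mul_mem (hA y) (hB x)
    rw [e, key (R.add_mem m1 m2) (R.mul_mem (hB x) (hB y)) (mul_ne_zero (h0 x) (h0 y))]
    unfold z1q
    rw [z1_add h lam m1 m2, z1_mul h lam hadd (hA x) (hB y), z1_mul h lam hadd (hA y) (hB x),
      z1_mul h lam hadd (hB x) (hB y)]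
    have n1 := h0 x
    have n2 := h0 y
    field_simp
    ring
  have hS : ∀ (z : ℂ) (x : K), z1q h lam (A (z • x)) (B (z • x)) = z • z1q h lam (A x) (B x) := by
    intro z x
    have e : z • x = (z • A x) / B x := by
      conv_lhs => rw [hAB x]
      rw [smul_div_assoc]
    rw [e, key (R.smul_mem (hA x) z) (hB x) (h0 x)]
    unfold z1q
    rw [z1_smul h lam z (hA x), mul_smul_comm, smul_mul_assoc, ← smul_sub, smul_div_assoc]
  have hM : ∀ x y : K, z1q h lam (A (x * y)) (B (x * y)) =
      x • z1q h lam (A y) (B y) + y • z1q h lam (A x) (B x) := by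
    intro x y
    have e : x * y = (A x * A y) / (B x * B y) := by
      conv_lhs => rw [hAB x, hAB y]
      rw [div_mul_div_comm]
    rw [e, key (R.mul_mem (hA x) (hA y)) (R.mul_mem (hB x) (hB y)) (mul_ne_zero (h0 x) (h0 y)),
      smul_eq_mul, smul_eq_mul]
    have ex := hAB x
    have ey := hAB y
    have n1 := h0 x
    have n2 := h0 y
    unfold z1q
    rw [z1_mul h lam hadd (hA x) (hA y), z1_mul h lam hadd (hB x) (hB y)]
    generalize A x = a at *
    generalize B x = b at *
    generalize A y = a' at *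
    generalize B y = b' at *
    rw [ex, ey]
    field_simp
    ring
  let D : K →ₗ[ℂ] K :=
    { toFun := fun x => z1q h lam (A x) (B x)
      map_add' := hD
      map_smul' := hS }
  refine ⟨Derivation.mk' D hM, fun x hx c hc => ?_⟩
  show z1q h lam (A x) (B x) = _
  have e : x = x / 1 := (div_one x).symm
  have h1 : z1 h lam (1 : K) = 0 := by
    have h2 := z1_mul h lam hadd R.one_mem R.one_mem
    rw [mul_one, one_mul] at h2
    have h3 : z1 h lam (1 : K) + 0 = z1 h lam 1 + z1 h lam 1 := by rw [add_zero]; exact h2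
    exact (add_left_cancel h3).symm
  rw [e, key hx R.one_mem one_ne_zero, div_one]
  unfold z1q
  rw [h1, mul_zero, sub_zero, one_mul, one_mul, div_one, z1_hom h lam hx hc]

end Pool.Agent.Helper20.TS
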