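import Pool.Agent.Helper20.TS.Df
import Pool.Agent.Helper20.TS.Z1a

/-!
# TS-Z1: the torus of a cone

`exists_der_of_add`: every `x ∈ R` is a finite sum of homogeneous elements in a unique way
(`exists_dec`, `IsDec.unique`); `ζ x = ∑ lam c • x_c` is linear on `R` and satisfies the product
rule (`lam` is additive).  Extend it to the fraction field `K` of `R`: for instance the ring
homomorphism `x ↦ x + (ζ x) ε` from `R` to the dual numbers over `K` extends to `K`
(IsFractionRing / IsLocalization.lift: nonzero elements of `R` become units).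

`exists_torus`: let `V` be the `ℚ`-span in `ℝ` of the degrees of finitely many homogeneous
generators `T` of `R` (`IsCone.exists_gens`), `e` a basis of `V`, `lam k : ℝ →ₗ[ℚ] ℚ` linear
extensions of the coordinate functions (LinearMap.exists_extend).  All degrees of `R` are sums of
degrees of elements of `T` (`R` is spanned by the monomials in `T`), so they lie in `V`, and with
`C` such that `|lam k (deg t)| ≤ C deg t` for `t ∈ T` the bound follows.  `ζ k` is given by
`exists_der_of_add`.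

`add_of_deg`: the same argument for sums: an element of `Deg R ξ` is a sum of degrees of `T`.
-/

set_option autoImplicit false

namespace Pool.Agent.Helper20.TS

open Module Pool.Agent.Helper37.SD

variable {K : Type} [Field K] [Algebra ℂ K] {R : Subalgebra ℂ K} {ξ : Derivation ℂ K K}

/-- Every degree is a sum of degrees of a finite set of positive degrees. -/
theorem add_of_deg (h : IsCone R ξ) : ∃ G : Finset ℝ, (∀ a ∈ G, 0 < a) ∧
    ∀ c ∈ Deg R ξ, c ∈ AddSubmonoid.closure (G : Set ℝ) := by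
  classical
  obtain ⟨T, δ, hδ, hT, hR⟩ := h.exists_gens
  have hc : ∀ t : K, ∃ c : ℝ, t ∈ T → δ ≤ c ∧ ξ t = (c : ℂ) • t := by
    intro t
    by_cases ht : t ∈ T
    · obtain ⟨_, _, c, h1, h2⟩ := hT t ht
      exact ⟨c, fun _ => ⟨h1, h2⟩⟩
    · exact ⟨0, fun h' => absurd h' ht⟩
  choose c hc using hc
  refine ⟨T.image c, fun a ha => ?_, fun a ha => ?_⟩
  · obtain ⟨t, ht, rfl⟩ := Finset.mem_image.mp ha
    exact lt_of_lt_of_le hδ (hc t ht).1
  · have key : ∀ x ∈ Algebra.adjoin ℂ (T : Set K),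
        x ∈ RH R ξ (fun b => b ∈ AddSubmonoid.closure ((T.image c : Finset ℝ) : Set ℝ)) := by
      intro x hx
      induction hx using Algebra.adjoin_induction with
      | mem t ht =>
        have ht' : t ∈ T := ht
        exact mem_hsp (P := fun b => b ∈ AddSubmonoid.closure ((T.image c : Finset ℝ) : Set ℝ))
          (hT t ht').1
          (AddSubmonoid.subset_closure (Finset.mem_coe.mpr (Finset.mem_image_of_mem c ht')))
          (hc t ht').2
      | algebraMap z =>
        have h1 : (ξ : K →ₗ[ℂ] K) (algebraMap ℂ K z) = ((0 : ℝ) : ℂ) • algebraMap ℂ K z := by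
          show ξ (algebraMap ℂ K z) = _
          rw [Derivation.map_algebraMap]
          simp
        exact mem_hsp (P := fun b => b ∈ AddSubmonoid.closure ((T.image c : Finset ℝ) : Set ℝ))
          (R.algebraMap_mem z) (AddSubmonoid.zero_mem _) h1
      | add x y _ _ hx hy => exact Submodule.add_mem _ hx hy
      | mul x y _ _ hx hy =>
        exact hsp_mul (P := fun b => b ∈ AddSubmonoid.closure ((T.image c : Finset ℝ) : Set ℝ))
          (Q := fun b => b ∈ AddSubmonoid.closure ((T.image c : Finset ℝ) : Set ℝ))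
          (fun _ _ ha hb => AddSubmonoid.add_mem _ ha hb) hx hy
    have h0 : eigR R ξ a ≠ ⊥ := ha
    obtain ⟨x, hx, hx0⟩ := Submodule.exists_mem_ne_zero_of_ne_bot h0
    have hxR : x ∈ Algebra.adjoin ℂ (T : Set K) := by
      rw [hR]
      exact hx.1
    exact prop_of_mem_hsp (A := (ξ : K →ₗ[ℂ] K))
      (P := fun b => b ∈ AddSubmonoid.closure ((T.image c : Finset ℝ) : Set ℝ)) hx0 hx.2 (key x hxR)

theorem exists_torus (h : IsCone R ξ) : ∃ (r : ℕ) (e : Fin r → ℝ) (lam : Fin r → (ℝ →ₗ[ℚ] ℚ))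
    (ζ : Fin r → Derivation ℂ K K) (C : ℝ), 0 < C ∧
      (∀ k, ∀ c : ℝ, ∀ x ∈ R, ξ x = (c : ℂ) • x → ζ k x = (((lam k c : ℚ) : ℝ) : ℂ) • x) ∧
      (∀ c ∈ Deg R ξ, c = ∑ k, e k * ((lam k c : ℚ) : ℝ)) ∧
      ∀ k, ∀ c ∈ Deg R ξ, |((lam k c : ℚ) : ℝ)| ≤ C * c := by
  classical
  obtain ⟨G, hG, hdeg⟩ := add_of_deg h
  have hfin : FiniteDimensional ℚ (Submodule.span ℚ (G : Set ℝ)) := FiniteDimensional.span_finset ℚ G
  let b := Module.finBasis ℚ (Submodule.span ℚ (G : Set ℝ))
  have hext : ∀ k, ∃ g : ℝ →ₗ[ℚ] ℚ, g ∘ₗ (Submodule.span ℚ (G : Set ℝ)).subtype = b.coord k :=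
    fun k => LinearMap.exists_extend (b.coord k)
  choose lam hlam using hext
  have hζ : ∀ k, ∃ ζ : Derivation ℂ K K, ∀ x ∈ R, ∀ c : ℝ, ξ x = (c : ℂ) • x →
      ζ x = (((lam k c : ℚ) : ℝ) : ℂ) • x := fun k =>
    exists_der_of_add h (fun c => ((lam k c : ℚ) : ℝ)) (fun a b => by
      rw [map_add]
      push_cast
      ring)
  choose ζ hζ using hζ
  have hmem : ∀ c ∈ AddSubmonoid.closure (G : Set ℝ), c ∈ Submodule.span ℚ (G : Set ℝ) := by
    intro c hc
    have h1 : AddSubmonoid.closure (G : Set ℝ) ≤ (Submodule.span ℚ (G : Set ℝ)).toAddSubmonoid :=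
      (AddSubmonoid.closure_le).mpr Submodule.subset_span
    exact h1 hc
  refine ⟨_, fun k => (b k : ℝ), lam, ζ, ∑ k, ∑ g ∈ G, |((lam k g : ℚ) : ℝ)| / g + 1, ?_, ?_, ?_, ?_⟩
  · have h1 : 0 ≤ ∑ k, ∑ g ∈ G, |((lam k g : ℚ) : ℝ)| / g :=
      Finset.sum_nonneg fun k _ => Finset.sum_nonneg fun g hg => div_nonneg (abs_nonneg _) (hG g hg).le
    linarith
  · intro k c x hx hc
    exact hζ k x hx c hc
  · intro c hc
    have hcV := hmem c (hdeg c hc)
    have h1 := b.sum_repr ⟨c, hcV⟩
    have h2 := congrArg (fun x : Submodule.span ℚ (G : Set ℝ) => (x : ℝ)) h1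
    simp only [AddSubmonoidClass.coe_finsetSum, Submodule.coe_smul] at h2
    have h3 : ∀ k, b.repr ⟨c, hcV⟩ k = lam k c := by
      intro k
      have h4 := LinearMap.congr_fun (hlam k) ⟨c, hcV⟩
      exact h4.symm
    rw [← h2]
    refine Finset.sum_congr rfl fun k _ => ?_
    rw [h3 k, h2, Rat.smul_def, mul_comm]
  · intro k c hc
    have hC : ∀ g ∈ G, |((lam k g : ℚ) : ℝ)| ≤
        (∑ k, ∑ g ∈ G, |((lam k g : ℚ) : ℝ)| / g + 1) * g := by
      intro g hg
      have hg0 := hG g hg
      have h1 : |((lam k g : ℚ) : ℝ)| / g ≤ ∑ g ∈ G, |((lam k g : ℚ) : ℝ)| / g :=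
        Finset.single_le_sum (f := fun g => |((lam k g : ℚ) : ℝ)| / g)
          (fun a ha => div_nonneg (abs_nonneg _) (hG a ha).le) hg
      have h2 : ∑ g ∈ G, |((lam k g : ℚ) : ℝ)| / g ≤ ∑ k, ∑ g ∈ G, |((lam k g : ℚ) : ℝ)| / g :=
        Finset.single_le_sum (f := fun k => ∑ g ∈ G, |((lam k g : ℚ) : ℝ)| / g)
          (fun k _ => Finset.sum_nonneg fun a ha => div_nonneg (abs_nonneg _) (hG a ha).le)
          (Finset.mem_univ k)
      have h3 : |((lam k g : ℚ) : ℝ)| = |((lam k g : ℚ) : ℝ)| / g * g := by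
        field_simp
      rw [h3]
      exact mul_le_mul_of_nonneg_right (by linarith) hg0.le
    have key : ∀ x ∈ AddSubmonoid.closure (G : Set ℝ), |((lam k x : ℚ) : ℝ)| ≤
        (∑ k, ∑ g ∈ G, |((lam k g : ℚ) : ℝ)| / g + 1) * x := by
      intro x hx
      induction hx using AddSubmonoid.closure_induction with
      | mem g hg => exact hC g hg
      | zero => simp
      | add x y _ _ hx hy =>
        rw [map_add]
        push_cast
        rw [mul_add]
        exact (abs_add_le _ _).trans (add_le_add hx hy)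
    exact key c (hdeg c hc)

end Pool.Agent.Helper20.TS
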