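import Pool.Agent.Helper20.TS.Z1

/-!
# TS-Z2a: rational perturbations of the Reeb field

Put `φ c = ∑ k, q k * lam k c`, rational, with `|φ c - c| ≤ c / 2` on `Deg R ξ`.
On `eigR R ξ c` the field `∑ q k • ζ k` is the scalar `φ c`.  By `add_of_deg` there is `M > 0` such
that `M φ c` is a natural number for every `c ∈ Deg R ξ`.  All fields of `NCone` follow
from the decomposition of the elements of `R` in `ξ`-homogeneous components.
-/

set_option autoImplicit false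

namespace Pool.Agent.Helper20.TS

open Module Pool.Agent.Helper37.SD

variable {K : Type} [Field K] [Algebra ℂ K] {R : Subalgebra ℂ K} {ξ : Derivation ℂ K K}

theorem mem_deg {x : K} (hx : x ∈ R) (hx0 : x ≠ 0) {c : ℝ} (hc : ξ x = (c : ℂ) • x) :
    c ∈ Deg R ξ := by
  intro h
  apply hx0
  have h1 : x ∈ eigR R ξ c := ⟨hx, hc⟩
  rw [h] at h1
  exact (Submodule.mem_bot ℂ).mp h1

/-- `φ` is almost the identity on the degrees. -/
theorem abs_phi_sub_le {r : ℕ} {e : Fin r → ℝ} {lam : Fin r → (ℝ →ₗ[ℚ] ℚ)} {C : ℝ}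
    (q : Fin r → ℚ) (δ : ℝ) (hq : ∀ k, |((q k : ℚ) : ℝ) - e k| ≤ δ) (hδ : r * C * δ ≤ 1 / 2)
    {c : ℝ} (hc0 : 0 ≤ c) (he : c = ∑ k, e k * ((lam k c : ℚ) : ℝ))
    (hC : ∀ k, |((lam k c : ℚ) : ℝ)| ≤ C * c) :
    |(∑ k, ((q k : ℚ) : ℝ) * ((lam k c : ℚ) : ℝ)) - c| ≤ c / 2 := by
  have h1 : (∑ k, ((q k : ℚ) : ℝ) * ((lam k c : ℚ) : ℝ)) - c
      = ∑ k, (((q k : ℚ) : ℝ) - e k) * ((lam k c : ℚ) : ℝ) := by
    have h2 : ∑ k, (((q k : ℚ) : ℝ) - e k) * ((lam k c : ℚ) : ℝ)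
        = (∑ k, ((q k : ℚ) : ℝ) * ((lam k c : ℚ) : ℝ)) - ∑ k, e k * ((lam k c : ℚ) : ℝ) := by
      rw [← Finset.sum_sub_distrib]
      exact Finset.sum_congr rfl fun k _ => sub_mul _ _ _
    rw [h2, ← he]
  rw [h1]
  calc |∑ k, (((q k : ℚ) : ℝ) - e k) * ((lam k c : ℚ) : ℝ)|
      ≤ ∑ k, |(((q k : ℚ) : ℝ) - e k) * ((lam k c : ℚ) : ℝ)| := Finset.abs_sum_le_sum_abs _ _
    _ ≤ ∑ _k : Fin r, δ * (C * c) := by
        refine Finset.sum_le_sum fun k _ => ?_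
        rw [abs_mul]
        exact mul_le_mul (hq k) (hC k) (abs_nonneg _) ((abs_nonneg _).trans (hq k))
    _ = (r * C * δ) * c := by
        rw [Finset.sum_const, Finset.card_univ, Fintype.card_fin, nsmul_eq_mul]
        ring
    _ ≤ 1 / 2 * c := mul_le_mul_of_nonneg_right hδ hc0
    _ = c / 2 := by ring

theorem der_sum_apply {ι : Type} (s : Finset ι) (D : ι → Derivation ℂ K K) (x : K) :
    (∑ k ∈ s, D k) x = ∑ k ∈ s, D k x := by
  classical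
  induction s using Finset.induction_on with
  | empty => rfl
  | insert a s ha ih => rw [Finset.sum_insert ha, Finset.sum_insert ha, Derivation.add_apply, ih]

/-- A common denominator. -/
theorem exists_den_phi (φ : ℝ →ₗ[ℚ] ℚ) (G : Finset ℝ) : ∃ M : ℕ, 0 < M ∧
    ∀ c ∈ AddSubmonoid.closure (G : Set ℝ), ∃ z : ℤ, (M : ℚ) * φ c = z := by
  classical
  refine ⟨∏ a ∈ G, (φ a).den, Finset.prod_pos fun a _ => (φ a).den_pos, fun c hc => ?_⟩
  induction hc using AddSubmonoid.closure_induction with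
  | mem a ha =>
    have ha' : a ∈ G := ha
    obtain ⟨m, hm⟩ := Finset.dvd_prod_of_mem (fun a => (φ a).den) ha'
    refine ⟨(m : ℤ) * (φ a).num, ?_⟩
    have h1 : (∏ a ∈ G, (φ a).den) = (φ a).den * m := hm
    rw [h1]
    have h2 : (φ a) * ((φ a).den : ℚ) = (φ a).num := Rat.mul_den_eq_num (φ a)
    push_cast
    rw [← h2]
    ring
  | zero => exact ⟨0, by rw [map_zero, mul_zero, Int.cast_zero]⟩
  | add a b _ _ ha hb =>
    obtain ⟨x, hx⟩ := ha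
    obtain ⟨y, hy⟩ := hb
    exact ⟨x + y, by rw [map_add, mul_add, hx, hy, Int.cast_add]⟩

theorem exists_ncone (h : IsCone R ξ) {r : ℕ} {e : Fin r → ℝ} {lam : Fin r → (ℝ →ₗ[ℚ] ℚ)}
    {ζ : Fin r → Derivation ℂ K K} {C : ℝ}
    (hζ : ∀ k, ∀ c : ℝ, ∀ x ∈ R, ξ x = (c : ℂ) • x → ζ k x = (((lam k c : ℚ) : ℝ) : ℂ) • x)
    (he : ∀ c ∈ Deg R ξ, c = ∑ k, e k * ((lam k c : ℚ) : ℝ))
    (hC : ∀ k, ∀ c ∈ Deg R ξ, |((lam k c : ℚ) : ℝ)| ≤ C * c) (q : Fin r → ℚ) (δ : ℝ)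
    (hq : ∀ k, |((q k : ℚ) : ℝ) - e k| ≤ δ) (hδ : r * C * δ ≤ 1 / 2) :
    ∃ M : ℕ, 0 < M ∧ NCone R ((((M : ℝ)) : ℂ) • ∑ k, (((q k : ℚ) : ℝ) : ℂ) • ζ k) := by
  classical
  obtain ⟨G, _, hG⟩ := add_of_deg h
  let φ : ℝ →ₗ[ℚ] ℚ := ∑ k, q k • lam k
  have hφ : ∀ c, ((φ c : ℚ) : ℝ) = ∑ k, ((q k : ℚ) : ℝ) * ((lam k c : ℚ) : ℝ) := by
    intro c
    have h1 : φ c = ∑ k, q k * lam k c := by
      show (∑ k, q k • lam k) c = _
      rw [LinearMap.sum_apply]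
      rfl
    rw [h1]
    push_cast
    rfl
  obtain ⟨M, hM, hMφ⟩ := exists_den_phi φ G
  have hM' : (0 : ℝ) < M := Nat.cast_pos.mpr hM
  refine ⟨M, hM, ?_⟩
  set Z : Derivation ℂ K K := (((M : ℝ)) : ℂ) • ∑ k, (((q k : ℚ) : ℝ) : ℂ) • ζ k with hZ
  -- the eigenvalues
  have hZx : ∀ x ∈ R, ∀ c : ℝ, ξ x = (c : ℂ) • x →
      Z x = (((M : ℝ) * ((φ c : ℚ) : ℝ) : ℝ) : ℂ) • x := by
    intro x hx c hc
    have h1 : (∑ k, (((q k : ℚ) : ℝ) : ℂ) • ζ k : Derivation ℂ K K) x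
        = ∑ k, (((q k : ℚ) : ℝ) : ℂ) • ζ k x := by
      rw [der_sum_apply]
      rfl
    have h2 : Z x = (((M : ℝ)) : ℂ) • ∑ k, (((q k : ℚ) : ℝ) : ℂ) • ζ k x := by
      rw [hZ, Derivation.smul_apply, h1]
    rw [h2, hφ c]
    have h3 : ∀ k, (((q k : ℚ) : ℝ) : ℂ) • ζ k x
        = (((((q k : ℚ) : ℝ) * ((lam k c : ℚ) : ℝ) : ℝ)) : ℂ) • x := by
      intro k
      rw [hζ k c x hx hc, smul_smul]
      push_cast
      rfl
    rw [Finset.sum_congr rfl fun k _ => h3 k, ← Finset.sum_smul, smul_smul]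
    congr 1
    push_cast
    rfl
  have hpos : ∀ c ∈ Deg R ξ, 0 ≤ c ∧ c / 2 ≤ ((φ c : ℚ) : ℝ) := by
    intro c hc
    obtain ⟨x, hx, hx0⟩ := (Submodule.ne_bot_iff _).mp hc
    have hc0 : 0 ≤ c := h.eig_nonneg hx.1 hx0 hx.2
    refine ⟨hc0, ?_⟩
    have h1 := abs_phi_sub_le q δ hq hδ hc0 (he c hc) (fun k => hC k c hc)
    rw [← hφ c] at h1
    have h2 := (abs_le.mp h1).1
    linarith
  have hnat : ∀ c ∈ Deg R ξ, ∃ m : ℕ, (M : ℝ) * ((φ c : ℚ) : ℝ) = m := by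
    intro c hc
    obtain ⟨z, hz⟩ := hMφ c (hG c hc)
    have h1 : (M : ℝ) * ((φ c : ℚ) : ℝ) = z := by exact_mod_cast hz
    have h2 : (0 : ℝ) ≤ z := by
      rw [← h1]
      obtain ⟨h3, h4⟩ := hpos c hc
      exact mul_nonneg hM'.le (by linarith)
    have h3 : 0 ≤ z := by exact_mod_cast h2
    refine ⟨z.toNat, ?_⟩
    rw [h1]
    have h4 : ((z.toNat : ℤ) : ℝ) = (z : ℝ) := by rw [Int.toNat_of_nonneg h3]
    rw [← h4, Int.cast_natCast]
  -- a comparison of components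
  have hcomp : ∀ x ∈ R, ∀ f : ℝ →₀ K, IsDec (ξ : K →ₗ[ℂ] K) (RS R) (fun c => 0 ≤ c) f x →
      ∀ b : ℝ, Z x = (b : ℂ) • x → ∀ c, f c ≠ 0 → (M : ℝ) * ((φ c : ℚ) : ℝ) = b := by
    intro x hx f hf b hb c hc
    have h1 : Z x = ∑ c ∈ f.support, (((M : ℝ) * ((φ c : ℚ) : ℝ) : ℝ) : ℂ) • f c := by
      conv_lhs => rw [← hf.sum, Finsupp.sum]
      rw [map_sum]
      exact Finset.sum_congr rfl fun c _ => hZx (f c) (hf.mem c) c (hf.eig c)
    have h2 : (b : ℂ) • x = ∑ c ∈ f.support, (b : ℂ) • f c := by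
      conv_lhs => rw [← hf.sum, Finsupp.sum]
      rw [Finset.smul_sum]
    have h3 : ∑ c ∈ f.support, ((((M : ℝ) * ((φ c : ℚ) : ℝ) : ℝ) : ℂ) - (b : ℂ)) • f c = 0 := by
      rw [← sub_eq_zero] at hb
      rw [← hb, h1, h2, ← Finset.sum_sub_distrib]
      exact Finset.sum_congr rfl fun c _ => sub_smul _ _ _
    have h4 := eig_indep (ξ : K →ₗ[ℂ] K) f.support
      (fun c => ((((M : ℝ) * ((φ c : ℚ) : ℝ) : ℝ) : ℂ) - (b : ℂ)) • f c) (fun c _ => by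
        have h5 : (ξ : K →ₗ[ℂ] K) (f c) = (c : ℂ) • f c := hf.eig c
        show (ξ : K →ₗ[ℂ] K) (_ • f c) = (c : ℂ) • (_ • f c)
        rw [map_smul, h5, smul_comm]) h3 c (Finsupp.mem_support_iff.mpr hc)
    rcases smul_eq_zero.mp h4 with h5 | h5
    · have h6 : (((M : ℝ) * ((φ c : ℚ) : ℝ) : ℝ) : ℂ) = (b : ℂ) := sub_eq_zero.mp h5
      exact_mod_cast h6
    · exact absurd h5 hc
  have hdeg : ∀ x ∈ R, ∀ f : ℝ →₀ K, IsDec (ξ : K →ₗ[ℂ] K) (RS R) (fun c => 0 ≤ c) f x →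
      ∀ c, f c ≠ 0 → c ∈ Deg R ξ := fun x _ f hf c hc => mem_deg (hf.mem c) hc (hf.eig c)
  refine { frac := h.frac, fg := h.fg, span := ?_, const := ?_, int := ?_ }
  · -- span
    intro x hx
    have h1 : RH R ξ (fun c => 0 ≤ c) ≤ RH R Z (fun c => 0 ≤ c) := by
      refine Submodule.span_le.mpr ?_
      rintro y ⟨hyR, c, _, hc⟩
      by_cases hy0 : y = 0
      · rw [hy0]
        exact Submodule.zero_mem _
      · have hc' : ξ y = (c : ℂ) • y := hc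
        obtain ⟨h3, h4⟩ := hpos c (mem_deg hyR hy0 hc')
        exact mem_hsp hyR (c := (M : ℝ) * ((φ c : ℚ) : ℝ))
          (mul_nonneg hM'.le (by linarith)) (hZx y hyR c hc')
    exact h1 (h.span x hx)
  · -- const
    intro x hx hx0
    obtain ⟨f, hf⟩ := exists_dec (h.span x hx)
    refine h.const x hx ?_
    have h1 : ∀ c, f c ≠ 0 → c = 0 := by
      intro c hc
      have h2 := hcomp x hx f hf 0 (by rw [hx0, Complex.ofReal_zero, zero_smul]) c hc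
      obtain ⟨h3, h4⟩ := hpos c (hdeg x hx f hf c hc)
      have h5 : ((φ c : ℚ) : ℝ) = 0 := (mul_eq_zero.mp h2).resolve_left hM'.ne'
      linarith
    have h2 : x = f 0 := by
      rw [← hf.sum, Finsupp.sum]
      by_cases h0 : f 0 = 0
      · rw [h0]
        refine Finset.sum_eq_zero fun c hc => ?_
        exact absurd (h1 c (Finsupp.mem_support_iff.mp hc) ▸ h0)
          (by
            have := Finsupp.mem_support_iff.mp hc
            have h9 := h1 c this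
            rw [h9] at this
            exact fun _ => this h0)
      · rw [Finset.sum_eq_single_of_mem 0 (Finsupp.mem_support_iff.mpr h0)]
        intro c hc hc0
        exact absurd (h1 c (Finsupp.mem_support_iff.mp hc)) hc0
    rw [h2]
    have h3 : ξ (f 0) = ((0 : ℝ) : ℂ) • f 0 := hf.eig 0
    rw [h3, Complex.ofReal_zero, zero_smul]
  · -- int
    intro x hx hx0 b hb
    obtain ⟨f, hf⟩ := exists_dec (h.span x hx)
    have hs : ∃ c, f c ≠ 0 := by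
      by_contra hcon
      push Not at hcon
      apply hx0
      rw [← hf.sum, Finsupp.sum]
      exact Finset.sum_eq_zero fun c _ => hcon c
    obtain ⟨c, hc⟩ := hs
    obtain ⟨m, hm⟩ := hnat c (hdeg x hx f hf c hc)
    exact ⟨m, by rw [← hm]; exact (hcomp x hx f hf b hb c hc).symm⟩

end Pool.Agent.Helper20.TS
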